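import Pool.Agent.H11.FX.CoAB

/-! Branch and bound data, generated. -/

set_option maxRecDepth 100000

namespace FX.DA

open H41FT H41FT.Tr

theorem MG_7 : Hd (QMG coA) 79228162514264400837452780012 5013773022659
    79228162514264562773525318862 28147497671066 79228162514264478331032305664 140737488355329
    :=
  okMG coA (s1 (s1 (s2 (s2 (s2 (s0 lf lf) lf) (s2 lf lf)) (s2 (s2 lf lf) (s2 lf lf))) (s2 (s2
    (s0 (s2 lf lf) (s2 lf lf)) (s2 (s0 lf lf) lf)) (s2 (s2 lf lf) (s2 lf lf)))) (s1 (s2 (s2 (s2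
    (s2 lf lf) (s2 lf lf)) (s0 (s2 lf lf) (s2 lf lf))) (s2 (s0 (s2 lf lf) (s2 lf lf)) (s2 lf
    lf))) (s2 (s2 (s2 (s2 lf lf) (s2 lf lf)) (s2 (s2 lf lf) (s2 lf lf))) (s0 (s2 (s2 lf lf) (s2
    lf lf)) (s2 (s2 lf lf) (s2 lf lf))))))
    ⟨79228162514264400837452780012, 5013773022659, 79228162514264562773525318862,
    28147497671066, 79228162514264478331032305664, 140737488355329⟩ (by decide +kernel)

theorem MG_8 : Hd (QMG coA) 79228162514264425906317893305 20055092090635
    79228162514264422036036963532 56294995342132 79228162514264478331032305664 140737488355329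
    :=
  okMG coA (s1 (s0 (s1 (s2 (s2 (s0 lf lf) lf) (s2 lf lf)) (s2 (s2 (s0 lf lf) lf) (s2 lf lf)))
    (s1 (s2 (s2 (s0 lf lf) lf) (s2 lf lf)) (s2 (s2 (s0 lf lf) lf) (s2 lf lf)))) (s2 (s0 (s1 (s2
    (s0 lf lf) lf) (s2 (s2 lf lf) (s0 lf lf))) (s1 (s2 (s0 lf lf) lf) (s2 (s2 lf lf) (s0 lf
    lf)))) (s0 (s1 (s2 lf lf) (s2 (s0 lf lf) lf)) (s1 (s2 lf lf) (s2 lf lf)))))
    ⟨79228162514264425906317893305, 20055092090635, 79228162514264422036036963532,
    56294995342132, 79228162514264478331032305664, 140737488355329⟩ (by decide +kernel)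

theorem MG_9 : Hd (QMG coA) 79228162514264425906317893305 20055092090635
    79228162514264506478529976730 28147497671066 79228162514264407962288127999 70368744177665 :=
  okMG coA (s0 (s1 (s2 (s0 (s2 lf lf) (s2 lf lf)) (s2 (s0 lf lf) lf)) (s0 (s2 (s0 (s2 lf lf) (s2
    lf lf)) (s2 lf lf)) (s2 (s0 (s2 lf lf) (s2 lf lf)) (s2 lf lf)))) (s1 (s2 (s0 (s2 lf lf) (s2
    lf lf)) (s2 lf lf)) (s0 (s2 (s0 (s2 lf lf) (s2 lf lf)) (s2 lf lf)) (s2 (s1 (s2 lf lf) (s2 lf
    lf)) (s2 lf lf)))))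
    ⟨79228162514264425906317893305, 20055092090635, 79228162514264506478529976730,
    28147497671066, 79228162514264407962288127999, 70368744177665⟩ (by decide +kernel)

theorem MG_10 : Hd (QMG coA) 79228162514264425906317893305 20055092090635
    79228162514264506478529976730 28147497671066 79228162514264548699776483329 70368744177665 :=
  okMG coA (s0 (s1 (s2 (s2 lf lf) (s0 lf lf)) (s0 (s2 (s2 lf lf) (s2 lf lf)) (s2 (s2 lf lf) (s1
    lf lf)))) (s0 (s1 (s2 lf lf) (s2 (s2 lf lf) (s0 lf lf))) (s1 (s2 lf lf) (s2 (s2 lf lf) (s0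
    lf lf)))))
    ⟨79228162514264425906317893305, 20055092090635, 79228162514264506478529976730,
    28147497671066, 79228162514264548699776483329, 70368744177665⟩ (by decide +kernel)

theorem MG_11 : Hd (QMG coA) 79228162514264410864998825328 5013773022659
    79228162514264562773525318862 28147497671066 79228162514264407962288127999 70368744177665 :=
  okMG coA (s1 (s1 (s2 (s2 (s0 lf lf) lf) (s2 lf lf)) (s2 (s0 (s2 lf lf) (s2 lf lf)) (s2 (s0 lf
    lf) lf))) (s1 (s2 (s2 (s2 lf lf) (s2 lf lf)) (s0 (s2 lf lf) (s2 lf lf))) (s2 (s2 (s2 (s0 lf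
    lf) lf) (s2 lf lf)) (s2 (s2 lf lf) (s2 lf lf)))))
    ⟨79228162514264410864998825328, 5013773022659, 79228162514264562773525318862,
    28147497671066, 79228162514264407962288127999, 70368744177665⟩ (by decide +kernel)

theorem MG_12 : Hd (QMG coA) 79228162514264420892544870646 5013773022659
    79228162514264562773525318862 28147497671066 79228162514264407962288127999 70368744177665 :=
  okMG coA (s1 (s1 (s2 (s2 (s0 lf lf) lf) (s2 lf lf)) (s2 (s2 (s2 lf lf) (s0 lf lf)) (s2 (s0 lf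
    lf) lf))) (s1 (s2 (s2 (s2 lf lf) (s2 lf lf)) (s0 (s2 lf lf) (s2 lf lf))) (s2 (s2 (s0 (s2 lf
    lf) (s2 lf lf)) (s2 (s0 lf lf) lf)) (s2 (s2 lf lf) (s2 lf lf)))))
    ⟨79228162514264420892544870646, 5013773022659, 79228162514264562773525318862,
    28147497671066, 79228162514264407962288127999, 70368744177665⟩ (by decide +kernel)

theorem MG_13 : Hd (QMG coA) 79228162514264435933863938623 10027546045318
    79228162514264548699776483329 14073748835533 79228162514264407962288127999 70368744177665 :=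
  okMG coA (s2 (s0 (s1 (s2 (s0 lf lf) lf) (s2 (s2 lf lf) (s0 lf lf))) (s1 (s2 (s0 lf lf) lf) (s2
    (s2 lf lf) (s0 lf lf)))) (s2 (s2 (s1 lf (s0 lf lf)) (s0 lf lf)) (s0 (s1 lf lf) (s1 lf lf))))
    ⟨79228162514264435933863938623, 10027546045318, 79228162514264548699776483329,
    14073748835533, 79228162514264407962288127999, 70368744177665⟩ (by decide +kernel)

theorem MG_14 : Hd (QMG coA) 79228162514264435933863938623 10027546045318
    79228162514264576847274154395 14073748835533 79228162514264407962288127999 70368744177665 :=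
  okMG coA (s0 (s1 (s2 (s2 (s2 lf lf) (s2 lf lf)) (s0 (s2 lf lf) (s2 lf lf))) (s2 (s0 (s2 (s2 lf
    lf) (s2 lf lf)) (s2 (s2 lf lf) (s2 lf lf))) (s2 (s2 (s0 lf lf) lf) (s2 lf lf)))) (s1 (s2 (s2
    (s2 (s0 lf lf) lf) (s2 lf lf)) (s2 (s2 lf lf) (s0 lf lf))) (s2 (s0 (s2 (s2 lf lf) (s2 lf
    lf)) (s2 (s2 lf lf) (s2 lf lf))) (s2 (s0 (s2 lf lf) (s2 lf lf)) (s2 lf lf)))))
    ⟨79228162514264435933863938623, 10027546045318, 79228162514264576847274154395,
    14073748835533, 79228162514264407962288127999, 70368744177665⟩ (by decide +kernel)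

theorem MG_15 : Hd (QMG coA) 79228162514264415878771847987 10027546045318
    79228162514264562773525318862 28147497671066 79228162514264548699776483329 70368744177665 :=
  okMG coA (s0 (s1 (s0 (s2 (s2 lf lf) (s2 lf lf)) (s2 (s2 lf lf) (s2 lf lf))) (s1 (s2 (s0 (s2 lf
    lf) (s2 lf lf)) (s2 lf lf)) (s2 (s2 (s2 lf lf) (s0 lf lf)) (s0 (s2 lf lf) (s2 lf lf))))) (s1
    (s0 (s2 (s2 lf lf) (s2 lf lf)) (s2 (s2 lf lf) (s2 lf lf))) (s1 (s2 (s0 (s2 lf lf) (s2 lf
    lf)) (s2 lf lf)) (s2 (s2 (s2 lf lf) (s0 lf lf)) (s0 (s2 lf lf) (s2 lf lf))))))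
    ⟨79228162514264415878771847987, 10027546045318, 79228162514264562773525318862,
    28147497671066, 79228162514264548699776483329, 70368744177665⟩ (by decide +kernel)

theorem MG_16 : Hd (QMG coA) 79228162514264435933863938623 10027546045318
    79228162514264562773525318862 28147497671066 79228162514264548699776483329 70368744177665 :=
  okMG coA (s1 (s1 (s2 (s0 (s2 lf lf) (s2 lf lf)) (s2 lf lf)) (s0 (s2 (s2 lf lf) (s2 lf lf)) (s2
    (s2 lf lf) (s2 lf lf)))) (s0 (s1 (s2 (s0 (s2 lf lf) (s2 lf lf)) (s2 lf lf)) (s2 (s2 (s2 lf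
    lf) (s2 lf lf)) (s0 (s2 lf lf) (s2 lf lf)))) (s1 (s2 (s0 (s2 lf lf) (s2 lf lf)) (s2 lf lf))
    (s2 (s2 (s2 lf lf) (s2 lf lf)) (s0 (s2 lf lf) (s2 lf lf))))))
    ⟨79228162514264435933863938623, 10027546045318, 79228162514264562773525318862,
    28147497671066, 79228162514264548699776483329, 70368744177665⟩ (by decide +kernel)

theorem MG_17 : Hd (QMG coA) 79228162514264466016502074573 20055092090635
    79228162514264422036036963532 56294995342132 79228162514264478331032305664 140737488355329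
    :=
  okMG coA (s1 (s2 (s0 (s1 (s2 (s0 lf lf) lf) (s2 (s0 lf lf) lf)) (s1 (s2 (s2 lf lf) lf) (s2 (s0
    lf lf) lf))) (s0 (s0 (s2 lf lf) (s2 lf lf)) (s1 (s2 lf lf) (s2 lf lf)))) (s2 (s0 (s1 (s2 (s2
    lf lf) lf) (s2 (s2 lf lf) (s0 lf lf))) (s1 (s2 (s2 lf lf) lf) (s2 (s2 (s0 lf lf) lf) (s0 lf
    lf)))) (s0 (s1 (s2 lf lf) (s2 lf lf)) (s1 (s2 lf lf) (s2 lf lf)))))
    ⟨79228162514264466016502074573, 20055092090635, 79228162514264422036036963532,
    56294995342132, 79228162514264478331032305664, 140737488355329⟩ (by decide +kernel)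

theorem MG_18 : Hd (QMG coA) 79228162514264466016502074573 20055092090635
    79228162514264506478529976730 28147497671066 79228162514264407962288127999 70368744177665 :=
  okMG coA (s0 (s1 (s2 (s0 (s2 lf lf) (s2 lf lf)) (s2 lf lf)) (s0 (s2 (s1 (s2 lf lf) (s2 lf lf))
    (s2 lf lf)) (s2 (s2 (s2 lf lf) (s0 lf lf)) (s2 lf lf)))) (s1 (s2 (s2 (s2 lf lf) (s0 lf lf))
    (s2 lf lf)) (s0 (s2 (s2 (s2 lf lf) (s0 lf lf)) (s2 lf lf)) (s2 (s2 (s2 lf lf) (s0 lf lf))
    (s2 lf lf)))))
    ⟨79228162514264466016502074573, 20055092090635, 79228162514264506478529976730,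
    28147497671066, 79228162514264407962288127999, 70368744177665⟩ (by decide +kernel)

theorem MG_19 : Hd (QMG coA) 79228162514264466016502074573 20055092090635
    79228162514264506478529976730 28147497671066 79228162514264548699776483329 70368744177665 :=
  okMG coA (s0 (s0 (s1 (s2 lf lf) (s2 (s2 lf lf) (s0 lf lf))) (s1 (s2 lf lf) (s2 (s2 lf lf) (s0
    lf lf)))) (s1 (s0 (s2 lf lf) (s2 lf lf)) (s2 (s0 (s2 lf lf) (s2 lf lf)) (s2 (s0 lf lf)
    lf))))
    ⟨79228162514264466016502074573, 20055092090635, 79228162514264506478529976730,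
    28147497671066, 79228162514264548699776483329, 70368744177665⟩ (by decide +kernel)

theorem MG_20 : Hd (QMG coA) 79228162514264455988956029255 10027546045318
    79228162514264548699776483329 14073748835533 79228162514264407962288127999 70368744177665 :=
  okMG coA (s2 (s0 (s1 (s2 (s0 lf lf) lf) (s2 (s2 lf lf) (s0 lf lf))) (s1 (s2 (s0 lf lf) lf) (s2
    (s2 lf lf) (s0 lf lf)))) (s2 (s2 (s1 lf (s0 lf lf)) (s0 lf lf)) (s0 (s1 lf lf) (s1 lf lf))))
    ⟨79228162514264455988956029255, 10027546045318, 79228162514264548699776483329,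
    14073748835533, 79228162514264407962288127999, 70368744177665⟩ (by decide +kernel)

end FX.DA
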