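import Pool.Agent.H11.FX.CoAB

/-! Branch and bound data, generated. -/

set_option maxRecDepth 100000

namespace FX.DA

open H41FT H41FT.Tr

theorem MG_21 : Hd (QMG coA) 79228162514264450975183006596 5013773022659
    79228162514264576847274154395 14073748835533 79228162514264407962288127999 70368744177665 :=
  okMG coA (s1 (s2 (s2 (s0 (s2 lf lf) (s2 lf lf)) (s2 lf lf)) (s2 (s2 lf lf) (s0 lf lf))) (s2
    (s2 (s2 (s1 lf (s0 lf lf)) (s0 lf lf)) (s0 (s2 lf lf) (s2 lf lf))) (s2 (s0 (s2 lf lf) (s2 lf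
    lf)) (s2 (s0 lf lf) lf))))
    ⟨79228162514264450975183006596, 5013773022659, 79228162514264576847274154395,
    14073748835533, 79228162514264407962288127999, 70368744177665⟩ (by decide +kernel)

theorem MG_22 : Hd (QMG coA) 79228162514264461002729051914 5013773022659
    79228162514264576847274154395 14073748835533 79228162514264407962288127999 70368744177665 :=
  okMG coA (s1 (s2 (s2 (s0 (s2 lf lf) (s2 lf lf)) (s2 lf lf)) (s2 (s2 lf lf) (s0 lf lf))) (s2
    (s2 (s1 (s2 (s0 lf lf) lf) (s0 (s2 lf lf) (s2 lf lf))) (s0 (s2 lf lf) (s2 lf lf))) (s0 (s2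
    (s2 lf lf) (s2 lf lf)) (s2 (s2 lf lf) (s2 lf lf)))))
    ⟨79228162514264461002729051914, 5013773022659, 79228162514264576847274154395,
    14073748835533, 79228162514264407962288127999, 70368744177665⟩ (by decide +kernel)

theorem MG_23 : Hd (QMG coA) 79228162514264476044048119891 10027546045318
    79228162514264548699776483329 14073748835533 79228162514264407962288127999 70368744177665 :=
  okMG coA (s1 (s2 (s2 (s0 (s2 lf lf) (s2 lf lf)) (s2 (s0 lf lf) lf)) (s0 (s2 lf lf) (s2 lf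
    lf))) (s0 (s2 (s2 (s2 lf lf) (s2 lf lf)) (s2 (s0 lf lf) lf)) (s2 (s2 (s2 (s0 lf lf) lf) (s2
    lf lf)) (s2 (s0 lf lf) lf))))
    ⟨79228162514264476044048119891, 10027546045318, 79228162514264548699776483329,
    14073748835533, 79228162514264407962288127999, 70368744177665⟩ (by decide +kernel)

theorem MG_24 : Hd (QMG coA) 79228162514264471030275097232 5013773022659
    79228162514264576847274154395 14073748835533 79228162514264407962288127999 70368744177665 :=
  okMG coA (s1 (s2 (s2 (s0 (s2 lf lf) (s2 lf lf)) (s2 (s0 lf lf) lf)) (s2 (s2 lf lf) (s0 lf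
    lf))) (s0 (s2 (s2 (s1 (s2 lf lf) (s2 lf lf)) (s2 lf lf)) (s2 (s2 lf lf) (s2 lf lf))) (s2 (s2
    (s1 (s2 lf lf) (s2 lf lf)) (s2 (s0 lf lf) lf)) (s2 (s2 lf lf) (s2 lf lf)))))
    ⟨79228162514264471030275097232, 5013773022659, 79228162514264576847274154395,
    14073748835533, 79228162514264407962288127999, 70368744177665⟩ (by decide +kernel)

theorem MG_25 : Hd (QMG coA) 79228162514264481057821142550 5013773022659
    79228162514264576847274154395 14073748835533 79228162514264407962288127999 70368744177665 :=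
  okMG coA (s1 (s2 (s2 (s0 (s2 lf lf) (s2 (s0 lf lf) lf)) (s2 (s0 lf lf) lf)) (s2 (s2 lf lf) (s0
    lf lf))) (s2 (s2 (s0 (s2 (s2 lf lf) (s0 lf lf)) (s2 (s2 lf lf) (s1 lf lf))) (s2 (s1 lf (s0
    lf lf)) (s0 lf lf))) (s0 (s2 (s2 lf lf) (s2 lf lf)) (s2 (s2 lf lf) (s2 lf lf)))))
    ⟨79228162514264481057821142550, 5013773022659, 79228162514264576847274154395,
    14073748835533, 79228162514264407962288127999, 70368744177665⟩ (by decide +kernel)

theorem MG_26 : Hd (QMG coA) 79228162514264455988956029255 10027546045318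
    79228162514264562773525318862 28147497671066 79228162514264548699776483329 70368744177665 :=
  okMG coA (s1 (s1 (s2 (s2 (s0 lf lf) lf) (s2 lf lf)) (s0 (s2 (s2 lf lf) (s2 lf lf)) (s2 (s2 lf
    lf) (s2 lf lf)))) (s0 (s1 (s2 (s2 (s0 lf lf) lf) (s2 lf lf)) (s2 (s2 (s2 lf lf) (s2 lf lf))
    (s0 (s2 lf lf) (s2 lf lf)))) (s1 (s2 (s2 (s0 lf lf) lf) (s2 lf lf)) (s2 (s2 (s2 lf lf) (s2
    lf lf)) (s0 (s2 lf lf) (s2 lf lf))))))
    ⟨79228162514264455988956029255, 10027546045318, 79228162514264562773525318862,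
    28147497671066, 79228162514264548699776483329, 70368744177665⟩ (by decide +kernel)

theorem MG_27 : Hd (QMG coA) 79228162514264476044048119891 10027546045318
    79228162514264562773525318862 28147497671066 79228162514264548699776483329 70368744177665 :=
  okMG coA (s1 (s2 (s1 (s2 (s0 lf lf) lf) (s0 (s2 lf lf) (s2 lf lf))) (s2 (s1 lf (s0 lf lf)) (s0
    lf lf))) (s0 (s1 (s2 (s2 (s0 lf lf) lf) (s2 lf lf)) (s2 (s2 (s2 lf lf) (s2 lf lf)) (s0 (s2
    lf lf) (s2 lf lf)))) (s1 (s2 (s2 (s0 lf lf) lf) (s2 lf lf)) (s2 (s2 (s2 lf lf) (s2 lf lf))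
    (s0 (s2 lf lf) (s2 lf lf))))))
    ⟨79228162514264476044048119891, 10027546045318, 79228162514264562773525318862,
    28147497671066, 79228162514264548699776483329, 70368744177665⟩ (by decide +kernel)

theorem MG_28 : Hd (QMG coA) 79228162514264506126686255843 20055092090635
    79228162514264422036036963532 56294995342132 79228162514264478331032305664 140737488355329
    :=
  okMG coA (s1 (s2 (s0 (s1 (s2 (s2 lf lf) (s0 lf lf)) (s2 (s2 lf lf) lf)) (s0 (s2 (sk 0) (s2 (sk
    0) lf)) (sk 0))) (s0 (s1 (s2 lf lf) (s2 lf lf)) (s1 (s2 lf lf) (s2 lf lf)))) (s2 (s0 (s1 (s2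
    (s2 lf lf) (s0 lf lf)) (s2 (s2 (s0 lf lf) lf) (s2 lf lf))) (s1 (s0 (s2 (sk 0) lf) (sk 0))
    (s2 (s0 (s2 (sk 0) lf) (sk 0)) (s2 lf lf)))) (s0 (s1 (s2 lf lf) (s2 (s0 lf lf) lf)) (s1 (s2
    lf lf) (s2 (s0 lf lf) lf)))))
    ⟨79228162514264506126686255843, 20055092090635, 79228162514264422036036963532,
    56294995342132, 79228162514264478331032305664, 140737488355329⟩ (by decide +kernel)

theorem MG_29 : Hd (QMG coA) 79228162514264506126686255843 20055092090635
    79228162514264506478529976730 28147497671066 79228162514264407962288127999 70368744177665 :=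
  okMG coA (s0 (s1 (s2 (s2 (s2 (s0 lf lf) lf) (s0 lf lf)) (s2 (s0 lf lf) lf)) (s2 (s1 (s2 (s2 lf
    lf) (s0 lf lf)) (s0 (s2 (s0 lf lf) lf) (s2 (s2 lf lf) lf))) (s2 (s1 lf (s0 lf lf)) (s0 lf
    lf)))) (s0 (s1 (s2 (s2 (s1 (sk 0) lf) lf) (s2 lf lf)) (s2 (s2 (s1 (s0 lf lf) (s2 lf lf)) (s2
    lf lf)) (s2 (s0 lf lf) lf))) (s1 (s2 (s0 (s2 (sk 0) lf) (sk 0)) (s2 lf lf)) (s1 (s2 (s2 (sk
    0) lf) (s2 lf lf)) (s2 (s2 (s2 lf lf) (s0 lf lf)) (s2 lf lf))))))
    ⟨79228162514264506126686255843, 20055092090635, 79228162514264506478529976730,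
    28147497671066, 79228162514264407962288127999, 70368744177665⟩ (by decide +kernel)

theorem MG_30 : Hd (QMG coA) 79228162514264506126686255843 20055092090635
    79228162514264506478529976730 28147497671066 79228162514264548699776483329 70368744177665 :=
  okMG coA (s0 (s1 (s2 (s2 lf lf) (s0 lf lf)) (s2 (s0 (s2 lf lf) (s2 lf lf)) (s2 (s0 lf lf)
    lf))) (s1 (s2 (s2 lf lf) (s0 lf lf)) (s0 (s2 (s2 lf lf) (s1 lf lf)) (s2 (s2 lf lf) (s2 lf
    lf)))))
    ⟨79228162514264506126686255843, 20055092090635, 79228162514264506478529976730,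
    28147497671066, 79228162514264548699776483329, 70368744177665⟩ (by decide +kernel)

theorem MG_31 : Hd (QMG coA) 79228162514264491085367187866 5013773022659
    79228162514264548699776483329 14073748835533 79228162514264407962288127999 70368744177665 :=
  okMG coA (s1 (s2 (s2 (s2 lf lf) (s0 lf lf)) (s2 lf lf)) (s2 (s2 (s2 (s0 lf lf) lf) (s2 lf lf))
    (s2 (s0 lf lf) lf)))
    ⟨79228162514264491085367187866, 5013773022659, 79228162514264548699776483329,
    14073748835533, 79228162514264407962288127999, 70368744177665⟩ (by decide +kernel)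

theorem MG_32 : Hd (QMG coA) 79228162514264491085367187866 5013773022659
    79228162514264576847274154395 14073748835533 79228162514264407962288127999 70368744177665 :=
  okMG coA (s1 (s2 (s0 (s2 (s2 (s0 lf lf) lf) (s2 lf lf)) (s2 (s2 (s0 lf lf) lf) (s2 lf lf)))
    (s2 (s2 lf lf) (s0 lf lf))) (s2 (s2 (s2 (s2 (s1 lf (s0 lf lf)) (s0 lf lf)) (s0 (s1 lf lf)
    (s2 lf lf))) (s1 (s2 (s0 lf lf) lf) (s0 (s2 lf lf) (s2 lf lf)))) (s0 (s2 (s2 lf lf) (s2 lf
    lf)) (s2 (s2 lf lf) (s2 lf lf)))))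
    ⟨79228162514264491085367187866, 5013773022659, 79228162514264576847274154395,
    14073748835533, 79228162514264407962288127999, 70368744177665⟩ (by decide +kernel)

theorem MG_33 : Hd (QMG coA) 79228162514264501112913233184 5013773022659
    79228162514264548699776483329 14073748835533 79228162514264407962288127999 70368744177665 :=
  okMG coA (s1 (s2 (s2 (s2 lf lf) (s0 lf lf)) (s2 lf lf)) (s2 (s2 (s0 (s2 lf lf) (s2 lf lf)) (s2
    lf lf)) (s0 (s2 lf lf) (s2 lf lf))))
    ⟨79228162514264501112913233184, 5013773022659, 79228162514264548699776483329,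
    14073748835533, 79228162514264407962288127999, 70368744177665⟩ (by decide +kernel)

theorem MG_34 : Hd (QMG coA) 79228162514264501112913233184 5013773022659
    79228162514264576847274154395 14073748835533 79228162514264407962288127999 70368744177665 :=
  okMG coA (s1 (s2 (s0 (s2 (s2 (s0 lf lf) lf) (s2 lf lf)) (s2 (s1 (s2 lf lf) (s2 lf lf)) (s2 lf
    lf))) (s2 (s2 lf lf) (s2 lf lf))) (s1 (s2 (s2 (s2 (s2 (s0 lf lf) lf) (s0 lf lf)) (s2 (s0 lf
    lf) lf)) (s2 (s2 lf lf) (s0 lf lf))) (s2 (s2 (s2 (s0 (s2 lf lf) (s2 lf lf)) (s2 (s0 lf lf)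
    lf)) (s0 (s2 lf lf) (s2 lf lf))) (s2 (s2 (s0 lf lf) lf) (s2 lf lf)))))
    ⟨79228162514264501112913233184, 5013773022659, 79228162514264576847274154395,
    14073748835533, 79228162514264407962288127999, 70368744177665⟩ (by decide +kernel)

theorem MG_35 : Hd (QMG coA) 79228162514264516154232301161 10027546045318
    79228162514264548699776483329 14073748835533 79228162514264407962288127999 70368744177665 :=
  okMG coA (s0 (s1 (s2 (s2 (s2 (s0 lf lf) lf) (s2 lf lf)) (s2 (s0 lf lf) lf)) (s2 (s2 (s2 (s2 lf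
    lf) (s0 lf lf)) (s2 lf lf)) (s2 (s2 lf lf) (s0 lf lf)))) (s1 (s2 (s2 (s2 (s0 lf lf) lf) (s2
    lf lf)) (s2 (s0 lf lf) lf)) (s2 (s2 (s1 (s2 lf lf) (s2 (s0 lf lf) lf)) (s2 (s0 lf lf) lf))
    (s2 (s2 lf lf) (s0 lf lf)))))
    ⟨79228162514264516154232301161, 10027546045318, 79228162514264548699776483329,
    14073748835533, 79228162514264407962288127999, 70368744177665⟩ (by decide +kernel)

end FX.DA
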