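import Pool.Agent.H11.FX.CoAB

/-! Branch and bound data, generated. -/

set_option maxRecDepth 100000

namespace FX.DA

open H41FT H41FT.Tr

theorem PH1_3 : Hd (QPH1 coA) 79228162514264373657525341385 7916483719988
    79228162514264532036457862058 46049306189864 79228162514264499441655558963 119626865102030
    :=
  okPH1 coA (s1 (s1 (s2 (s2 (s0 (s0 lf lf) lf) lf) (s2 lf (s0 lf lf))) (s2 (s2 (s0 lf lf) lf)
    (s2 (s0 lf lf) (s2 lf (s0 lf lf))))) (s1 (s2 (s2 (s0 lf lf) lf) (s0 (s2 lf (s2 lf lf)) (s2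
    lf (s2 lf lf)))) (s0 (s2 (s2 (sk 2) lf) (s2 lf (s2 lf (s1 lf lf)))) (s1 (s2 (sk 2) (s2 lf
    (s2 lf lf))) (sk 0)))))
    ⟨79228162514264373657525341385, 7916483719988, 79228162514264532036457862058,
    46049306189864, 79228162514264499441655558963, 119626865102030⟩ (by decide +kernel)

theorem PH1_4 : Hd (QPH1 coA) 79228162514264389490492781361 7916483719988
    79228162514264532036457862058 46049306189864 79228162514264499441655558963 119626865102030
    :=
  okPH1 coA (s1 (s1 (s2 (s2 (s0 lf lf) lf) (s2 lf (s0 lf lf))) (s2 (s2 (s0 lf lf) lf) (s2 (s0 lf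
    lf) (s2 lf lf)))) (s1 (s2 (s2 (sk 2) lf) (s2 (s0 lf lf) (s2 lf (s0 lf lf)))) (s1 (s2 (sk 2)
    (s2 (sk 2) (s2 (sk 2) lf))) (sk 0))))
    ⟨79228162514264389490492781361, 7916483719988, 79228162514264532036457862058,
    46049306189864, 79228162514264499441655558963, 119626865102030⟩ (by decide +kernel)

theorem PH1_5 : Hd (QPH1 coA) 79228162514264413239943941323 15832967439975
    79228162514264532036457862058 46049306189864 79228162514264499441655558963 119626865102030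
    :=
  okPH1 coA (s1 (s1 (s2 (s0 (s2 (s0 lf lf) lf) (s2 (s1 lf (sk 2)) lf)) (s2 (s2 lf lf) (s0 (s0 lf
    lf) (s1 lf lf)))) (s0 (s2 (s2 (s0 lf (sk 2)) lf) (s2 (s0 lf lf) (s2 lf lf))) (s2 (s1 (sk 2)
    (sk 2)) (s2 (s1 lf (sk 2)) (s2 lf lf))))) (s1 (s0 (s2 (sk 2) (s2 (s0 (sk 2) (sk 2)) (s2 lf
    (s1 lf (sk 2))))) (s0 (sk 0) (sk 0))) (sk 0)))
    ⟨79228162514264413239943941323, 15832967439975, 79228162514264532036457862058,
    46049306189864, 79228162514264499441655558963, 119626865102030⟩ (by decide +kernel)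

theorem PH1_6 : Hd (QPH1 coA) 79228162514264460738846261248 31665934879950
    79228162514264532036457862058 46049306189864 79228162514264499441655558963 119626865102030
    :=
  okPH1 coA (s1 (s0 (s1 (s2 (s2 (s2 (sk 2) lf) (s0 lf (sk 2))) (s2 (s2 lf (s0 lf lf)) (s0 (s1 lf
    lf) (s1 lf lf)))) (s0 (s2 (sk 2) (s2 (sk 2) (s2 lf lf))) (s1 (s2 (sk 2) (s2 (sk 2) (sk 2)))
    (sk 0)))) (s1 (s0 (s2 (sk 2) (s2 (sk 2) (s2 lf lf))) (s1 (s2 (sk 2) (s2 (sk 2) lf)) (sk 0)))
    (sk 0))) (sk 0))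
    ⟨79228162514264460738846261248, 31665934879950, 79228162514264532036457862058,
    46049306189864, 79228162514264499441655558963, 119626865102030⟩ (by decide +kernel)

theorem PH1_7 : Hd (QPH1 coA) 79228162514264524070716021146 31665934879950
    79228162514264485987151672194 92098612379728 79228162514264499441655558963 119626865102030
    :=
  okPH1 coA (s1 (s1 (s2 (s1 (s2 (sk 1) (sk 1)) (s0 (s2 (s2 (s0 lf lf) lf) (s0 lf lf)) (s2 (s2
    (s0 lf lf) lf) (s1 lf lf)))) (s1 (sk 1) (s1 (s2 (s0 (sk 1) lf) (sk 1)) (s0 (s2 lf lf) (s2 lf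
    lf))))) (s2 (s1 (s1 (s2 (s2 (s0 lf (sk 2)) lf) (s0 lf lf)) (s2 (s2 (sk 2) lf) (s0 lf (sk
    2)))) (s0 (s2 (sk 2) (sk 2)) (s0 (sk 2) (sk 2)))) (s0 (s1 (s1 (s2 lf lf) (s2 lf lf)) (s1 (s2
    lf (s0 lf lf)) (s2 (sk 2) (s0 lf (sk 2))))) (s1 (s2 (s1 lf lf) (s2 lf lf)) (s2 (sk 2) (s1
    (s0 lf (sk 2)) (sk 2))))))) (s0 (s1 (s0 (s1 (s2 (sk 2) (s2 (sk 2) (sk 2))) (sk 0)) (sk 0))
    (sk 0)) (sk 0)))
    ⟨79228162514264524070716021146, 31665934879950, 79228162514264485987151672194,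
    92098612379728, 79228162514264499441655558963, 119626865102030⟩ (by decide +kernel)

theorem PH1_8 : Hd (QPH1 coA) 79228162514264587402585781046 31665934879950
    79228162514264485987151672194 92098612379728 79228162514264499441655558963 119626865102030
    :=
  okPH1 coA (s1 (s1 (s2 (s1 (s1 (sk 1) (s1 (sk 1) (s2 (s0 lf lf) lf))) (s1 (s2 (s2 (s0 lf lf)
    lf) (s0 lf lf)) (s0 (s2 (s0 lf (sk 2)) lf) (s2 (sk 2) (sk 2))))) (s1 (s2 (sk 1) (sk 1)) (s1
    (s1 (s2 lf (sk 1)) (s2 lf lf)) (s0 (s2 lf lf) (s2 lf lf))))) (s2 (s1 (s1 (s2 (sk 2) (sk 2))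
    (sk 2)) (s1 (sk 2) (sk 0))) (s1 (s1 (s2 (s0 lf (sk 2)) (s2 lf lf)) (s2 (sk 2) (s0 (s0 lf (sk
    2)) (sk 2)))) (s0 (s2 (sk 2) (sk 2)) (sk 0))))) (sk 0))
    ⟨79228162514264587402585781046, 31665934879950, 79228162514264485987151672194,
    92098612379728, 79228162514264499441655558963, 119626865102030⟩ (by decide +kernel)

theorem PH2_0 : Hd (QPH2 coA) 79228162514264381574009061373 15832967439975
    79228162514264485987151672194 92098612379728 79228162514264499441655558963 119626865102030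
    :=
  okPH2 coA (s1 (s1 (sk 1) (s2 (sk 1) (sk 1))) (s1 (s1 (s2 (s0 (sk 1) (s0 (sk 1) (s2 lf lf)))
    (sk 1)) (s0 (s1 (s2 (sk 1) (sk 1)) (s2 (s2 lf lf) (s2 (sk 1) (sk 1)))) (s1 (s2 (s2 lf lf)
    (s2 lf (sk 1))) (s2 (s2 lf lf) (s2 lf (s2 lf (sk 1))))))) (s0 (s1 (s2 (s0 (s2 lf lf) (s2 lf
    lf)) (s2 (s2 lf (s0 lf lf)) (s0 (s0 (sk 1) (s2 lf (sk 1))) (s2 lf (s1 (sk 1) lf))))) (s1 (s2
    (s2 (s0 lf lf) lf) (s2 (s0 lf lf) (s2 lf (s0 lf lf)))) (s0 (s2 (s2 lf lf) (s2 lf (s2 lf (s0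
    lf lf)))) (sk 0)))) (s1 (s1 (s2 (s2 lf lf) (s2 lf (s2 lf lf))) (s2 (s2 lf lf) (s2 lf (s2 lf
    lf)))) (s0 (s1 (s2 (s2 lf lf) (s2 lf (s2 lf lf))) (sk 0)) (sk 0))))))
    ⟨79228162514264381574009061373, 15832967439975, 79228162514264485987151672194,
    92098612379728, 79228162514264499441655558963, 119626865102030⟩ (by decide +kernel)

theorem PH2_1 : Hd (QPH2 coA) 79228162514264413239943941323 15832967439975
    79228162514264485987151672194 92098612379728 79228162514264499441655558963 119626865102030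
    :=
  okPH2 coA (s1 (s1 (sk 1) (s1 (s2 (sk 1) (sk 1)) (s2 (s0 (sk 1) (s1 (sk 1) (s2 lf lf))) (s2 (sk
    1) (sk 1))))) (s1 (s0 (s1 (s2 (s2 (s0 lf lf) lf) (s1 (sk 1) (s2 lf (sk 1)))) (s2 (s0 (s2 lf
    lf) (s2 lf lf)) (s2 (s0 lf lf) (s2 lf (s0 lf lf))))) (s1 (s2 (s2 (s0 lf lf) lf) (s2 (s0 lf
    lf) (s2 lf lf))) (s2 (s1 (s2 lf lf) (s2 lf lf)) (s2 (s1 lf lf) (s2 lf (s0 lf lf)))))) (s1
    (s0 (s1 (s2 (s2 lf lf) (s2 lf (s2 lf lf))) (s0 (s2 (s0 (sk 0) (sk 0)) (s0 (sk 0) (sk 0)))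
    (sk 0))) (s0 (sk 0) (sk 0))) (sk 0))))
    ⟨79228162514264413239943941323, 15832967439975, 79228162514264485987151672194,
    92098612379728, 79228162514264499441655558963, 119626865102030⟩ (by decide +kernel)

theorem PH2_2 : Hd (QPH2 coA) 79228162514264460738846261248 31665934879950
    79228162514264439937845482330 46049306189864 79228162514264499441655558963 119626865102030
    :=
  okPH2 coA (s1 (s2 (s1 (sk 1) (sk 1)) (sk 1)) (s0 (s1 (s2 (s1 (sk 1) (s2 lf lf)) (sk 1)) (s2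
    (s2 (s2 (s0 lf lf) lf) (s0 lf lf)) (s2 (s2 lf lf) (s0 (sk 1) (s1 (sk 1) lf))))) (s1 (s1 (s2
    (s2 lf lf) (sk 1)) (s2 (s2 (s0 lf lf) lf) (s2 lf (sk 1)))) (s2 (s1 (s2 (s0 lf lf) lf) (s2
    (s0 lf lf) lf)) (s2 (s2 lf lf) (s0 (s1 lf lf) (s1 lf lf)))))))
    ⟨79228162514264460738846261248, 31665934879950, 79228162514264439937845482330,
    46049306189864, 79228162514264499441655558963, 119626865102030⟩ (by decide +kernel)

theorem PH2_3 : Hd (QPH2 coA) 79228162514264460738846261248 31665934879950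
    79228162514264532036457862058 46049306189864 79228162514264499441655558963 119626865102030
    :=
  okPH2 coA (s1 (s0 (s1 (s1 (s2 (s2 (s0 lf lf) lf) (s0 (s2 lf lf) (s2 lf lf))) (s2 (s0 (s2 lf
    lf) (s2 lf lf)) (s2 (s0 lf lf) (s2 lf lf)))) (s0 (s2 (s1 (s2 lf lf) (s2 lf lf)) (s2 (s1 lf
    lf) (s2 lf lf))) (s0 (s1 (s2 (s2 lf lf) (s2 lf lf)) (sk 0)) (sk 0)))) (s1 (s2 (s1 (s2 (s0 lf
    lf) lf) (s0 (s2 lf lf) (sk 0))) (s0 (s2 (s1 lf lf) (s2 lf lf)) (s1 (s2 lf lf) (sk 0)))) (sk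
    0))) (sk 0))
    ⟨79228162514264460738846261248, 31665934879950, 79228162514264532036457862058,
    46049306189864, 79228162514264499441655558963, 119626865102030⟩ (by decide +kernel)

theorem PH2_4 : Hd (QPH2 coA) 79228162514264524070716021146 31665934879950
    79228162514264439937845482330 46049306189864 79228162514264499441655558963 119626865102030
    :=
  okPH2 coA (s1 (s2 (s1 (sk 1) (s1 (s0 (sk 1) (s2 lf (sk 1))) (s2 (s2 lf lf) (s0 lf lf)))) (s1
    (sk 1) (s1 (sk 1) (s0 (sk 1) (s2 lf (sk 1)))))) (s0 (s1 (s2 (s2 (s2 (s0 lf lf) lf) (s1 lf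
    lf)) (s2 (s1 lf lf) (s2 lf lf))) (s1 (s2 (s2 (s0 lf lf) lf) (s2 lf (s0 lf lf))) (s2 (s2 (s0
    lf lf) lf) (s0 (s2 lf lf) (s2 lf lf))))) (s2 (s1 (s1 (s2 (s0 lf lf) lf) (s2 (s0 lf lf) lf))
    (s1 (s2 (s0 lf lf) lf) (s0 (s2 lf lf) (sk 0)))) (s1 (s2 (s1 lf lf) (s2 lf lf)) (s0 (s1 (s2
    lf lf) (s2 lf lf)) (s1 (s2 lf lf) (sk 0)))))))
    ⟨79228162514264524070716021146, 31665934879950, 79228162514264439937845482330,
    46049306189864, 79228162514264499441655558963, 119626865102030⟩ (by decide +kernel)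

theorem PH2_5 : Hd (QPH2 coA) 79228162514264524070716021146 31665934879950
    79228162514264532036457862058 46049306189864 79228162514264499441655558963 119626865102030
    :=
  okPH2 coA (s0 (s1 (s0 (s1 (s1 (s2 (s2 lf lf) (s2 lf lf)) (sk 0)) (sk 0)) (sk 0)) (sk 0)) (sk
    0))
    ⟨79228162514264524070716021146, 31665934879950, 79228162514264532036457862058,
    46049306189864, 79228162514264499441655558963, 119626865102030⟩ (by decide +kernel)

theorem PH2_6 : Hd (QPH2 coA) 79228162514264587402585781046 31665934879950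
    79228162514264485987151672194 92098612379728 79228162514264499441655558963 119626865102030
    :=
  okPH2 coA (s1 (s1 (s2 (s1 (s1 (sk 1) (s0 (sk 1) (s1 (sk 1) (s2 lf lf)))) (s1 (s2 (s2 lf lf)
    (s0 lf lf)) (s2 (s2 (s0 lf lf) lf) (s0 lf lf)))) (s1 (s2 (sk 1) (sk 1)) (s0 (s1 (s2 lf (sk
    1)) (s2 lf lf)) (s1 (s2 lf lf) (s2 lf lf))))) (s2 (s1 (s1 (s2 (s2 (s0 lf lf) lf) (s0 lf lf))
    (s2 (s0 (s0 lf lf) (s0 lf lf)) (s2 lf lf))) (s0 (s1 (s0 (s2 lf lf) (s2 lf lf)) (sk 0)) (sk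
    0))) (s1 (s1 (s2 (s0 lf lf) (s2 lf lf)) (s2 (s2 lf (s0 lf lf)) (s0 (s0 lf lf) (s1 lf lf))))
    (s0 (s1 (s1 (s2 lf lf) (s2 lf lf)) (sk 0)) (sk 0))))) (sk 0))
    ⟨79228162514264587402585781046, 31665934879950, 79228162514264485987151672194,
    92098612379728, 79228162514264499441655558963, 119626865102030⟩ (by decide +kernel)

theorem ZA_0 : Hd (QZA coA) 79228162514264351667292785869 14073748835534
    79228162514264351667292785869 14073748835534 79228162514264478331032305664 140737488355329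
    :=
  okZA coA lf
    ⟨79228162514264351667292785869, 14073748835534, 79228162514264351667292785869,
    14073748835534, 79228162514264478331032305664, 140737488355329⟩ (by decide +kernel)

theorem ZB_0 : Hd (QZB coA) 79228162514264492404781141197 126663739519797
    79228162514264351667292785869 14073748835534 79228162514264478331032305664 140737488355329
    :=
  okZB coA (s0 (s0 (s0 lf lf) (s0 lf lf)) (s0 (s1 lf (s0 lf lf)) (s1 (s2 lf lf) (s2 lf (s0 lf
    lf)))))
    ⟨79228162514264492404781141197, 126663739519797, 79228162514264351667292785869,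
    14073748835534, 79228162514264478331032305664, 140737488355329⟩ (by decide +kernel)

theorem ZC0_0 : Hd (QZC0 coA) 79228162514264351667292785869 14073748835534
    79228162514264409974834211481 44233792590081 79228162514264478331032305664 140737488355329
    :=
  okZC0 coA (s1 lf lf)
    ⟨79228162514264351667292785869, 14073748835534, 79228162514264409974834211481,
    44233792590081, 79228162514264478331032305664, 140737488355329⟩ (by decide +kernel)

theorem ZC1_0 : Hd (QZC1 coA) 79228162514264351667292785869 14073748835534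
    79228162514264480793938351881 41869402785711 79228162514264478331032305664 140737488355329
    :=
  okZC1 coA (s1 lf (s1 lf lf))
    ⟨79228162514264351667292785869, 14073748835534, 79228162514264480793938351881,
    41869402785711, 79228162514264478331032305664, 140737488355329⟩ (by decide +kernel)

theorem ZC1_1 : Hd (QZC1 coA) 79228162514264351667292785869 14073748835534
    79228162514264564532743923303 41869402785711 79228162514264478331032305664 140737488355329
    :=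
  okZC1 coA (s0 (s1 (s1 lf lf) (s1 (s0 lf lf) (s1 lf (s0 lf lf)))) (s1 (s1 lf lf) (s1 (s0 lf lf)
    (s1 lf (s0 lf lf)))))
    ⟨79228162514264351667292785869, 14073748835534, 79228162514264564532743923303,
    41869402785711, 79228162514264478331032305664, 140737488355329⟩ (by decide +kernel)

end FX.DA
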