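import Pool.Agent.H11.FX.CoAB

/-! Branch and bound data, generated. -/

set_option maxRecDepth 100000

namespace FX.DA

open H41FT H41FT.Tr

theorem ZD0_0 : Hd (QZD0 coA) 79228162514264429072911381298 63331869759899
    79228162514264409974834211481 44233792590081 79228162514264478331032305664 140737488355329
    :=
  okZD0 coA (s0 (s0 (s0 (s1 lf lf) (s1 lf lf)) (s1 (s0 lf lf) (s1 lf lf))) (s0 (s1 (s1 lf lf)
    (s1 lf lf)) (s1 (s1 lf lf) (s1 lf (s0 lf lf)))))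
    ⟨79228162514264429072911381298, 63331869759899, 79228162514264409974834211481,
    44233792590081, 79228162514264478331032305664, 140737488355329⟩ (by decide +kernel)

theorem ZD0_1 : Hd (QZD0 coA) 79228162514264555736650901096 63331869759899
    79228162514264409974834211481 44233792590081 79228162514264478331032305664 140737488355329
    :=
  okZD0 coA (s0 (s1 (s1 (s2 lf lf) (s0 lf (s0 lf lf))) (s0 (s1 (s0 lf lf) (s2 lf lf)) (s1 (s2 lf
    lf) (s1 (s2 lf lf) (s2 lf lf))))) (s1 (s0 (s1 (s1 lf lf) (s2 lf lf)) (s1 (s2 lf lf) (s2 lf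
    (s0 lf lf)))) (s1 (s1 (s2 (s0 lf lf) (s2 lf lf)) (s0 (s2 lf lf) (s2 lf (s2 lf lf)))) (s0 (s1
    (s2 lf (s0 lf lf)) (s2 lf (s2 lf lf))) (s1 (s2 (s0 lf lf) (s2 lf (s0 lf lf))) (s1 (s2 lf (s2
    lf lf)) (s2 (sk 0) (s2 lf (s0 lf lf)))))))))
    ⟨79228162514264555736650901096, 63331869759899, 79228162514264409974834211481,
    44233792590081, 79228162514264478331032305664, 140737488355329⟩ (by decide +kernel)

theorem ZD1_0 : Hd (QZD1 coA) 79228162514264429072911381298 63331869759899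
    79228162514264500145343000740 106256803708274 79228162514264478331032305664 140737488355329
    :=
  okZD1 coA (s0 (s1 (s1 (sk 0) (s0 (s0 (s1 lf lf) (s1 lf lf)) (s0 (s1 lf lf) (s1 lf lf)))) (s0
    (s1 (s0 (s0 (s1 lf lf) (s1 lf lf)) (s1 (s0 lf lf) (s1 lf lf))) (s1 (s0 (s0 (s1 lf lf) (s1 lf
    lf)) (s1 lf (sk 1))) (sk 1))) (s0 (s1 (s1 (s0 lf lf) (s1 lf lf)) (sk 1)) (s1 (s1 (s0 lf lf)
    (s1 lf (sk 1))) (sk 1))))) (s1 (s1 (s1 (sk 0) (s0 (sk 0) (s0 (sk 0) lf))) (s0 (s0 (s1 lf (s0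
    lf lf)) (s1 lf (s1 lf lf))) (s1 (s1 lf (s0 lf lf)) (s1 (s0 lf lf) (s2 lf lf))))) (s0 (s1 (s1
    (s0 (s1 lf lf) (s1 lf (sk 1))) (sk 1)) (sk 1)) (s1 (s1 (s0 (s1 lf (sk 1)) (sk 1)) (sk 1))
    (sk 1)))))
    ⟨79228162514264429072911381298, 63331869759899, 79228162514264500145343000740,
    106256803708274, 79228162514264478331032305664, 140737488355329⟩ (by decide +kernel)

theorem ZD1_1 : Hd (QZD1 coA) 79228162514264555736650901096 63331869759899
    79228162514264500145343000740 106256803708274 79228162514264478331032305664 140737488355329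
    :=
  okZD1 coA (s0 (s1 (s1 (s1 (sk 0) (s1 (sk 0) (s2 (s1 (sk 0) lf) (s0 (sk 0) lf)))) (s0 (s1 (s1
    (s2 lf lf) (s2 lf lf)) (s1 (s2 lf (s0 lf lf)) (s0 (s1 lf (sk 1)) (sk 1)))) (s1 (s1 (s2 lf
    (s0 lf lf)) (s2 lf (s0 lf lf))) (s1 (s0 (s2 (sk 1) lf) (s0 (s2 (sk 1) lf) (sk 1))) (sk
    1))))) (s1 (s1 (s0 (sk 1) (sk 1)) (sk 1)) (sk 1))) (s1 (s1 (s1 (sk 0) (s1 (s0 (sk 0) (s2 (sk
    0) (sk 0))) (s2 (s0 lf (s0 lf lf)) (s1 (sk 0) (s2 (s0 lf lf) (sk 0)))))) (s0 (s1 (s1 (s2 (s0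
    lf lf) (s2 lf (s0 lf lf))) (s1 (s2 lf (s2 lf lf)) (s2 (sk 1) (s0 lf (sk 1))))) (s2 (sk 1)
    (sk 1))) (s1 (s1 (s1 (s2 lf (s2 lf (s0 lf lf))) (s2 (sk 1) (s2 lf (s0 lf (s0 lf lf))))) (s1
    (s2 (sk 1) (s0 (s2 (sk 1) lf) (sk 1))) (sk 1))) (sk 1)))) (s1 (s0 (sk 1) (sk 1)) (sk 1))))
    ⟨79228162514264555736650901096, 63331869759899, 79228162514264500145343000740,
    106256803708274, 79228162514264478331032305664, 140737488355329⟩ (by decide +kernel)

theorem ZD2_0 : Hd (QZD2 coA) 79228162514264429072911381298 63331869759899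
    79228162514264500145343000740 106256803708274 79228162514264478331032305664 140737488355329
    :=
  okZD2 coA (s1 (s1 (sk 0) (s0 (sk 0) (s1 (sk 0) (s0 (s0 (sk 0) (s1 (sk 0) lf)) (s1 (s2 lf lf)
    (s0 lf (s0 lf lf))))))) (s0 (s0 (s1 (s0 (sk 0) (s1 (sk 0) (s1 (sk 0) lf))) (s1 (s0 (s0 (s1
    lf lf) (s1 lf (sk 1))) (s0 (s1 lf (sk 1)) (sk 1))) (sk 1))) (s1 (s1 (s1 (sk 0) (s0 (sk 0)
    lf)) (s0 (s1 lf lf) (s1 lf (sk 1)))) (sk 1))) (s1 (s1 (s0 (s0 (s1 lf lf) (s1 lf (sk 1))) (s0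
    (s1 (s0 lf (sk 1)) (sk 1)) (sk 1))) (sk 1)) (sk 1))))
    ⟨79228162514264429072911381298, 63331869759899, 79228162514264500145343000740,
    106256803708274, 79228162514264478331032305664, 140737488355329⟩ (by decide +kernel)

theorem ZD2_1 : Hd (QZD2 coA) 79228162514264555736650901096 63331869759899
    79228162514264500145343000740 106256803708274 79228162514264478331032305664 140737488355329
    :=
  okZD2 coA (s1 (s0 (s1 (s1 (sk 0) (sk 0)) (s0 (s1 (s1 (sk 0) (s2 lf (s0 (sk 0) lf))) (s1 (s2 lf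
    (s0 lf lf)) (s0 (s1 lf (sk 1)) (sk 1)))) (s1 (s1 (s2 lf (s0 (sk 0) (sk 0))) (s2 lf (s0 lf
    lf))) (s1 (s1 (s2 lf (s0 lf lf)) (sk 1)) (sk 1))))) (s1 (s1 (sk 0) (s0 (s1 (sk 0) (s2 lf (sk
    0))) (s1 (s2 (sk 0) (sk 0)) (s1 (s2 lf (sk 0)) (s2 lf (s2 lf (sk 0))))))) (s1 (s0 (s1 (s2
    (s0 lf lf) (s2 lf (s1 (sk 0) lf))) (s1 (s2 lf (s2 lf lf)) (s0 (s2 lf lf) (sk 1)))) (s1 (s2
    (s2 lf lf) (s0 (s2 lf (s0 lf lf)) (s2 lf (s1 lf (s0 lf lf))))) (s0 (s0 (s2 lf (s1 lf (sk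
    1))) (sk 1)) (sk 1)))) (sk 1)))) (s1 (sk 1) (s0 (sk 1) (sk 1))))
    ⟨79228162514264555736650901096, 63331869759899, 79228162514264500145343000740,
    106256803708274, 79228162514264478331032305664, 140737488355329⟩ (by decide +kernel)

theorem ZD3_0 : Hd (QZD3 coA) 79228162514264397406976501348 31665934879950
    79228162514264528292840671805 78109306037209 79228162514264478331032305664 140737488355329
    :=
  okZD3 coA (s1 (s0 (sk 0) (s0 (sk 0) (s1 (sk 0) (s1 (sk 0) (s1 (sk 0) lf))))) (s0 (s0 (s1 (s1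
    (sk 0) (s1 (sk 0) lf)) (s0 (s1 (s0 lf lf) (s1 lf (s0 lf lf))) (s1 (s0 lf lf) (s1 lf lf))))
    (s1 (s0 (s1 (sk 0) lf) (s1 lf lf)) (s1 (s1 lf lf) (s0 (s1 lf lf) (s1 lf lf))))) (s0 (s1 (s0
    (s1 lf lf) (s1 lf lf)) (s1 (s1 lf lf) (s0 (s1 lf lf) (s1 lf lf)))) (s1 (s0 (s1 lf lf) (s1 lf
    lf)) (s1 (s1 lf lf) (s1 lf (s0 lf lf)))))))
    ⟨79228162514264397406976501348, 31665934879950, 79228162514264528292840671805,
    78109306037209, 79228162514264478331032305664, 140737488355329⟩ (by decide +kernel)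

theorem ZD3_1 : Hd (QZD3 coA) 79228162514264460738846261248 31665934879950
    79228162514264528292840671805 78109306037209 79228162514264478331032305664 140737488355329
    :=
  okZD3 coA (s1 (s1 (sk 0) (s0 (s0 (s1 (sk 0) (s0 lf lf)) (s1 (s1 (sk 0) lf) (s0 lf lf))) (s0
    (s1 (s1 lf lf) (s1 lf lf)) (s1 (s1 lf lf) (s1 lf lf))))) (s0 (s0 (s1 (s0 (s1 lf lf) (s1 lf
    lf)) (s1 (s1 lf lf) (s1 lf (s0 lf lf)))) (s1 (s1 (s0 lf lf) (s1 lf lf)) (s1 (s1 lf lf) (s1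
    lf (s0 lf lf))))) (s0 (s1 (s1 (s1 lf lf) (s1 lf lf)) (s1 (s1 lf lf) (s1 lf (s0 lf lf)))) (s1
    (s1 (s1 lf lf) (s1 lf lf)) (s1 (s1 lf lf) (s0 (s1 lf lf) (s1 lf lf)))))))
    ⟨79228162514264460738846261248, 31665934879950, 79228162514264528292840671805,
    78109306037209, 79228162514264478331032305664, 140737488355329⟩ (by decide +kernel)

theorem ZD3_2 : Hd (QZD3 coA) 79228162514264524070716021146 31665934879950
    79228162514264489238187653200 39054653018605 79228162514264478331032305664 140737488355329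
    :=
  okZD3 coA (s0 (s1 (s1 (sk 0) (s1 (s2 lf lf) (s2 lf lf))) (s0 (s1 (s2 lf lf) (s1 lf lf)) (s1
    (s2 lf (s0 lf lf)) (s2 lf (s0 lf lf))))) (s1 (s0 (s1 (sk 0) (s2 lf (s0 lf lf))) (s1 (s1 (sk
    0) (s2 lf lf)) (s2 lf (s1 lf lf)))) (s1 (s1 (s2 lf (s0 lf lf)) (s2 lf (s0 lf lf))) (s1 (s2
    lf (s0 lf lf)) (s2 lf (s0 lf lf))))))
    ⟨79228162514264524070716021146, 31665934879950, 79228162514264489238187653200,
    39054653018605, 79228162514264478331032305664, 140737488355329⟩ (by decide +kernel)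

theorem ZD3_3 : Hd (QZD3 coA) 79228162514264508237748581171 15832967439975
    79228162514264567347493690410 39054653018605 79228162514264478331032305664 140737488355329
    :=
  okZD3 coA (s0 (s1 (s1 (s1 lf lf) (s1 lf lf)) (s1 (s1 lf lf) (s1 (s0 lf lf) (s1 lf lf)))) (s1
    (s1 (s1 (s0 lf lf) lf) (s1 lf lf)) (s1 (s0 (s1 lf lf) (s1 lf lf)) (s1 (s0 lf lf) (s1 lf
    lf)))))
    ⟨79228162514264508237748581171, 15832967439975, 79228162514264567347493690410,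
    39054653018605, 79228162514264478331032305664, 140737488355329⟩ (by decide +kernel)

theorem ZD3_4 : Hd (QZD3 coA) 79228162514264539903683461121 15832967439975
    79228162514264567347493690410 39054653018605 79228162514264478331032305664 140737488355329
    :=
  okZD3 coA (s1 (s1 (s1 (s2 lf (s0 lf lf)) (s2 lf (s0 lf lf))) (s0 (s0 (s1 lf lf) (s1 lf lf))
    (s1 (s1 lf lf) (s1 lf lf)))) (s0 (s1 (s0 (s1 lf lf) (s1 lf lf)) (s1 (s1 lf lf) (s1 lf lf)))
    (s1 (s1 (s1 lf lf) (s1 lf lf)) (s1 (s1 lf lf) (s1 lf (s0 lf lf))))))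
    ⟨79228162514264539903683461121, 15832967439975, 79228162514264567347493690410,
    39054653018605, 79228162514264478331032305664, 140737488355329⟩ (by decide +kernel)

theorem ZD3_5 : Hd (QZD3 coA) 79228162514264587402585781046 31665934879950
    79228162514264469710861143897 19527326509303 79228162514264478331032305664 140737488355329
    :=
  okZD3 coA (s0 (s1 (s1 (sk 0) (s2 lf (s0 lf (s0 lf lf)))) (s2 (s1 lf (s0 lf lf)) (s0 (s1 lf lf)
    (s2 lf (s1 lf lf))))) (s0 (s1 (s1 (s2 lf (s2 lf lf)) (s2 lf (s2 lf lf))) (s1 (s2 lf (s2 lf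
    lf)) (s2 lf (s2 lf lf)))) (s1 (s1 (s2 lf (s2 lf (s0 lf lf))) (s2 lf (s2 lf (s0 lf lf)))) (s1
    (s2 lf (s2 lf (s0 lf lf))) (s2 lf (s2 lf (s0 lf lf)))))))
    ⟨79228162514264587402585781046, 31665934879950, 79228162514264469710861143897,
    19527326509303, 79228162514264478331032305664, 140737488355329⟩ (by decide +kernel)

theorem ZD3_6 : Hd (QZD3 coA) 79228162514264587402585781046 31665934879950
    79228162514264508765514162503 19527326509303 79228162514264478331032305664 140737488355329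
    :=
  okZD3 coA (s0 (s0 (s1 (s1 (s2 lf lf) (s2 lf lf)) (s1 (s2 lf lf) (s2 lf lf))) (s1 (s2 (s1 lf
    lf) (s2 lf (s1 lf lf))) (s1 (s2 lf lf) (s2 lf lf)))) (s0 (s1 (s1 (s2 lf (s2 lf lf)) (s2 lf
    (s1 lf lf))) (s1 (s2 lf (s0 lf lf)) (s2 lf (s0 lf lf)))) (s1 (s1 (s2 lf (s2 lf (s0 lf lf)))
    (s2 lf (s2 lf lf))) (s1 (s2 lf (s2 lf lf)) (s2 lf (s1 lf lf))))))
    ⟨79228162514264587402585781046, 31665934879950, 79228162514264508765514162503,
    19527326509303, 79228162514264478331032305664, 140737488355329⟩ (by decide +kernel)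

end FX.DA
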