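import Pool.Agent.H11.FX.CoAB

/-! Branch and bound data, generated. -/

set_option maxRecDepth 100000

namespace FX.DA

open H41FT H41FT.Tr

theorem E1_7 : Hd (QE1 coA) 79228162514264500145343000741 20406935811523
    79228162514264351667292785869 14073748835534 79228162514264478331032305664 140737488355329
    :=
  okE1 coA (s0 (s2 (s2 (s0 (s1 lf lf) (s1 (s0 lf lf) lf)) lf) lf) (s2 (s2 (s1 (s2 (s0 lf lf) lf)
    (s0 lf lf)) lf) lf))
    ⟨79228162514264500145343000741, 20406935811523, 79228162514264351667292785869,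
    14073748835534, 79228162514264478331032305664, 140737488355329⟩ (by decide +kernel)

theorem R2a_0 : Hd (QR2a coA) 79228162514264377703728131603 20406935811523
    79228162514264507182217418505 37295434414163 79228162514264379814790456934 42221246506600 :=
  okR2a coA (sk 1)
    ⟨79228162514264377703728131603, 20406935811523, 79228162514264507182217418505,
    37295434414163, 79228162514264379814790456934, 42221246506600⟩ (by decide +kernel)

theorem R2a_1 : Hd (QR2a coA) 79228162514264367500260225841 10203467905762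
    79228162514264581773086246831 37295434414163 79228162514264379814790456934 42221246506600 :=
  okR2a coA (s0 (s1 (sk 1) (s1 (s0 (s1 (sk 1) (s0 (s1 (sk 1) lf) (s2 lf lf))) (s1 (s0 (sk 1) (s1
    (sk 1) lf)) lf)) (s2 (sk 0) lf))) (s1 (s0 (sk 1) (s1 (sk 1) (s1 (sk 1) (s1 (sk 1) (s0 lf
    lf))))) (s1 (s0 (s1 (s2 lf lf) lf) lf) (sk 0))))
    ⟨79228162514264367500260225841, 10203467905762, 79228162514264581773086246831,
    37295434414163, 79228162514264379814790456934, 42221246506600⟩ (by decide +kernel)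

theorem R2a_2 : Hd (QR2a coA) 79228162514264387907196037365 10203467905762
    79228162514264581773086246831 37295434414163 79228162514264379814790456934 42221246506600 :=
  okR2a coA (s1 (s1 (s0 (sk 1) (s0 (sk 1) (s1 (sk 1) (s1 (sk 1) lf)))) (s2 lf (s0 (s1 (s0 (sk 1)
    lf) lf) lf))) (s1 (s2 (sk 0) lf) (sk 0)))
    ⟨79228162514264387907196037365, 10203467905762, 79228162514264581773086246831,
    37295434414163, 79228162514264379814790456934, 42221246506600⟩ (by decide +kernel)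

theorem R2a_3 : Hd (QR2a coA) 79228162514264418517599754649 20406935811523
    79228162514264544477651832668 74590868828325 79228162514264379814790456934 42221246506600 :=
  okR2a coA (s1 (s1 (sk 1) (s0 (s0 (sk 1) (s1 (sk 1) (s1 (sk 1) (s2 lf lf)))) (s0 (s1 (sk 1) (s2
    lf lf)) (s2 lf (s1 (s1 (sk 1) lf) lf))))) (s1 (s0 (s1 (s2 lf (s0 (s0 lf lf) lf)) (s2 (sk 0)
    lf)) (s1 (s2 (sk 0) lf) (sk 0))) (sk 0)))
    ⟨79228162514264418517599754649, 20406935811523, 79228162514264544477651832668,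
    74590868828325, 79228162514264379814790456934, 42221246506600⟩ (by decide +kernel)

theorem R2a_4 : Hd (QR2a coA) 79228162514264479738407189218 40813871623046
    79228162514264544477651832668 74590868828325 79228162514264379814790456934 42221246506600 :=
  okR2a coA (s1 (s0 (s0 (s1 (s0 (sk 1) (s1 (sk 1) (s2 lf lf))) (s2 lf (s1 (s0 lf lf) lf))) (s1
    (s0 (s2 lf (s1 (s0 (sk 1) lf) lf)) (s2 lf (s1 lf lf))) (s1 (s2 (sk 0) lf) (sk 0)))) (s1 (s0
    (s1 (s2 lf lf) (s2 (sk 0) (sk 0))) (s0 (sk 0) (sk 0))) (sk 0))) (sk 0))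
    ⟨79228162514264479738407189218, 40813871623046, 79228162514264544477651832668,
    74590868828325, 79228162514264379814790456934, 42221246506600⟩ (by decide +kernel)

theorem R2b_0 : Hd (QR2b coA) 79228162514264377703728131603 20406935811523
    79228162514264507182217418505 37295434414163 79228162514264520552278812262 98516241848731 :=
  okR2b coA (sk 1)
    ⟨79228162514264377703728131603, 20406935811523, 79228162514264507182217418505,
    37295434414163, 79228162514264520552278812262, 98516241848731⟩ (by decide +kernel)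

theorem R2b_1 : Hd (QR2b coA) 79228162514264367500260225841 10203467905762
    79228162514264563125369039749 18647717207082 79228162514264520552278812262 98516241848731 :=
  okR2b coA (s0 (sk 1) (s0 (sk 1) (s1 (sk 1) (s1 (sk 1) (s1 (sk 1) (s2 lf (s2 lf lf)))))))
    ⟨79228162514264367500260225841, 10203467905762, 79228162514264563125369039749,
    18647717207082, 79228162514264520552278812262, 98516241848731⟩ (by decide +kernel)

theorem R2b_2 : Hd (QR2b coA) 79228162514264367500260225841 10203467905762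
    79228162514264586435015548601 4661929301771 79228162514264520552278812262 98516241848731 :=
  okR2b coA (s2 (s0 (s2 lf lf) (s0 (s1 lf (s2 (s0 lf (s0 lf (s0 lf (s1 lf (s1 lf (s2 (s2 (sk 0)
    lf) lf)))))) lf)) (s2 (s1 lf (s0 (s2 (s1 lf (s0 (s1 lf (s2 (sk 0) lf)) (s1 (s2 (sk 0) lf)
    (sk 0)))) lf) (s1 (s2 (s0 (s1 lf (s2 (sk 0) lf)) (s1 (s2 (sk 0) lf) (sk 0))) lf) (s2 (sk 0)
    (s2 (s0 (s1 lf (sk 0)) (sk 0)) lf))))) lf))) (s2 (s0 lf lf) (s2 lf (s0 (s0 (sk 1) lf) lf))))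
    ⟨79228162514264367500260225841, 10203467905762, 79228162514264586435015548601,
    4661929301771, 79228162514264520552278812262, 98516241848731⟩ (by decide +kernel)

theorem R2b_3 : Hd (QR2b coA) 79228162514264359847659296519 2550866976441
    79228162514264595758874152143 4661929301771 79228162514264471294157887896 49258120924366 :=
  okR2b coA (s2 (s0 lf (s1 lf (s1 lf (s2 (s0 (s0 lf (s1 lf (s1 lf (s2 (sk 0) lf)))) (s0 (s1 lf
    (s1 (s2 (sk 0) lf) (sk 0))) (s1 (s1 lf (s2 (sk 0) lf)) (sk 0)))) lf)))) lf)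
    ⟨79228162514264359847659296519, 2550866976441, 79228162514264595758874152143, 4661929301771,
    79228162514264471294157887896, 49258120924366⟩ (by decide +kernel)

theorem R2b_4 : Hd (QR2b coA) 79228162514264364949393249401 2550866976441
    79228162514264595758874152143 4661929301771 79228162514264471294157887896 49258120924366 :=
  okR2b coA (s0 (s2 (s1 lf (s1 (s2 (s1 lf (s0 (s0 lf (s1 lf (s2 (sk 0) lf))) (s2 (sk 0) (s0 lf
    (s0 lf (sk 0)))))) lf) (s0 (s1 (s2 (s2 (sk 0) (s0 lf (s1 lf (sk 0)))) lf) (s2 (sk 0) (s2 (s0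
    (s1 lf (sk 0)) (sk 0)) lf))) (s2 (sk 0) (s1 (s0 lf (s1 lf (s2 (sk 0) lf))) (s2 (sk 0) (s1 lf
    (s2 (sk 0) lf)))))))) lf) (s1 (s2 (s1 lf (s1 lf (s0 lf (s2 (s2 (sk 0) lf) lf)))) lf) (s1 (s2
    (s1 (s2 (s0 (s2 (sk 0) (s2 lf lf)) (sk 0)) lf) (s2 (sk 0) (s2 (s0 (s0 lf (s1 lf (sk 0))) (sk
    0)) lf))) lf) (s2 (s1 (s2 (sk 0) (s0 (s2 (sk 0) (s0 lf (s1 lf (sk 0)))) (sk 0))) (sk 0)) (s2
    (s1 lf (s2 (s0 (s0 lf (s1 lf (sk 0))) (s0 (s2 (sk 0) lf) (sk 0))) lf)) lf)))))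
    ⟨79228162514264364949393249401, 2550866976441, 79228162514264595758874152143, 4661929301771,
    79228162514264471294157887896, 49258120924366⟩ (by decide +kernel)

theorem R2b_5 : Hd (QR2b coA) 79228162514264372601994178722 5101733952881
    79228162514264593427909501257 2330964650886 79228162514264471294157887896 49258120924366 :=
  okR2b coA (s2 (s0 (s0 (s1 (s0 lf (s1 lf (s2 (s0 lf (s2 (sk 0) lf)) lf))) (s1 (s2 (s2 (sk 0)
    (s0 lf (sk 0))) lf) (s2 (sk 0) (s0 lf (s1 lf (s2 (sk 0) lf)))))) (s1 (s0 (s2 (s0 (s1 lf (s2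
    (sk 0) lf)) (s1 (s2 (sk 0) lf) (sk 0))) lf) (s0 (s2 (s1 (s2 (sk 0) lf) (sk 0)) lf) (s2 (sk
    0) (s1 lf (s2 (sk 0) lf))))) (s2 (sk 0) (s1 (s2 (s0 (s0 lf (sk 0)) (sk 0)) lf) (s0 (s1 (s2
    (sk 0) lf) (sk 0)) (sk 0)))))) (s2 (sk 0) (s0 (s1 (s0 (s1 lf (s2 (sk 0) lf)) (s2 (sk 0) (s0
    lf (s1 lf (sk 0))))) (sk 0)) (s0 (s0 (s1 (s1 (s2 (sk 0) lf) (sk 0)) (sk 0)) (sk 0)) (sk
    0))))) (s2 (s0 lf (s0 (s1 lf (s2 (s0 (s0 lf (s1 lf (sk 0))) (s1 (s2 (sk 0) lf) (sk 0))) lf))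
    (s1 (s0 lf (s1 lf (s2 (sk 0) lf))) (s2 (sk 0) (s1 lf (s0 (s1 lf (sk 0)) (sk 0))))))) lf))
    ⟨79228162514264372601994178722, 5101733952881, 79228162514264593427909501257, 2330964650886,
    79228162514264471294157887896, 49258120924366⟩ (by decide +kernel)

theorem R2b_6 : Hd (QR2b coA) 79228162514264372601994178722 5101733952881
    79228162514264598089838803029 2330964650886 79228162514264471294157887896 49258120924366 :=
  okR2b coA (s0 (s0 (s2 (s1 (s2 (sk 0) (s2 (sk 0) (s0 (s1 lf (s0 (s1 lf (sk 0)) (sk 0))) (s1 (s1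
    lf (sk 0)) (sk 0))))) (sk 0)) (s2 (s0 (s1 lf (s1 (s2 (s2 (sk 0) lf) lf) (s2 (sk 0) (s2 (sk
    0) lf)))) (s1 (s1 lf (s2 (s2 (sk 0) lf) lf)) (s1 (s2 (sk 0) (s0 lf (s2 (sk 0) lf))) (sk
    0)))) lf)) (s2 (sk 0) (s1 (s2 (s1 (s0 lf (s2 (s2 (sk 0) lf) lf)) (s2 (sk 0) (s0 lf (s2 (sk
    0) lf)))) lf) (s2 (s0 (s0 (s1 (s1 (s2 (sk 0) lf) (sk 0)) (sk 0)) (sk 0)) (sk 0)) (s2 (s1 lf
    (s2 (sk 0) (s0 lf (s0 lf (sk 0))))) lf))))) (s2 (sk 0) (s1 (s2 (s0 (s1 (s2 (sk 0) (s0 lf (s2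
    (sk 0) lf))) (sk 0)) (sk 0)) (s2 (s0 (s0 lf (s1 lf (s2 (sk 0) lf))) (s0 (s1 lf (s2 (sk 0)
    lf)) (s1 (s2 (sk 0) lf) (sk 0)))) lf)) (s2 (sk 0) (s0 (s0 (s2 (s1 (s2 (sk 0) lf) (sk 0)) lf)
    (s2 (sk 0) (s1 lf (s2 (sk 0) lf)))) (s2 (sk 0) (s1 (s2 (s0 (s0 lf (sk 0)) (sk 0)) lf) (s0
    (s0 (sk 0) (sk 0)) (sk 0)))))))))
    ⟨79228162514264372601994178722, 5101733952881, 79228162514264598089838803029, 2330964650886,
    79228162514264471294157887896, 49258120924366⟩ (by decide +kernel)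

theorem R2b_7 : Hd (QR2b coA) 79228162514264367500260225841 10203467905762
    79228162514264595758874152143 4661929301771 79228162514264569810399736628 49258120924366 :=
  okR2b coA (s2 (s0 (s2 lf lf) (s1 lf (s0 lf (s0 lf (s2 lf lf))))) (s2 (s0 lf lf) (s2 lf (s0 lf
    lf))))
    ⟨79228162514264367500260225841, 10203467905762, 79228162514264595758874152143,
    4661929301771, 79228162514264569810399736628, 49258120924366⟩ (by decide +kernel)

theorem R2b_8 : Hd (QR2b coA) 79228162514264358572225808298 1275433488221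
    79228162514264602751768104797 2330964650886 79228162514264471294157887896 49258120924366 :=
  okR2b coA (s1 (s2 (s0 (s1 lf (s2 (s0 (s1 lf (s2 (sk 0) lf)) (s0 (s1 lf (s2 (sk 0) lf)) (s1 (s2
    (sk 0) lf) (sk 0)))) lf)) (s1 (s2 (s2 (s0 (s0 lf (s1 lf (sk 0))) (s0 (s1 lf (sk 0)) (sk 0)))
    lf) lf) (s0 (s2 (s1 (s2 (sk 0) lf) (sk 0)) lf) (s2 (sk 0) (s0 lf (s1 lf (s2 (sk 0) lf)))))))
    lf) (s1 (s2 (s0 (s1 (s2 (s0 (s0 (s2 (sk 0) lf) (sk 0)) (sk 0)) lf) (s2 (sk 0) (s2 (s0 lf (sk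
    0)) lf))) (s2 (sk 0) (s2 (sk 0) (s1 lf (s0 (s2 (sk 0) lf) (sk 0)))))) lf) (s2 (s0 (s2 (sk 0)
    (s2 (sk 0) (s0 (s1 lf (s2 (sk 0) lf)) (s1 (s1 lf (sk 0)) (sk 0))))) (sk 0)) (s2 (s0 lf (s2
    (s0 (s1 lf (s2 (sk 0) lf)) (s1 (s2 (sk 0) lf) (sk 0))) lf)) lf))))
    ⟨79228162514264358572225808298, 1275433488221, 79228162514264602751768104797, 2330964650886,
    79228162514264471294157887896, 49258120924366⟩ (by decide +kernel)

theorem R2b_9 : Hd (QR2b coA) 79228162514264361123092784740 1275433488221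
    79228162514264602751768104797 2330964650886 79228162514264471294157887896 49258120924366 :=
  okR2b coA (s1 (s0 (s2 (s1 (s2 (s0 (s1 (s2 (sk 0) lf) (sk 0)) (sk 0)) lf) (s2 (sk 0) (s0 (s2
    (s0 (s1 lf (sk 0)) (sk 0)) lf) (s2 (sk 0) (s1 lf (s1 lf (sk 0))))))) lf) (s2 (s2 (sk 0) (s1
    (s2 (s0 (s1 lf (sk 0)) (sk 0)) lf) (s0 (s0 (s1 (s2 (sk 0) lf) (sk 0)) (sk 0)) (sk 0)))) (s0
    lf (s1 lf (s1 lf (s1 lf (s2 (s2 (sk 0) lf) lf))))))) (s2 (s0 (s2 (sk 0) (sk 0)) (sk 0)) (s1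
    (s2 (s0 (s1 lf (s2 (s2 (sk 0) lf) lf)) (s0 (s2 (s1 (s1 lf (sk 0)) (sk 0)) lf) (s2 (sk 0) (s1
    lf (s2 (sk 0) lf))))) lf) (s2 (s2 (sk 0) (s0 (s1 lf (s2 (sk 0) (s0 lf (s0 lf (sk 0))))) (s0
    (s1 (s2 (sk 0) lf) (sk 0)) (sk 0)))) (s0 lf (s0 lf (s1 lf (s2 (s2 (sk 0) lf) lf))))))))
    ⟨79228162514264361123092784740, 1275433488221, 79228162514264602751768104797, 2330964650886,
    79228162514264471294157887896, 49258120924366⟩ (by decide +kernel)

theorem R2b_10 : Hd (QR2b coA) 79228162514264359847659296519 2550866976441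
    79228162514264607413697406569 2330964650886 79228162514264471294157887896 49258120924366 :=
  okR2b coA (s2 (sk 0) (s0 (s1 (s1 (s2 (s0 (s1 (s2 (s2 (sk 0) (s0 lf (s0 lf (sk 0)))) lf) (s2
    (sk 0) (s0 lf (s2 (sk 0) lf)))) (s2 (sk 0) (s0 (s1 lf (s0 (s2 (sk 0) lf) (sk 0))) (s1 (s2
    (sk 0) lf) (sk 0))))) lf) (s2 (s0 (s0 (s1 (s2 (sk 0) (s2 (sk 0) lf)) (sk 0)) (sk 0)) (sk 0))
    (s2 (s0 (s0 lf (s1 lf (s2 (sk 0) lf))) (s1 (s2 (s0 (s0 lf (sk 0)) (sk 0)) lf) (s0 (s0 (s2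
    (sk 0) lf) (sk 0)) (sk 0)))) lf))) (s2 (sk 0) (s0 (s1 (s1 (s2 (s0 (s1 (s2 (sk 0) lf) (sk 0))
    (sk 0)) lf) (s2 (sk 0) (s2 (s0 (s1 lf (sk 0)) (sk 0)) lf))) (s0 (s1 (s1 (s2 (sk 0) (s2 (sk
    0) lf)) (sk 0)) (sk 0)) (sk 0))) (s1 (s2 (sk 0) (s1 (s2 (s0 (s1 lf (sk 0)) (sk 0)) lf) (s0
    (s1 (s2 (sk 0) lf) (sk 0)) (sk 0)))) (sk 0))))) (s2 (sk 0) (s1 (s1 (s0 (s2 (s1 (s0 lf (s0 lf
    (s2 (sk 0) lf))) (s2 (sk 0) (s0 lf (s0 lf (sk 0))))) lf) (s0 (s2 (s1 (s2 (sk 0) lf) (sk 0))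
    lf) (s2 (sk 0) (s0 lf (s1 lf (s2 (sk 0) lf)))))) (s2 (sk 0) (s0 (s1 lf (s2 (sk 0) lf)) (s1
    (s2 (sk 0) lf) (sk 0))))) (s0 (s0 (s0 (s0 (sk 0) (sk 0)) (sk 0)) (sk 0)) (sk 0))))))
    ⟨79228162514264359847659296519, 2550866976441, 79228162514264607413697406569, 2330964650886,
    79228162514264471294157887896, 49258120924366⟩ (by decide +kernel)

end FX.DA
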