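import Pool.Agent.H11.FX.CoAB

/-! Branch and bound data, generated. -/

set_option maxRecDepth 100000

namespace FX.DA

open H41FT H41FT.Tr

theorem R2b_11 : Hd (QR2b coA) 79228162514264364949393249401 2550866976441
    79228162514264605082732755683 4661929301771 79228162514264471294157887896 49258120924366 :=
  okR2b coA (s0 (s1 (s1 (s2 (s0 (s0 (s1 (s1 (s2 (sk 0) (s2 (sk 0) lf)) (sk 0)) (sk 0)) (sk 0))
    (sk 0)) (s2 (s0 (s1 lf (s2 (s0 (s1 lf (sk 0)) (sk 0)) lf)) (s1 (s2 (s1 lf (s2 (sk 0) lf))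
    lf) (s2 (sk 0) (s1 lf (s2 (sk 0) lf))))) lf)) (s2 (sk 0) (s0 (s1 (s2 (s2 (sk 0) (s1 (s2 (sk
    0) lf) (sk 0))) lf) (s2 (sk 0) (s2 (s0 (s1 lf (s2 (sk 0) lf)) (s1 (s2 (sk 0) lf) (sk 0)))
    lf))) (s2 (sk 0) (s1 (s1 lf (s2 (s2 (sk 0) lf) lf)) (s2 (sk 0) (s0 lf (s1 lf (s2 (sk 0)
    lf))))))))) (s1 (s2 (sk 0) (s2 (sk 0) (s1 (s2 (sk 0) (s0 (s2 (s0 (s1 lf (sk 0)) (sk 0)) lf)
    (s0 (s1 (s2 (sk 0) lf) (sk 0)) (sk 0)))) (sk 0)))) (sk 0))) (s2 (sk 0) (s1 (s1 (s2 (s2 (sk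
    0) (s0 (s1 (s1 lf (s2 (sk 0) lf)) (s0 (s1 (s2 (sk 0) lf) (sk 0)) (sk 0))) (s0 (s1 (s1 lf (sk
    0)) (sk 0)) (sk 0)))) (s0 lf (s1 lf (s2 (s2 (s0 (s1 lf (sk 0)) (sk 0)) lf) lf)))) (s2 (sk 0)
    (s0 (s1 (s2 (s1 (s2 (sk 0) lf) (sk 0)) lf) (s2 (sk 0) (s0 (s2 (sk 0) lf) (s1 (s2 (sk 0) lf)
    (sk 0))))) (s2 (sk 0) (s1 (s1 lf (s2 (sk 0) lf)) (s0 (s1 (s2 (sk 0) lf) (sk 0)) (sk 0)))))))
    (sk 0))))
    ⟨79228162514264364949393249401, 2550866976441, 79228162514264605082732755683, 4661929301771,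
    79228162514264471294157887896, 49258120924366⟩ (by decide +kernel)

theorem R2b_12 : Hd (QR2b coA) 79228162514264359847659296519 2550866976441
    79228162514264605082732755683 4661929301771 79228162514264545181339274445 24629060462183 :=
  okR2b coA (s1 lf (s2 (s0 (s1 lf (s1 lf (s2 (s0 (s1 lf (s2 (s0 (s1 lf (sk 0)) (sk 0)) lf)) (s1
    (s2 (s0 (s0 lf (sk 0)) (sk 0)) lf) (s2 (sk 0) (s2 (sk 0) lf)))) lf))) (s1 lf (s1 (s2 (s0 (s1
    lf (s2 (s0 (s0 lf (sk 0)) (sk 0)) lf)) (s0 (s2 (s0 (s1 lf (sk 0)) (sk 0)) lf) (s1 (s2 (sk 0)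
    lf) (sk 0)))) lf) (s2 (s0 (s1 (s1 (s2 (sk 0) lf) (sk 0)) (sk 0)) (sk 0)) (s2 (s0 (s0 lf (s1
    lf (sk 0))) (s1 (s2 (sk 0) lf) (sk 0))) lf))))) lf))
    ⟨79228162514264359847659296519, 2550866976441, 79228162514264605082732755683, 4661929301771,
    79228162514264545181339274445, 24629060462183⟩ (by decide +kernel)

theorem R2b_13 : Hd (QR2b coA) 79228162514264364949393249401 2550866976441
    79228162514264605082732755683 4661929301771 79228162514264545181339274445 24629060462183 :=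
  okR2b coA (s1 (s0 lf (s2 lf lf)) (s1 (s2 (s0 (s1 lf (s2 (s0 (s1 lf (s2 (sk 0) lf)) (s2 (sk 0)
    (s0 lf (s1 lf (sk 0))))) lf)) (s0 (s2 (s1 (s1 lf (s2 (sk 0) lf)) (s0 (s1 (s2 (sk 0) lf) (sk
    0)) (sk 0))) lf) (s1 (s2 (s2 (sk 0) (s0 lf (s1 lf (sk 0)))) lf) (s2 (sk 0) (s1 lf (s2 (sk 0)
    lf)))))) lf) (s1 (s2 (s0 (s1 (s2 (s0 (s0 (s2 (sk 0) lf) (sk 0)) (sk 0)) lf) (s2 (sk 0) (s2
    (s0 lf (sk 0)) lf))) (s2 (sk 0) (s2 (sk 0) (s0 (s0 lf (s1 lf (sk 0))) (s1 lf (sk 0)))))) lf)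
    (s2 (s0 (s2 (sk 0) (s1 (s2 (sk 0) (s0 lf (sk 0))) (sk 0))) (sk 0)) (s2 (s0 lf (s2 (s0 (s1 lf
    (sk 0)) (sk 0)) lf)) lf)))))
    ⟨79228162514264364949393249401, 2550866976441, 79228162514264605082732755683, 4661929301771,
    79228162514264545181339274445, 24629060462183⟩ (by decide +kernel)

theorem R2b_14 : Hd (QR2b coA) 79228162514264362398526272960 5101733952881
    79228162514264605082732755683 4661929301771 79228162514264594439460198811 24629060462183 :=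
  okR2b coA (s2 (s0 lf lf) (s2 lf (s1 lf lf)))
    ⟨79228162514264362398526272960, 5101733952881, 79228162514264605082732755683, 4661929301771,
    79228162514264594439460198811, 24629060462183⟩ (by decide +kernel)

theorem R2b_15 : Hd (QR2b coA) 79228162514264362398526272960 5101733952881
    79228162514264614406591359225 4661929301771 79228162514264471294157887896 49258120924366 :=
  okR2b coA (s0 (s0 (sk 0) (sk 0)) (sk 0))
    ⟨79228162514264362398526272960, 5101733952881, 79228162514264614406591359225, 4661929301771,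
    79228162514264471294157887896, 49258120924366⟩ (by decide +kernel)

theorem R2b_16 : Hd (QR2b coA) 79228162514264362398526272960 5101733952881
    79228162514264612075626708339 2330964650886 79228162514264569810399736628 49258120924366 :=
  okR2b coA (s2 (s0 (s1 (s2 (s0 (s0 (s1 (s1 (s2 (s0 (s1 (s2 (sk 0) lf) (sk 0)) (sk 0)) lf) (s2
    (sk 0) (s1 lf (s2 (sk 0) lf)))) (s1 (s2 (sk 0) (s0 (s2 (sk 0) lf) (sk 0))) (sk 0))) (s1 (s2
    (sk 0) (s1 (s0 lf (s2 (sk 0) lf)) (s2 (sk 0) (s2 (sk 0) lf)))) (sk 0))) (s0 (s1 (s1 (s2 (sk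
    0) (s2 (sk 0) lf)) (sk 0)) (sk 0)) (sk 0))) (s2 (s0 (s1 lf (s1 lf (s2 (s0 (s2 (sk 0) lf) (sk
    0)) lf))) (s1 (s0 lf (s0 lf (s1 lf (s2 (sk 0) lf)))) (s2 (sk 0) (s1 lf (s2 (sk 0) lf)))))
    lf)) (s2 (sk 0) (s0 (s1 (s2 (s0 (s1 (s2 (sk 0) lf) (sk 0)) (sk 0)) lf) (s2 (sk 0) (s1 (s2
    (sk 0) lf) (sk 0)))) (s1 (s2 (sk 0) (s2 (s0 (s1 lf (sk 0)) (sk 0)) lf)) (sk 0))))) (s2 (sk
    0) (s1 (s1 (s2 (s0 (s1 (s2 (s2 (sk 0) lf) lf) (s0 (s2 (sk 0) lf) (sk 0))) (s0 (s1 (s2 (sk 0)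
    lf) (sk 0)) (sk 0))) lf) (s2 (sk 0) (s2 (s0 (s0 lf (s1 lf (sk 0))) (sk 0)) lf))) (s0 (s1 (s1
    (s2 (sk 0) (s2 (sk 0) lf)) (sk 0)) (sk 0)) (sk 0))))) (s2 (s1 lf (s2 (s0 lf (s1 lf (s2 (sk
    0) lf))) lf)) (s2 lf (s0 (s0 lf lf) lf))))
    ⟨79228162514264362398526272960, 5101733952881, 79228162514264612075626708339, 2330964650886,
    79228162514264569810399736628, 49258120924366⟩ (by decide +kernel)

theorem R2b_17 : Hd (QR2b coA) 79228162514264362398526272960 5101733952881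
    79228162514264616737556010111 2330964650886 79228162514264569810399736628 49258120924366 :=
  okR2b coA (s2 (s0 (sk 0) (sk 0)) (s1 (s2 (s2 (s0 (s1 (s2 (s0 (sk 0) (sk 0)) lf) (sk 0)) (sk
    0)) (s2 (s1 lf (s0 lf (sk 0))) lf)) (s2 lf (s0 (s0 lf lf) lf))) (s0 (s1 (s1 (s2 (sk 0) (s2
    lf lf)) (sk 2)) (sk 2)) (sk 2))))
    ⟨79228162514264362398526272960, 5101733952881, 79228162514264616737556010111, 2330964650886,
    79228162514264569810399736628, 49258120924366⟩ (by decide +kernel)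

theorem R2b_18 : Hd (QR2b coA) 79228162514264372601994178722 5101733952881
    79228162514264605082732755683 4661929301771 79228162514264471294157887896 49258120924366 :=
  okR2b coA (s2 (sk 0) (s1 (s0 (s2 (sk 0) (s0 (s0 (s1 (s2 (s1 (s0 lf (s2 (sk 0) lf)) (s1 (s2 (sk
    0) lf) (sk 0))) lf) (s1 (s2 (sk 0) (s2 (sk 0) (s0 lf (s1 lf (sk 0))))) (sk 0))) (s1 (s1 (s2
    (s1 (s2 (sk 0) lf) (sk 0)) lf) (s2 (sk 0) (s1 lf (s2 (sk 0) lf)))) (sk 0))) (s1 (s2 (sk 0)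
    (s0 (s1 lf (s1 (s2 (sk 0) lf) (sk 0))) (s1 (s2 (sk 0) lf) (sk 0)))) (sk 0)))) (s0 (s0 (s0
    (s1 (s1 (s2 (sk 0) (s2 (sk 0) (s2 (sk 0) lf))) (sk 0)) (sk 0)) (sk 0)) (sk 0)) (sk 0))) (sk
    0)))
    ⟨79228162514264372601994178722, 5101733952881, 79228162514264605082732755683, 4661929301771,
    79228162514264471294157887896, 49258120924366⟩ (by decide +kernel)

theorem R2b_19 : Hd (QR2b coA) 79228162514264372601994178722 5101733952881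
    79228162514264602751768104797 2330964650886 79228162514264545181339274445 24629060462183 :=
  okR2b coA (s0 (s2 (s0 (s1 lf (s1 lf (s2 (s0 (s1 lf (s2 (sk 0) lf)) (s2 (sk 0) (s0 lf (s1 lf
    (sk 0))))) lf))) (s1 lf (s1 (s2 (s2 (s0 (s1 lf (sk 0)) (sk 0)) lf) lf) (s0 (s2 (s1 (s2 (sk
    0) lf) (sk 0)) lf) (s2 (sk 0) (s1 lf (s2 (sk 0) lf))))))) lf) (s2 (s1 (s2 (s0 (s1 lf (s2 (s0
    (s1 lf (sk 0)) (sk 0)) lf)) (s1 (s2 (sk 0) lf) (sk 0))) lf) (s0 (s2 (s0 (sk 0) (sk 0)) (s1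
    lf (s2 (sk 0) lf))) (s2 (sk 0) (s1 (s2 (sk 0) lf) (sk 0))))) (s0 lf lf)))
    ⟨79228162514264372601994178722, 5101733952881, 79228162514264602751768104797, 2330964650886,
    79228162514264545181339274445, 24629060462183⟩ (by decide +kernel)

theorem R2b_20 : Hd (QR2b coA) 79228162514264372601994178722 5101733952881
    79228162514264607413697406569 2330964650886 79228162514264545181339274445 24629060462183 :=
  okR2b coA (s2 (s0 (s1 (s0 (s1 (s0 (s2 (s0 (s1 (s2 (sk 0) lf) (sk 0)) (sk 0)) lf) (s2 (sk 0)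
    (s1 lf (s2 (sk 0) lf)))) (s2 (sk 0) (s2 (sk 0) (s0 lf (s1 lf (sk 0)))))) (s1 (s2 (sk 0) (s2
    (sk 0) (s0 lf (s1 lf (sk 0))))) (sk 0))) (sk 0)) (s0 (sk 0) (sk 0))) (s1 (s2 (s0 (s0 lf (s0
    lf (s1 lf (s1 lf (s2 (sk 0) lf))))) (s0 (s1 lf (s2 (sk 0) lf)) (s2 (sk 0) (s1 lf (s2 (sk 0)
    lf))))) lf) (s0 (s0 (s2 (s1 (s1 lf (s2 (sk 0) lf)) (s1 (s2 (sk 0) lf) (sk 0))) lf) (s1 (s2
    (s2 (sk 0) (s0 lf (s0 lf (sk 0)))) lf) (s2 (sk 0) (s1 lf (s2 (sk 0) lf))))) (s2 (sk 0) (s1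
    (s0 lf (s1 lf (s2 (sk 0) lf))) (s2 (sk 0) (s0 lf (s0 lf (sk 0)))))))))
    ⟨79228162514264372601994178722, 5101733952881, 79228162514264607413697406569, 2330964650886,
    79228162514264545181339274445, 24629060462183⟩ (by decide +kernel)

theorem R2b_21 : Hd (QR2b coA) 79228162514264372601994178722 5101733952881
    79228162514264605082732755683 4661929301771 79228162514264594439460198811 24629060462183 :=
  okR2b coA (s2 (s2 lf lf) (s1 lf (s0 lf lf)))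
    ⟨79228162514264372601994178722, 5101733952881, 79228162514264605082732755683, 4661929301771,
    79228162514264594439460198811, 24629060462183⟩ (by decide +kernel)

theorem R2b_22 : Hd (QR2b coA) 79228162514264372601994178722 5101733952881
    79228162514264614406591359225 4661929301771 79228162514264520552278812262 98516241848731 :=
  okR2b coA (s2 (sk 0) (s1 (s2 (s2 (sk 0) (s1 (s2 (sk 0) (s0 (s0 (s1 (s1 lf (s2 (sk 0) lf)) (s0
    (s0 (sk 0) (sk 0)) (sk 0))) (s1 (s2 (sk 0) lf) (sk 0))) (sk 0))) (sk 0))) (s2 (s0 (s2 (s1 lf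
    (s1 (s2 (sk 0) lf) (sk 0))) lf) (s1 (s2 (s2 (s1 lf (sk 0)) lf) lf) (s2 (sk 0) (s1 lf (s2 (sk
    0) lf))))) (s2 lf (s0 lf lf)))) (s1 (s2 (sk 0) (s2 (s2 (sk 0) (s0 (s1 (s2 (sk 0) lf) (sk 0))
    (sk 0))) (s0 (s2 lf lf) (s1 lf (sk 2))))) (sk 2))))
    ⟨79228162514264372601994178722, 5101733952881, 79228162514264614406591359225, 4661929301771,
    79228162514264520552278812262, 98516241848731⟩ (by decide +kernel)

theorem R2b_23 : Hd (QR2b coA) 79228162514264387907196037365 10203467905762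
    79228162514264563125369039749 18647717207082 79228162514264520552278812262 98516241848731 :=
  okR2b coA (s1 (s0 (sk 1) (s0 (sk 1) (s1 (sk 1) (s2 lf (s2 lf lf))))) (s2 (s1 (s2 (s0 lf (s0 lf
    (s1 lf (s0 lf (s1 lf (s2 (s2 (sk 0) lf) lf)))))) lf) (s0 (s2 (s0 lf (s1 lf (s2 (s0 (s0 lf
    (s1 lf (s2 (sk 0) lf))) (s0 (s1 lf (s2 (sk 0) lf)) (s1 (s2 (sk 0) lf) (sk 0)))) lf))) lf)
    (s0 (s2 (s1 (s2 (s1 lf (s0 lf (s2 (sk 0) lf))) lf) (s0 (s1 (s2 (s0 (s2 (sk 0) lf) (sk 0))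
    lf) (s2 (sk 0) (s1 lf (s2 (sk 0) lf)))) (s2 (sk 0) (s0 (s1 lf (s2 (sk 0) lf)) (s1 (s2 (sk 0)
    lf) (sk 0)))))) lf) (s1 (s2 (s0 (s2 (s1 (s2 (sk 0) lf) (sk 0)) lf) (s2 (sk 0) (s1 lf (s2 (sk
    0) lf)))) lf) (s2 (s0 (s1 (s2 (sk 0) (s2 (sk 0) lf)) (sk 0)) (sk 0)) (s2 (s1 lf (s0 lf (s2
    (sk 0) lf))) lf)))))) (s2 (s2 lf lf) (s0 (s2 lf lf) (s2 lf lf)))))
    ⟨79228162514264387907196037365, 10203467905762, 79228162514264563125369039749,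
    18647717207082, 79228162514264520552278812262, 98516241848731⟩ (by decide +kernel)

theorem R2b_24 : Hd (QR2b coA) 79228162514264382805462084484 5101733952881
    79228162514264586435015548601 4661929301771 79228162514264471294157887896 49258120924366 :=
  okR2b coA (s1 (s2 (s0 (s0 (s1 lf (s2 (s2 (s0 (s0 lf (sk 0)) (sk 0)) lf) lf)) (s1 (s2 (s1 lf
    (s2 (sk 0) lf)) lf) (s2 (sk 0) (s0 lf (s0 lf (s2 (sk 0) lf)))))) (s0 (s2 (s2 (sk 0) (sk 0))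
    (s1 lf (s2 (sk 0) (s0 lf (s1 lf (sk 0)))))) (s1 (s2 (sk 0) (s2 (sk 0) lf)) (sk 0)))) (s2 (s2
    lf lf) lf)) (s0 (s2 (s2 (sk 0) (s0 (s0 (s1 lf (s1 (s2 (sk 0) lf) (sk 0))) (s1 (s1 lf (s2 (sk
    0) lf)) (sk 0))) (s1 (s1 (s2 (sk 0) lf) (sk 0)) (sk 0)))) (s1 lf (s2 (s0 lf (s2 (s0 (s1 lf
    (sk 0)) (sk 0)) lf)) lf))) (s2 (sk 0) (s0 (s2 (s1 (s0 lf (s1 lf (s2 (sk 0) lf))) (s2 (sk 0)
    (s1 lf (s2 (sk 0) lf)))) lf) (s1 (s2 (s2 (sk 0) lf) lf) (s2 (sk 0) (s1 lf (s2 (s2 (sk 0) lf)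
    lf))))))))
    ⟨79228162514264382805462084484, 5101733952881, 79228162514264586435015548601, 4661929301771,
    79228162514264471294157887896, 49258120924366⟩ (by decide +kernel)

theorem R2b_25 : Hd (QR2b coA) 79228162514264382805462084484 5101733952881
    79228162514264595758874152143 4661929301771 79228162514264471294157887896 49258120924366 :=
  okR2b coA (s2 (sk 0) (s0 (s1 (s1 (s2 (s0 (s1 (s2 (s2 (sk 0) lf) lf) (s2 (sk 0) (s0 lf (s0 lf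
    (sk 0))))) (s0 (s1 (s2 (sk 0) lf) (sk 0)) (sk 0))) lf) (s2 (s0 (s0 (s0 (sk 0) (sk 0)) (sk
    0)) (sk 0)) (s2 (s0 (s1 lf (s2 (sk 0) lf)) (s1 (s2 (sk 0) lf) (sk 0))) lf))) (s2 (sk 0) (s2
    (sk 0) (s1 (s0 (s1 lf (s2 (sk 0) lf)) (s1 (s2 (sk 0) lf) (sk 0))) (sk 0))))) (s1 (s2 (sk 0)
    (s0 (s1 (s1 lf (s2 (s2 (sk 0) lf) lf)) (s2 (sk 0) (s1 lf (s2 (sk 0) lf)))) (s2 (sk 0) (s1 lf
    (s1 (s2 (sk 0) lf) (sk 0)))))) (sk 0))))
    ⟨79228162514264382805462084484, 5101733952881, 79228162514264595758874152143, 4661929301771,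
    79228162514264471294157887896, 49258120924366⟩ (by decide +kernel)

theorem R2b_26 : Hd (QR2b coA) 79228162514264393008929990246 5101733952881
    79228162514264591096944850372 9323858603541 79228162514264471294157887896 49258120924366 :=
  okR2b coA (s0 (s2 (s0 (s2 (sk 0) (s2 (sk 0) (sk 0))) (sk 0)) (s1 (s1 (s2 (s0 (s1 lf (s2 (s0
    (sk 0) (sk 0)) lf)) (s1 (s0 lf (s2 (sk 0) lf)) (s1 (s2 (sk 0) lf) (sk 0)))) lf) (s0 (s1 (s2
    (s0 (s1 (s2 (sk 0) lf) (sk 0)) (sk 0)) lf) (s2 (sk 0) (s2 (s0 (s1 lf (sk 0)) (sk 0)) lf)))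
    (s2 (sk 0) (s1 (s2 (s2 (sk 0) lf) lf) (s2 (sk 0) (s0 lf (s2 (sk 0) lf))))))) (s1 (s1 (s2 (sk
    0) (s0 (s2 (sk 0) (s2 (sk 0) lf)) (sk 0))) (sk 0)) (sk 0)))) (s1 (s2 (sk 0) (s1 (s0 (s2 (s1
    (s2 (sk 0) lf) (sk 0)) lf) (s2 (sk 0) (s1 lf (s1 lf (s2 (sk 0) lf))))) (s2 (sk 0) (s2 (sk 0)
    (s0 (s1 lf (s2 (sk 0) lf)) (s1 (s2 (sk 0) lf) (sk 0))))))) (sk 0)))
    ⟨79228162514264393008929990246, 5101733952881, 79228162514264591096944850372, 9323858603541,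
    79228162514264471294157887896, 49258120924366⟩ (by decide +kernel)

theorem R2b_27 : Hd (QR2b coA) 79228162514264387907196037365 10203467905762
    79228162514264586435015548601 4661929301771 79228162514264569810399736628 49258120924366 :=
  okR2b coA (s2 (s2 (s0 lf (s0 lf (s2 lf lf))) lf) (s2 lf (s0 lf lf)))
    ⟨79228162514264387907196037365, 10203467905762, 79228162514264586435015548601,
    4661929301771, 79228162514264569810399736628, 49258120924366⟩ (by decide +kernel)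

theorem R2b_28 : Hd (QR2b coA) 79228162514264387907196037365 10203467905762
    79228162514264595758874152143 4661929301771 79228162514264569810399736628 49258120924366 :=
  okR2b coA (s0 (s2 (s0 (s1 lf (s2 (s2 (s1 lf (s0 (s1 lf (s2 (sk 0) lf)) (s1 (s2 (sk 0) lf) (sk
    0)))) lf) lf)) (s2 (s1 (s0 lf lf) (s1 (s2 (s0 (s1 lf (s2 (sk 0) lf)) (s1 (s2 (sk 0) lf) (sk
    0))) lf) (s2 (sk 0) (s0 (s1 lf (s2 (sk 0) lf)) (s2 (sk 0) (s0 lf (s1 lf (sk 0)))))))) lf))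
    (s2 lf lf)) (s2 (s1 (s2 (s0 (s1 lf (s2 (s0 (s1 lf (s2 (sk 0) lf)) (s1 (s2 (sk 0) lf) (sk
    0))) lf)) (s1 (s2 (s0 (s1 lf (s2 (sk 0) lf)) (s0 (s2 (sk 0) lf) (sk 0))) lf) (s2 (sk 0) (s1
    lf (s2 (sk 0) lf))))) lf) (s2 (s2 (sk 0) (s0 (s1 (s2 (s0 (s1 lf (sk 0)) (sk 0)) lf) (s0 (s1
    (s2 (sk 0) lf) (sk 0)) (sk 0))) (s0 (s1 (s1 (s2 (sk 0) lf) (sk 0)) (sk 0)) (sk 0)))) (s2 (s0
    (s0 lf (s1 lf (s1 lf (s2 (sk 0) lf)))) (s0 (s1 lf (s2 (sk 0) lf)) (s1 lf (s1 (s2 (sk 0) lf)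
    (sk 0))))) lf))) (s2 lf lf)))
    ⟨79228162514264387907196037365, 10203467905762, 79228162514264595758874152143,
    4661929301771, 79228162514264569810399736628, 49258120924366⟩ (by decide +kernel)

theorem R2b_29 : Hd (QR2b coA) 79228162514264382805462084484 5101733952881
    79228162514264609744662057454 9323858603541 79228162514264471294157887896 49258120924366 :=
  okR2b coA (sk 0)
    ⟨79228162514264382805462084484, 5101733952881, 79228162514264609744662057454, 9323858603541,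
    79228162514264471294157887896, 49258120924366⟩ (by decide +kernel)

theorem R2b_30 : Hd (QR2b coA) 79228162514264382805462084484 5101733952881
    79228162514264605082732755683 4661929301771 79228162514264569810399736628 49258120924366 :=
  okR2b coA (s1 (s2 (s0 (s2 (s2 (sk 0) (s0 (s1 (s1 lf (s2 (sk 0) lf)) (s0 (s0 (s1 (s2 (sk 0) lf)
    (sk 0)) (sk 0)) (sk 0))) (s1 (s2 (sk 0) (s1 lf (s1 lf (sk 0)))) (sk 0)))) (s1 lf (s2 (s0 (s1
    lf (s1 lf (s2 (sk 0) lf))) (s0 (s1 lf (s2 (sk 0) lf)) (s2 (sk 0) lf))) lf))) (s1 (s2 (s0 (s0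
    (s1 (s2 (sk 0) (s2 (sk 0) lf)) (sk 0)) (sk 0)) (sk 0)) (s2 (s1 lf (s2 (s0 (s1 lf (sk 0)) (sk
    0)) lf)) lf)) (s2 (sk 0) (s0 (s2 (s1 (s2 (sk 0) lf) (sk 0)) lf) (s2 (sk 0) (s0 lf (s1 lf (s2
    (sk 0) lf)))))))) (s2 lf lf)) (s2 (s2 (sk 0) (s0 (s1 (s1 (s2 (s0 (s0 (s2 (sk 0) lf) (sk 0))
    (sk 0)) lf) (s2 (sk 0) (s2 (s0 (s1 lf (sk 0)) (sk 0)) lf))) (s1 (s2 (sk 0) (s0 (s2 (sk 0)
    lf) (sk 0))) (sk 0))) (s1 (s2 (sk 0) (s2 (s0 (sk 0) (sk 0)) (s1 lf (s2 (sk 0) lf)))) (sk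
    0)))) (s2 (s2 (s1 lf (s2 (s0 (s0 lf (s0 lf (s1 lf (sk 0)))) (s1 (s2 (sk 0) lf) (sk 0))) lf))
    lf) lf)))
    ⟨79228162514264382805462084484, 5101733952881, 79228162514264605082732755683, 4661929301771,
    79228162514264569810399736628, 49258120924366⟩ (by decide +kernel)

theorem R2b_31 : Hd (QR2b coA) 79228162514264382805462084484 5101733952881
    79228162514264614406591359225 4661929301771 79228162514264569810399736628 49258120924366 :=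
  okR2b coA (s2 (sk 0) (s1 (s1 (s2 (s2 (s2 (sk 0) (s0 (s1 lf (sk 0)) (sk 0))) (s0 lf (s0 lf (s1
    lf (s2 (sk 0) lf))))) lf) (s2 (s2 (sk 0) (s0 (s2 (s0 (s1 lf (sk 0)) (sk 0)) lf) (s1 (s2 (sk
    0) lf) (sk 0)))) (s2 lf lf))) (s1 (s1 (s2 (sk 0) (s2 (s0 lf (s1 lf (sk 2))) lf)) (sk 2)) (sk
    2))))
    ⟨79228162514264382805462084484, 5101733952881, 79228162514264614406591359225, 4661929301771,
    79228162514264569810399736628, 49258120924366⟩ (by decide +kernel)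

end FX.DA
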