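import Pool.Agent.H11.FX.CoAB

/-! Branch and bound data, generated. -/

set_option maxRecDepth 100000

namespace FX.DA

open H41FT H41FT.Tr

theorem R2b_32 : Hd (QR2b coA) 79228162514264393008929990246 5101733952881
    79228162514264609744662057454 9323858603541 79228162514264520552278812262 98516241848731 :=
  okR2b coA (s2 (sk 0) (s1 (s2 (s2 (sk 0) (s0 (s1 (s1 (s2 (s2 (sk 0) (s1 lf (s0 (s0 lf (sk 0))
    (sk 0)))) lf) (s2 (sk 0) (s2 (s0 (s1 lf (sk 0)) (sk 0)) lf))) (s0 (s0 (s0 (s2 (sk 0) (s2 (sk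
    0) (sk 0))) (sk 0)) (sk 0)) (sk 0))) (s1 (s2 (sk 0) (s1 (s1 lf (s2 (s0 (s0 lf (sk 0)) (sk
    0)) lf)) (s1 (s2 (sk 0) (s2 (sk 0) lf)) (sk 0)))) (sk 0)))) (s1 (s2 (s0 lf (s2 lf lf)) lf)
    (s2 (s1 (s2 (s0 (s0 lf (s1 lf (s2 (sk 0) lf))) (s2 (s0 (s1 lf (sk 0)) (sk 0)) lf)) lf) (s2
    (s2 (sk 0) (s0 (s1 lf (s0 (sk 0) (sk 0))) (s0 (sk 0) (sk 0)))) (s0 lf (s1 lf (s2 (s2 (sk 0)
    lf) lf))))) lf))) (s1 (s2 (sk 0) (s2 (s2 (sk 0) (s0 (s1 (s2 (s1 (s1 lf (sk 0)) (sk 0)) lf)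
    (s0 (s0 (sk 0) (sk 0)) (sk 0))) (s1 (s2 (sk 0) (s1 lf (s2 (sk 0) lf))) (sk 0)))) (s2 (s1 lf
    (s2 (s1 (s0 lf lf) (s2 (sk 0) (s0 lf (sk 0)))) lf)) lf))) (sk 2))))
    ⟨79228162514264393008929990246, 5101733952881, 79228162514264609744662057454, 9323858603541,
    79228162514264520552278812262, 98516241848731⟩ (by decide +kernel)

theorem R2b_33 : Hd (QR2b coA) 79228162514264418517599754649 20406935811523
    79228162514264507182217418505 37295434414163 79228162514264520552278812262 98516241848731 :=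
  okR2b coA (s1 (sk 1) (s0 (s0 (sk 1) (s1 (sk 1) (s2 (s2 lf lf) (s2 lf lf)))) (s0 (s1 (sk 1) (s2
    (s2 (s1 lf lf) lf) (s2 lf lf))) (s1 (s2 (s2 lf lf) (s2 lf lf)) (s2 (s2 (s1 lf (s2 (s0 (s1 lf
    (s2 (sk 0) lf)) (s1 (s2 (sk 0) lf) (sk 0))) lf)) lf) (s2 lf lf))))))
    ⟨79228162514264418517599754649, 20406935811523, 79228162514264507182217418505,
    37295434414163, 79228162514264520552278812262, 98516241848731⟩ (by decide +kernel)

theorem R2b_34 : Hd (QR2b coA) 79228162514264408314131848887 10203467905762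
    79228162514264553801510436208 9323858603541 79228162514264520552278812262 98516241848731 :=
  okR2b coA (s2 (s1 (s2 (s2 lf lf) lf) (s0 (s2 (s0 lf (s2 lf lf)) lf) (s2 (s0 (s1 lf (s2 (s0 (s1
    lf (sk 0)) (sk 0)) lf)) (s1 (s2 (s0 (s1 lf (sk 0)) (sk 0)) lf) (s2 (sk 0) (s1 lf (s2 (sk 0)
    lf))))) lf))) (s2 (s0 lf lf) (s2 lf lf)))
    ⟨79228162514264408314131848887, 10203467905762, 79228162514264553801510436208,
    9323858603541, 79228162514264520552278812262, 98516241848731⟩ (by decide +kernel)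

theorem R2b_35 : Hd (QR2b coA) 79228162514264403212397896006 5101733952881
    79228162514264572449227643290 9323858603541 79228162514264520552278812262 98516241848731 :=
  okR2b coA (s2 (s1 (s2 (s1 (s2 (s0 (s0 lf (s1 lf (s2 (sk 0) lf))) (s0 (s2 (sk 0) lf) (sk 0)))
    lf) (s0 (s0 (s2 (s0 (s1 lf (sk 0)) (sk 0)) lf) (s2 (sk 0) (s1 lf (s2 (sk 0) lf)))) (s2 (sk
    0) (s1 (s2 (sk 0) lf) (sk 0))))) (s2 lf lf)) (s0 (s2 (s0 (s1 (s1 (s2 (sk 0) (s2 (sk 0) lf))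
    (sk 0)) (sk 0)) (sk 0)) (s2 (s1 (s2 lf lf) (s2 (sk 0) (s1 lf (s0 (s0 lf (sk 0)) (sk 0)))))
    lf)) (s2 (sk 0) (s1 (s2 (s0 (s1 lf (s2 (sk 0) lf)) (s1 (s2 (sk 0) lf) (sk 0))) lf) (s2 (sk
    0) (s1 lf (s2 (s0 (s0 lf (sk 0)) (sk 0)) lf))))))) (s2 (s2 lf lf) (s1 lf lf)))
    ⟨79228162514264403212397896006, 5101733952881, 79228162514264572449227643290, 9323858603541,
    79228162514264520552278812262, 98516241848731⟩ (by decide +kernel)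

theorem R2b_36 : Hd (QR2b coA) 79228162514264413415865801768 5101733952881
    79228162514264572449227643290 9323858603541 79228162514264520552278812262 98516241848731 :=
  okR2b coA (s1 (s2 (s2 (s0 (s1 (s2 (sk 0) (s2 (sk 0) lf)) (sk 0)) (sk 0)) (s2 (s0 (s1 lf (s1 lf
    (s2 (sk 0) lf))) (s1 (s1 lf (s2 (s0 (sk 0) (sk 0)) lf)) (s0 (s2 (sk 0) lf) (sk 0)))) lf))
    (s2 lf lf)) (s2 (s2 (sk 0) (s1 (s2 (s0 (s0 (s1 (s2 (sk 0) lf) (sk 0)) (sk 0)) (sk 0)) (s2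
    (s0 lf (s0 (s1 lf (sk 0)) (sk 0))) lf)) (s2 (sk 0) (s2 (sk 0) (s0 (s0 lf (s1 lf (sk 0))) (s0
    (s1 lf (sk 0)) (sk 0))))))) (s2 (s2 (s0 lf (s0 lf (s2 lf lf))) lf) lf)))
    ⟨79228162514264413415865801768, 5101733952881, 79228162514264572449227643290, 9323858603541,
    79228162514264520552278812262, 98516241848731⟩ (by decide +kernel)

theorem R2b_37 : Hd (QR2b coA) 79228162514264428721067660411 10203467905762
    79228162514264553801510436208 9323858603541 79228162514264520552278812262 98516241848731 :=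
  okR2b coA (s2 (s0 (s1 (s2 (s2 (s0 (s1 lf (s1 lf (sk 0))) (s1 (s2 (sk 0) lf) (sk 0))) (s2 lf
    lf)) lf) (s2 (s2 (sk 0) (s0 (s1 (s0 lf (s1 lf (sk 0))) (sk 0)) (s2 (sk 0) (sk 0)))) (s2 (s0
    lf (s1 lf (s2 (sk 0) lf))) lf))) (s1 (s2 (s2 (sk 0) (s0 (s1 lf (s2 (sk 0) lf)) (s1 (s2 (sk
    0) lf) (sk 0)))) (s2 (s2 lf lf) lf)) (s2 (sk 0) (s2 (s2 (s0 (sk 0) (sk 0)) (s1 (s0 lf lf)
    (sk 0))) (s0 lf (s0 lf (s1 lf (s2 (sk 0) lf)))))))) (s2 (s1 lf (s2 lf lf)) (s2 lf lf)))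
    ⟨79228162514264428721067660411, 10203467905762, 79228162514264553801510436208,
    9323858603541, 79228162514264520552278812262, 98516241848731⟩ (by decide +kernel)

theorem R2b_38 : Hd (QR2b coA) 79228162514264428721067660411 10203467905762
    79228162514264572449227643290 9323858603541 79228162514264520552278812262 98516241848731 :=
  okR2b coA (s2 (s2 (sk 0) (s0 (s1 (s1 (s0 (s2 (s2 (sk 0) lf) lf) (s2 (sk 0) lf)) (s2 (sk 0) (s2
    (s0 (s1 lf (sk 0)) (sk 0)) lf))) (s0 (s1 (s2 (sk 0) (s2 (sk 0) (s1 lf (sk 0)))) (sk 0)) (sk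
    0))) (s1 (s2 (sk 0) (s0 (s2 (s0 (s0 (sk 0) (sk 0)) (sk 0)) (s1 lf (s1 lf (sk 0)))) (s1 (s1
    (s2 (sk 0) lf) (sk 0)) (sk 0)))) (sk 0)))) (s1 (s2 (s2 (s0 lf (s0 lf (s1 lf (s0 lf (s1 lf
    (s2 (sk 0) lf)))))) lf) (s0 lf lf)) (s2 (s0 (s2 (s0 (s1 lf (s2 (s1 lf (s2 (sk 0) lf)) lf))
    (s1 (s0 lf (s2 lf lf)) (s2 (sk 0) (s0 lf (s1 lf (s2 (sk 0) lf)))))) lf) (s1 (s2 (s0 (s2 (s1
    (s2 (sk 0) lf) (sk 0)) lf) (s2 (sk 0) (s1 lf (s2 (sk 0) lf)))) lf) (s2 (s2 (sk 0) (s2 (sk 0)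
    (s0 (s0 lf (s1 lf (sk 0))) (s1 lf (sk 0))))) (s0 lf (s2 lf lf))))) (s2 lf lf))))
    ⟨79228162514264428721067660411, 10203467905762, 79228162514264572449227643290,
    9323858603541, 79228162514264520552278812262, 98516241848731⟩ (by decide +kernel)

theorem R2b_39 : Hd (QR2b coA) 79228162514264408314131848887 10203467905762
    79228162514264591096944850372 9323858603541 79228162514264471294157887896 49258120924366 :=
  okR2b coA (s2 (sk 0) (s1 (s2 (sk 0) (s0 (s0 (s0 (s1 (s2 (s1 lf (sk 0)) lf) (s0 (s1 (s1 (s2 (sk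
    0) lf) (sk 0)) (sk 0)) (sk 0))) (s1 (s2 (sk 0) (s1 lf (s1 lf (sk 0)))) (sk 0))) (s1 (s1 (s2
    (sk 0) (s2 (s0 (sk 0) (sk 0)) lf)) (sk 0)) (sk 0))) (sk 0))) (sk 0)))
    ⟨79228162514264408314131848887, 10203467905762, 79228162514264591096944850372,
    9323858603541, 79228162514264471294157887896, 49258120924366⟩ (by decide +kernel)

theorem R2b_40 : Hd (QR2b coA) 79228162514264408314131848887 10203467905762
    79228162514264586435015548601 4661929301771 79228162514264569810399736628 49258120924366 :=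
  okR2b coA (s2 (s0 (s2 (s0 (s1 lf (s2 (s1 lf (s2 (sk 0) (s0 lf (s0 lf (sk 0))))) lf)) (s1 (s2
    lf lf) (s0 (s2 (s1 (s2 (sk 0) lf) (sk 0)) lf) (s2 (sk 0) (s1 lf (s2 (sk 0) lf)))))) lf) (s1
    (s2 (s0 (s2 (s1 lf (s0 (s1 lf (sk 0)) (sk 0))) lf) (s0 (s2 (s1 (s1 lf (sk 0)) (sk 0)) lf)
    (s2 (sk 0) (s1 lf (s2 (sk 0) lf))))) lf) (s2 (s2 (sk 0) (s0 (s0 (s1 lf (s2 (sk 0) lf)) (s1
    (s2 (sk 0) lf) (sk 0))) (s0 (s1 (s2 (sk 0) lf) (sk 0)) (sk 0)))) (s0 lf (s1 lf (s2 (s0 lf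
    (s2 (sk 0) lf)) lf)))))) (s2 lf lf))
    ⟨79228162514264408314131848887, 10203467905762, 79228162514264586435015548601,
    4661929301771, 79228162514264569810399736628, 49258120924366⟩ (by decide +kernel)

theorem R2b_41 : Hd (QR2b coA) 79228162514264408314131848887 10203467905762
    79228162514264595758874152143 4661929301771 79228162514264569810399736628 49258120924366 :=
  okR2b coA (s2 (s0 (s1 (s2 (s2 (sk 0) (s0 (s0 (s1 lf (s1 (s2 (sk 0) lf) (sk 0))) (s1 (s2 (sk 0)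
    lf) (sk 0))) (s1 (s1 (s2 (sk 0) lf) (sk 0)) (sk 0)))) (s2 (s0 lf (s1 lf (s2 (s0 (s0 lf (sk
    0)) (sk 0)) lf))) lf)) (s2 (sk 0) (s2 (s0 (s1 (s2 (s0 (s1 lf (sk 0)) (sk 0)) lf) (s0 (sk 0)
    (sk 0))) (s0 (s1 (s1 (s2 (sk 0) lf) (sk 0)) (sk 0)) (sk 0))) (s2 (s1 lf (s0 (s0 lf (s1 lf
    (sk 0))) (s0 (s1 lf (sk 0)) (sk 0)))) (s0 lf lf))))) (s2 (sk 0) (s1 (s0 (s2 (s1 (s1 lf (s2
    (sk 0) lf)) (s0 (s1 (s2 (sk 0) lf) (sk 0)) (sk 0))) lf) (s1 (s2 (s1 (s2 (sk 0) lf) (sk 0))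
    lf) (s2 (sk 0) (s2 (s2 (sk 0) lf) lf)))) (s2 (sk 0) (s0 (s1 (s2 (s0 (s1 lf (sk 0)) (sk 0))
    lf) (s1 (s2 (sk 0) (s2 (sk 0) lf)) (sk 0))) (s1 (s2 (sk 0) (s0 lf (s1 lf (sk 0)))) (sk
    0))))))) (s2 (s2 (s0 lf (s0 lf (s1 lf (s1 lf (s1 lf (s2 (s0 lf (sk 0)) lf)))))) lf) (s0 lf
    lf)))
    ⟨79228162514264408314131848887, 10203467905762, 79228162514264595758874152143,
    4661929301771, 79228162514264569810399736628, 49258120924366⟩ (by decide +kernel)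

theorem R2b_42 : Hd (QR2b coA) 79228162514264428721067660411 10203467905762
    79228162514264591096944850372 9323858603541 79228162514264471294157887896 49258120924366 :=
  okR2b coA (sk 0)
    ⟨79228162514264428721067660411, 10203467905762, 79228162514264591096944850372,
    9323858603541, 79228162514264471294157887896, 49258120924366⟩ (by decide +kernel)

theorem R2b_43 : Hd (QR2b coA) 79228162514264428721067660411 10203467905762
    79228162514264586435015548601 4661929301771 79228162514264569810399736628 49258120924366 :=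
  okR2b coA (s2 (s0 (s1 (s2 (s2 (sk 0) (s0 (s0 (s1 lf (s2 (sk 0) lf)) (s1 (s2 (sk 0) lf) (sk
    0))) (s0 (s1 (s2 (sk 0) lf) (sk 0)) (sk 0)))) (s0 lf (s0 lf (s1 lf (s2 (s2 (sk 0) lf)
    lf))))) (s2 (sk 0) (s0 (s2 (s1 (s0 lf (s2 (sk 0) lf)) (s2 (sk 0) (s2 (sk 0) lf))) lf) (s1
    (s2 (s2 (sk 0) lf) lf) (s2 (sk 0) lf))))) (s2 (sk 0) (s1 (s2 (s0 (s2 (s1 lf (sk 0)) lf) (s1
    (s2 (sk 0) lf) (sk 0))) lf) (s2 (sk 0) (s0 (s1 lf (s2 (s0 (s1 lf (sk 0)) (sk 0)) lf)) (s1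
    (s2 (s2 (sk 0) lf) lf) (s2 (sk 0) (s2 (sk 0) lf)))))))) (s2 (s0 lf (s2 lf lf)) lf))
    ⟨79228162514264428721067660411, 10203467905762, 79228162514264586435015548601,
    4661929301771, 79228162514264569810399736628, 49258120924366⟩ (by decide +kernel)

theorem R2b_44 : Hd (QR2b coA) 79228162514264428721067660411 10203467905762
    79228162514264595758874152143 4661929301771 79228162514264569810399736628 49258120924366 :=
  okR2b coA (s2 (s2 (sk 0) (s2 (sk 0) (s0 (s1 (s1 (s2 (s0 (s0 lf (s1 lf (sk 0))) (sk 0)) lf) (s2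
    (sk 0) (s0 (s0 lf (s2 (sk 0) lf)) (s0 (s1 lf (sk 0)) (sk 0))))) (s0 (s0 (sk 0) (sk 0)) (sk
    0))) (s0 (s1 (s1 (s2 (sk 0) (s2 (sk 0) lf)) (sk 0)) (sk 0)) (sk 0))))) (s2 (s1 (s2 (s0 (s0
    lf lf) (s2 (s0 (s1 lf (s0 lf (s2 (sk 0) lf))) (s1 (s1 lf (s2 (sk 0) lf)) (s1 (s2 (sk 0) lf)
    (sk 0)))) lf)) lf) (s0 (s2 (s0 (s2 (s1 lf (s1 (s2 (sk 0) lf) (sk 0))) lf) (s1 (s2 (s2 (sk 0)
    (s0 lf (s1 lf (sk 0)))) lf) (s2 (sk 0) (s1 lf (s2 (sk 0) lf))))) lf) (s2 (s2 (sk 0) (s0 (s1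
    (s0 lf (s1 lf (s2 (sk 0) lf))) (s1 (s2 (sk 0) lf) (sk 0))) (s1 (s2 (sk 0) (s0 lf (s1 lf (sk
    0)))) (sk 0)))) (s1 lf (s0 lf (s2 (s1 lf (s2 (sk 0) lf)) lf)))))) (s2 lf lf)))
    ⟨79228162514264428721067660411, 10203467905762, 79228162514264595758874152143,
    4661929301771, 79228162514264569810399736628, 49258120924366⟩ (by decide +kernel)

theorem R2b_45 : Hd (QR2b coA) 79228162514264418517599754649 20406935811523
    79228162514264609744662057454 9323858603541 79228162514264471294157887896 49258120924366 :=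
  okR2b coA (sk 0)
    ⟨79228162514264418517599754649, 20406935811523, 79228162514264609744662057454,
    9323858603541, 79228162514264471294157887896, 49258120924366⟩ (by decide +kernel)

theorem R2b_46 : Hd (QR2b coA) 79228162514264408314131848887 10203467905762
    79228162514264602751768104797 2330964650886 79228162514264569810399736628 49258120924366 :=
  okR2b coA (s0 (s2 (s2 (sk 0) (s1 (s2 (sk 0) (s2 (sk 0) (s0 (s0 lf (s1 lf (sk 0))) (s1 (s2 (sk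
    0) lf) (sk 0))))) (sk 0))) (s2 (s2 (s0 (s1 lf (s1 lf (s2 (s2 (sk 0) lf) lf))) (s1 (s0 lf (s2
    (s2 lf lf) lf)) (s1 (s2 (s0 (s1 lf (sk 0)) (sk 0)) lf) (s2 (sk 0) (s2 (s0 (sk 0) (sk 0))
    lf))))) lf) lf)) (s2 (sk 0) (s2 (s0 (s2 (s1 (s2 (s1 (s2 (sk 0) lf) (sk 0)) lf) (s2 (sk 0)
    (s1 (s2 (sk 0) lf) (sk 0)))) lf) (s2 (s2 (sk 0) (s1 (s1 lf (s2 (sk 0) lf)) (sk 0))) (s1 lf
    (s0 lf (s1 lf (s2 (s2 (sk 0) lf) lf)))))) lf)))
    ⟨79228162514264408314131848887, 10203467905762, 79228162514264602751768104797,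
    2330964650886, 79228162514264569810399736628, 49258120924366⟩ (by decide +kernel)

theorem R2b_47 : Hd (QR2b coA) 79228162514264408314131848887 10203467905762
    79228162514264607413697406569 2330964650886 79228162514264569810399736628 49258120924366 :=
  okR2b coA (s2 (sk 0) (s2 (s0 (s1 (s2 (s2 (sk 0) (s0 (s0 (s1 lf (s0 (sk 0) (sk 0))) (s1 lf (sk
    0))) (s0 (sk 0) (sk 0)))) (s0 lf (s1 lf (s2 (s2 (sk 0) lf) lf)))) (s2 (sk 0) (s1 (s2 (s2 (sk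
    0) (s0 lf (sk 0))) lf) (s2 (sk 0) (s0 lf (s2 (sk 0) lf)))))) (s2 (sk 0) (s1 (s0 (s2 (s0 (s1
    lf (s2 (sk 0) lf)) (s1 (s2 (sk 0) lf) (sk 0))) lf) (s0 (s2 (s1 (s2 (sk 0) lf) (sk 0)) lf)
    (s2 (sk 0) (s1 lf (s2 (sk 0) lf))))) (s2 (sk 0) (s0 (s0 (s1 lf (s2 (sk 0) lf)) (s1 (s2 (sk
    0) lf) (sk 0))) (s1 (s2 (sk 0) (s2 (sk 0) lf)) (sk 0))))))) (s2 (s0 lf (s0 lf (s0 lf (s1 lf
    (s1 lf (s1 lf (s2 (s2 (sk 0) lf) lf))))))) lf)))
    ⟨79228162514264408314131848887, 10203467905762, 79228162514264607413697406569,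
    2330964650886, 79228162514264569810399736628, 49258120924366⟩ (by decide +kernel)

theorem R2b_48 : Hd (QR2b coA) 79228162514264428721067660411 10203467905762
    79228162514264605082732755683 4661929301771 79228162514264545181339274445 24629060462183 :=
  okR2b coA (sk 0)
    ⟨79228162514264428721067660411, 10203467905762, 79228162514264605082732755683,
    4661929301771, 79228162514264545181339274445, 24629060462183⟩ (by decide +kernel)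

theorem R2b_49 : Hd (QR2b coA) 79228162514264428721067660411 10203467905762
    79228162514264605082732755683 4661929301771 79228162514264582124929967719 12314530231092 :=
  okR2b coA (s1 (s0 (s0 (s1 (s2 (s1 (s2 (sk 0) (s2 (sk 0) lf)) (sk 0)) lf) (s2 (sk 0) (s2 (s0
    (s1 lf (s2 (sk 0) lf)) (s1 (s2 (sk 0) lf) (sk 0))) lf))) (s2 (sk 0) (s1 (s1 lf (s2 (s2 (s0
    lf (sk 0)) lf) lf)) (s0 (s2 (s1 (s2 (sk 0) lf) (sk 0)) lf) (s2 (sk 0) (s1 lf (s1 lf (s2 (sk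
    0) lf)))))))) (s2 (sk 0) (s1 (s0 (s2 (s2 (sk 0) (s0 lf (s1 lf (sk 0)))) lf) (s0 (s2 (s1 (s2
    (sk 0) lf) (sk 0)) lf) (s2 (sk 0) (s1 lf (s2 (s2 (sk 0) lf) lf))))) (s2 (sk 0) (s0 (s2 (s1
    (s0 lf (s1 lf (sk 0))) (sk 0)) lf) (s2 (sk 0) (s1 lf (s2 (sk 0) (s1 lf (s0 (sk 0) (sk
    0))))))))))) (s2 (sk 0) (s2 (sk 0) (s0 (s1 (s0 (s1 (s2 (s2 (sk 0) lf) lf) (s2 (sk 0) (s0 lf
    lf))) (s2 (sk 0) (s1 lf (s0 (s1 lf (sk 0)) (sk 0))))) (sk 0)) (s0 (s0 (s1 (s1 (s1 (s2 (sk 0)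
    lf) (sk 0)) (sk 0)) (sk 0)) (sk 0)) (sk 0))))))
    ⟨79228162514264428721067660411, 10203467905762, 79228162514264605082732755683,
    4661929301771, 79228162514264582124929967719, 12314530231092⟩ (by decide +kernel)

theorem R2b_50 : Hd (QR2b coA) 79228162514264428721067660411 10203467905762
    79228162514264605082732755683 4661929301771 79228162514264606753990429903 12314530231092 :=
  okR2b coA (s0 (s2 (s1 lf (s2 (s1 lf (s0 (s1 lf (s2 (s0 (s1 lf (sk 0)) (sk 0)) lf)) (s1 (s2 (s1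
    (s2 (sk 0) lf) (sk 0)) lf) (s2 (sk 0) (s1 lf (s2 (sk 0) lf)))))) lf)) lf) (s2 (s1 (s0 lf lf)
    (s1 (s2 (s0 (s1 lf (s2 (s2 (s0 (s0 lf (sk 0)) (sk 0)) lf) lf)) (s2 (s0 (s1 lf (s1 (s2 (sk 0)
    lf) (sk 0))) (s1 (s2 (sk 0) lf) (sk 0))) lf)) lf) (s2 (s2 (sk 0) (s0 (s1 (s1 lf (s2 (sk 0)
    lf)) (s0 (s1 (s2 (sk 0) lf) (sk 0)) (sk 0))) (s1 (s2 (sk 0) (s0 lf (s1 lf (sk 0)))) (sk
    0)))) (s0 lf (s1 lf (s2 (s2 (s1 (s2 (sk 0) lf) (sk 0)) lf) lf)))))) lf))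
    ⟨79228162514264428721067660411, 10203467905762, 79228162514264605082732755683,
    4661929301771, 79228162514264606753990429903, 12314530231092⟩ (by decide +kernel)

theorem R2b_51 : Hd (QR2b coA) 79228162514264418517599754649 20406935811523
    79228162514264614406591359225 4661929301771 79228162514264569810399736628 49258120924366 :=
  okR2b coA (s1 (s2 (sk 0) (s0 (s0 (s1 (s2 (s2 (sk 0) (s1 (s2 (sk 0) (s2 (sk 0) (s0 lf (sk 0))))
    (sk 0))) (s2 (s0 lf (s1 lf (s2 (s2 (sk 0) lf) lf))) lf)) (s1 (s2 (sk 0) (s2 (s2 (s2 (sk 0)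
    (s0 lf (sk 0))) lf) lf)) (sk 2))) (s1 (s2 (sk 0) (s2 (s0 (s2 (s1 (s1 lf (s2 (sk 0) lf)) (s1
    (s2 (sk 0) lf) (sk 0))) lf) (s2 (s1 (s2 (sk 0) lf) (sk 0)) lf)) lf)) (sk 2))) (s1 (s2 (sk 0)
    (s0 (s2 (s0 (s1 (s2 (s1 (s2 (sk 0) (s2 (sk 0) lf)) (sk 0)) lf) (s0 (s1 (s2 (sk 0) lf) (sk
    2)) (sk 2))) (s1 (s2 (sk 0) (s0 lf (s1 lf (sk 2)))) (sk 2))) lf) (s0 (s0 (s1 (s1 (s2 (s1 (s2
    (sk 0) lf) (sk 2)) lf) (sk 2)) (sk 2)) (sk 2)) (sk 2)))) (sk 2)))) (sk 2))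
    ⟨79228162514264418517599754649, 20406935811523, 79228162514264614406591359225,
    4661929301771, 79228162514264569810399736628, 49258120924366⟩ (by decide +kernel)

end FX.DA
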