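import Pool.Agent.H11.FX.CoAB

/-! Branch and bound data, generated. -/

set_option maxRecDepth 100000

namespace FX.DA

open H41FT H41FT.Tr

theorem R2b_52 : Hd (QR2b coA) 79228162514264449128003471933 10203467905762
    79228162514264507182217418505 37295434414163 79228162514264520552278812262 98516241848731 :=
  okR2b coA (s1 (s0 (sk 1) (s1 (sk 1) (s2 (s2 lf lf) (s2 lf lf)))) (s1 (s0 (s2 (s2 (s0 lf lf)
    lf) (s2 lf lf)) (s2 (s2 (s1 lf (s2 (s0 lf (s1 lf (sk 0))) lf)) lf) (s2 lf lf))) (s2 (s1 (s2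
    (s0 (s2 (s0 (s2 lf lf) (s1 lf (sk 0))) lf) (s2 (sk 0) (s1 (s0 lf lf) (s2 (sk 0) lf)))) (s2
    lf lf)) (s2 (s0 (s2 (sk 0) (s0 (s1 lf (s0 lf (sk 0))) (s0 (s1 lf (sk 0)) (sk 0)))) (sk 0))
    (s2 (s0 lf (s2 (s1 lf (sk 0)) lf)) lf))) (s2 (s2 lf lf) (s0 lf lf)))))
    ⟨79228162514264449128003471933, 10203467905762, 79228162514264507182217418505,
    37295434414163, 79228162514264520552278812262, 98516241848731⟩ (by decide +kernel)

theorem R2b_53 : Hd (QR2b coA) 79228162514264469534939283457 10203467905762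
    79228162514264507182217418505 37295434414163 79228162514264520552278812262 98516241848731 :=
  okR2b coA (s1 (s2 (s1 (s2 lf lf) (s0 (s2 (s0 lf lf) lf) (s2 (s1 lf (s2 (s0 lf (s1 lf (sk 0)))
    lf)) lf))) (s2 (s2 lf lf) (s0 (s1 lf lf) (s1 lf lf)))) (s1 (s2 (s0 (s2 (s1 (s2 (s0 lf (s1 lf
    (sk 0))) lf) (s2 (sk 0) (s0 lf (s1 lf (sk 0))))) (s2 lf lf)) (s2 (s1 (s2 (sk 0) (s0 lf (s1
    lf (sk 0)))) (sk 0)) (s2 (s0 lf (s1 lf (s2 (sk 0) lf))) lf))) (s2 (s2 lf lf) (s0 lf lf)))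
    (s2 (s2 (sk 0) (s0 (s1 (s2 (s0 lf (s1 lf (sk 0))) lf) (s2 (sk 0) (s0 lf (s1 lf (s2 (sk 0)
    lf))))) (s2 (s2 (sk 0) (s2 (sk 0) (sk 0))) (s1 (s2 lf lf) (s2 (sk 0) (s0 lf (s1 lf (sk
    0)))))))) (s2 (s2 (s0 lf (s1 lf lf)) lf) (s2 lf lf)))))
    ⟨79228162514264469534939283457, 10203467905762, 79228162514264507182217418505,
    37295434414163, 79228162514264520552278812262, 98516241848731⟩ (by decide +kernel)

theorem R2b_54 : Hd (QR2b coA) 79228162514264489941875094979 10203467905762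
    79228162514264488534500211423 18647717207082 79228162514264520552278812262 98516241848731 :=
  okR2b coA (s0 (s1 (s2 (s2 (s2 lf lf) lf) (s2 lf lf)) (s2 (s2 (s1 (s2 (s0 (s2 lf lf) (s2 (sk 0)
    lf)) lf) (s2 (sk 0) (s0 lf (s1 lf (sk 0))))) (s2 lf lf)) (s2 lf lf))) (s2 (s1 (s2 (s2 (s1 lf
    (s0 (s0 lf (s1 lf (sk 0))) (s0 (s1 lf (sk 0)) (sk 0)))) lf) lf) (s2 (s1 (s2 (sk 0) (s2 (s0
    lf (sk 0)) lf)) (sk 0)) (s2 (s0 lf (s1 lf (s1 lf (sk 0)))) lf))) (s2 (s2 lf lf) (s1 lf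
    lf))))
    ⟨79228162514264489941875094979, 10203467905762, 79228162514264488534500211423,
    18647717207082, 79228162514264520552278812262, 98516241848731⟩ (by decide +kernel)

theorem R2b_55 : Hd (QR2b coA) 79228162514264510348810906503 10203467905762
    79228162514264488534500211423 18647717207082 79228162514264520552278812262 98516241848731 :=
  okR2b coA (s1 (s2 (s0 (s2 (s1 (s2 (s0 (s1 lf (sk 0)) (sk 0)) lf) (s2 (sk 0) (s0 (s2 (sk 0) lf)
    (sk 0)))) (s2 lf lf)) (s2 (s0 (s1 (s1 (s2 (sk 0) lf) (sk 0)) (sk 0)) (sk 0)) (s2 (s1 lf (s2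
    (s0 lf (sk 0)) lf)) lf))) (s2 (s2 lf lf) (s0 lf lf))) (s2 (s2 (sk 0) (s0 (s1 (s2 (s0 lf (s1
    lf (sk 0))) lf) (s2 (sk 0) (s0 lf lf))) (s2 (sk 0) (s1 (s2 lf lf) (s2 (sk 0) (s0 lf lf))))))
    (s2 (s2 (s2 lf lf) lf) (s2 lf lf))))
    ⟨79228162514264510348810906503, 10203467905762, 79228162514264488534500211423,
    18647717207082, 79228162514264520552278812262, 98516241848731⟩ (by decide +kernel)

theorem R2b_56 : Hd (QR2b coA) 79228162514264500145343000741 20406935811523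
    79228162514264525829934625587 18647717207082 79228162514264471294157887896 49258120924366 :=
  okR2b coA (s2 (s2 (sk 0) (sk 0)) (s0 (s0 (s1 (s1 (s2 (s0 lf (s2 (sk 0) lf)) lf) (s1 (s2 (s2
    (sk 0) lf) lf) (s2 (sk 0) lf))) (s1 (s2 (sk 0) (s2 (sk 0) (s0 lf (s0 lf (sk 0))))) (sk 0)))
    (s1 (s1 (s2 (s2 (sk 0) (s2 (sk 0) (sk 0))) (s0 lf lf)) (s2 (sk 0) (s2 (sk 0) (s0 lf lf))))
    (sk 0))) (s1 (s0 (s1 (s2 (sk 0) (s2 (sk 0) (s0 lf lf))) (sk 0)) (sk 0)) (sk 0))))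
    ⟨79228162514264500145343000741, 20406935811523, 79228162514264525829934625587,
    18647717207082, 79228162514264471294157887896, 49258120924366⟩ (by decide +kernel)

theorem R2b_57 : Hd (QR2b coA) 79228162514264489941875094979 10203467905762
    79228162514264525829934625587 18647717207082 79228162514264569810399736628 49258120924366 :=
  okR2b coA (s1 (s2 (s2 (s0 lf (s0 lf lf)) lf) (s2 lf lf)) (s2 (s0 (s2 (s1 lf (s2 (s0 lf (s1 lf
    (sk 0))) lf)) lf) (s2 (s1 (s1 lf (s0 lf (s2 (sk 0) lf))) (s2 (sk 0) (s1 lf (s0 lf (sk 0)))))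
    (s2 lf lf))) (s2 lf lf)))
    ⟨79228162514264489941875094979, 10203467905762, 79228162514264525829934625587,
    18647717207082, 79228162514264569810399736628, 49258120924366⟩ (by decide +kernel)

theorem R2b_58 : Hd (QR2b coA) 79228162514264510348810906503 10203467905762
    79228162514264525829934625587 18647717207082 79228162514264569810399736628 49258120924366 :=
  okR2b coA (s1 (s2 (s0 (s2 (s1 lf (s0 lf (s1 lf (s2 (sk 0) lf)))) lf) (s1 (s2 (s0 lf (s1 lf (s2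
    (sk 0) lf))) lf) (s2 (s2 (sk 0) (s0 lf (s1 lf (sk 0)))) lf))) (s2 lf lf)) (s2 (s2 (s2 (sk 0)
    (s1 (s0 (s0 lf (s1 lf (sk 0))) (sk 0)) (sk 0))) (s0 (s1 lf (s2 (s0 lf (s1 lf (s2 (sk 0)
    lf))) lf)) (s0 (s2 (s1 lf (s1 (s2 (sk 0) lf) (sk 0))) lf) (s1 (s1 lf (s2 (s2 (sk 0) lf) lf))
    (s2 (sk 0) (s0 lf (s2 lf lf))))))) (s2 (s0 lf (s0 lf lf)) lf)))
    ⟨79228162514264510348810906503, 10203467905762, 79228162514264525829934625587,
    18647717207082, 79228162514264569810399736628, 49258120924366⟩ (by decide +kernel)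

theorem R2b_59 : Hd (QR2b coA) 79228162514264449128003471933 10203467905762
    79228162514264563125369039749 18647717207082 79228162514264471294157887896 49258120924366 :=
  okR2b coA (s2 (sk 0) (s1 (s0 (s1 (s2 (s0 (s1 lf (s2 (sk 0) lf)) (s1 (s1 lf (sk 0)) (sk 0)))
    lf) (s2 (sk 0) (s0 (s1 lf (s2 (sk 0) lf)) (s2 (sk 0) (s1 lf (sk 0)))))) (s2 (sk 0) (s1 (s2
    (s1 lf (sk 0)) lf) (s0 (s1 (s2 (sk 0) lf) (sk 0)) (sk 0))))) (s2 (sk 0) (sk 0))))
    ⟨79228162514264449128003471933, 10203467905762, 79228162514264563125369039749,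
    18647717207082, 79228162514264471294157887896, 49258120924366⟩ (by decide +kernel)

theorem R2b_60 : Hd (QR2b coA) 79228162514264449128003471933 10203467905762
    79228162514264563125369039749 18647717207082 79228162514264569810399736628 49258120924366 :=
  okR2b coA (s1 (s2 (s1 (s2 lf lf) (s2 (s0 lf (s1 lf (s2 (s2 (sk 0) lf) lf))) lf)) (s2 lf lf))
    (s1 (s2 (s0 (s2 (s0 (s1 lf (s2 (s0 (s1 lf (sk 0)) (sk 0)) lf)) (s1 (s1 lf (s2 (sk 0) lf))
    (s2 (sk 0) (s0 lf (s2 (sk 0) lf))))) lf) (s2 (s2 (sk 0) (s0 (s1 lf (s0 (s1 lf (sk 0)) (sk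
    0))) (s1 (s2 (sk 0) lf) (sk 0)))) (s0 lf (s2 (s2 lf lf) lf)))) (s2 lf lf)) (s2 (s0 (s2 (s0
    (s1 (s1 (s2 (sk 0) (s2 (sk 0) lf)) (sk 0)) (sk 0)) (sk 0)) (s2 (s0 (s1 lf (s1 lf (s2 (sk 0)
    lf))) (s1 lf (s1 (s2 (sk 0) lf) (sk 0)))) lf)) (s2 (sk 0) (s1 (s2 (s0 (s1 lf (s2 (sk 0) lf))
    (s1 (s2 (sk 0) lf) (sk 0))) lf) (s2 (sk 0) (s2 (s0 (s1 lf (s2 (sk 0) lf)) (s1 (s2 (sk 0) lf)
    (sk 0))) lf))))) (s2 (s0 lf (s0 lf lf)) lf))))
    ⟨79228162514264449128003471933, 10203467905762, 79228162514264563125369039749,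
    18647717207082, 79228162514264569810399736628, 49258120924366⟩ (by decide +kernel)

theorem R2b_61 : Hd (QR2b coA) 79228162514264469534939283457 10203467905762
    79228162514264553801510436208 9323858603541 79228162514264520552278812262 98516241848731 :=
  okR2b coA (s2 (s0 (s1 (s2 (sk 0) (s1 (s0 (s2 (sk 0) (s2 (sk 0) lf)) (sk 0)) (sk 0))) (sk 0))
    (sk 0)) (s2 (s0 (s1 (s2 (s2 lf lf) lf) (s2 (s0 (s2 (s0 (s1 lf (sk 0)) (sk 0)) lf) (s2 (sk 0)
    (s1 lf (s1 lf (sk 0))))) lf)) (s1 (s2 (s0 (s1 lf (s2 (sk 0) lf)) (s2 (sk 0) lf)) lf) (s1 (s2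
    (s0 (s2 (sk 0) (s2 (sk 0) lf)) (sk 0)) lf) (s2 (sk 0) (s2 (s0 lf (s2 (sk 0) lf)) lf))))) (s2
    (s0 lf lf) lf)))
    ⟨79228162514264469534939283457, 10203467905762, 79228162514264553801510436208,
    9323858603541, 79228162514264520552278812262, 98516241848731⟩ (by decide +kernel)

theorem R2b_62 : Hd (QR2b coA) 79228162514264469534939283457 10203467905762
    79228162514264572449227643290 9323858603541 79228162514264520552278812262 98516241848731 :=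
  okR2b coA (s2 (sk 0) (s2 (s2 (s0 (s2 (sk 0) (s2 (sk 0) (s2 (sk 0) (sk 0)))) (sk 0)) (s1 (s0
    (s2 (s1 (s0 lf (s0 lf (s2 (sk 0) lf))) (s2 (sk 0) (s0 lf (s1 lf (sk 0))))) lf) (s1 (s2 (s2
    (sk 0) (s0 lf (s0 (sk 0) (sk 0)))) lf) (s2 (sk 0) (s2 (s0 (s0 lf (s1 lf (sk 0))) (s0 (s1 lf
    (sk 0)) (sk 0))) lf)))) (s2 (sk 0) (s0 (s1 (s2 (s0 (s0 lf (s1 lf (sk 0))) (s0 (s1 lf (sk 0))
    (sk 0))) lf) (s2 (sk 0) (s0 (s1 lf (s2 (sk 0) lf)) (s1 (s2 (sk 0) lf) (sk 0))))) (s1 (s2 (sk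
    0) (s0 (s0 lf (s1 lf (sk 0))) (s0 (s1 lf (sk 0)) (sk 0)))) (sk 0)))))) (s1 (s2 (s2 lf lf)
    lf) (s2 (s2 (s0 (s0 lf (s0 lf (s2 lf lf))) (s0 (s1 lf (s1 lf (s2 (s2 (sk 0) lf) lf))) (s1 lf
    (s2 (s1 (s2 (sk 0) lf) (sk 0)) lf)))) lf) lf))))
    ⟨79228162514264469534939283457, 10203467905762, 79228162514264572449227643290,
    9323858603541, 79228162514264520552278812262, 98516241848731⟩ (by decide +kernel)

theorem R2b_63 : Hd (QR2b coA) 79228162514264500145343000741 20406935811523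
    79228162514264563125369039749 18647717207082 79228162514264471294157887896 49258120924366 :=
  okR2b coA (sk 0)
    ⟨79228162514264500145343000741, 20406935811523, 79228162514264563125369039749,
    18647717207082, 79228162514264471294157887896, 49258120924366⟩ (by decide +kernel)

theorem R2b_64 : Hd (QR2b coA) 79228162514264489941875094979 10203467905762
    79228162514264553801510436208 9323858603541 79228162514264569810399736628 49258120924366 :=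
  okR2b coA (s2 (s0 (s1 (s2 (s2 (sk 0) (s0 (s1 lf (s1 lf (sk 0))) (s0 (s1 lf (sk 0)) (sk 0))))
    (s2 lf lf)) (s2 (sk 0) (s0 (s2 (s1 lf (s1 (s2 (sk 0) lf) (sk 0))) lf) (s2 (s1 (s2 (sk 0) lf)
    (sk 0)) lf)))) (s2 (sk 0) (s1 (s2 (s1 (s0 lf lf) (s2 (sk 0) (s0 lf lf))) lf) (s0 (s2 (sk 0)
    (s1 lf (s1 lf (s2 (sk 0) lf)))) (s2 (sk 0) (s1 (s1 lf (s2 (sk 0) lf)) (s2 (sk 0) (s2 lf
    lf)))))))) (s2 (s1 lf (s0 lf (s0 lf lf))) lf))
    ⟨79228162514264489941875094979, 10203467905762, 79228162514264553801510436208,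
    9323858603541, 79228162514264569810399736628, 49258120924366⟩ (by decide +kernel)

theorem R2b_65 : Hd (QR2b coA) 79228162514264489941875094979 10203467905762
    79228162514264572449227643290 9323858603541 79228162514264569810399736628 49258120924366 :=
  okR2b coA (s2 (s2 (sk 0) (s1 (s2 (sk 0) (s0 (s1 (s2 (s0 (s1 lf (sk 0)) (sk 0)) lf) (s2 (sk 0)
    (s0 (s1 lf (s0 lf (sk 0))) (s1 (s2 (sk 0) lf) (sk 0))))) (s0 (s1 (s2 (sk 0) (s1 lf (sk 0)))
    (sk 0)) (sk 0)))) (sk 0))) (s1 (s2 (s2 (s0 (s0 lf (s1 lf lf)) (s0 (s1 lf (s1 lf (s2 (s2 (sk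
    0) lf) lf))) (s2 (s1 lf (s1 (s2 (sk 0) lf) (sk 0))) lf))) lf) lf) (s0 (s2 (s2 (s1 (s2 (s0
    (s1 lf (s2 (sk 0) lf)) (s1 (s2 (sk 0) lf) (sk 0))) lf) (s2 (sk 0) (s0 (s1 lf (s2 (s0 (sk 0)
    (sk 0)) lf)) (s1 (s2 (s0 (s0 lf (sk 0)) (sk 0)) lf) (s0 (s1 (s2 (sk 0) lf) (sk 0)) (sk
    0)))))) (s2 lf lf)) lf) (s2 (s2 (s2 (sk 0) (s0 (s1 (s1 lf (s2 (s0 (s0 lf (sk 0)) (sk 0))
    lf)) (s1 (s1 (s2 (sk 0) lf) (sk 0)) (sk 0))) (s1 (s2 (sk 0) (s0 lf (s1 lf (sk 0)))) (sk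
    0)))) (s1 lf (s2 (s0 (s0 lf (s1 lf (s1 lf (s2 (sk 0) lf)))) (s1 (s0 lf (s1 lf (s2 (sk 0)
    lf))) (s2 (sk 0) (s0 lf (s0 lf (s2 (sk 0) lf)))))) lf))) lf))))
    ⟨79228162514264489941875094979, 10203467905762, 79228162514264572449227643290,
    9323858603541, 79228162514264569810399736628, 49258120924366⟩ (by decide +kernel)

theorem R2b_66 : Hd (QR2b coA) 79228162514264510348810906503 10203467905762
    79228162514264553801510436208 9323858603541 79228162514264569810399736628 49258120924366 :=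
  okR2b coA (s2 (s2 (sk 0) (s0 (s1 (s0 (s2 (s1 (s2 (sk 0) lf) (sk 0)) lf) (s2 (sk 0) (s1 lf (s2
    (sk 0) lf)))) (s2 (sk 0) (s2 (sk 0) (s0 (s1 lf (s0 (s1 lf (sk 0)) (sk 0))) (s1 (s1 lf (sk
    0)) (sk 0)))))) (s1 (s2 (sk 0) (s1 (s2 (s0 (s0 lf (sk 0)) (sk 0)) lf) (s0 (s2 (sk 0) (s2 (sk
    0) lf)) (sk 0)))) (sk 0)))) (s0 (s2 (s1 lf (s2 (s0 lf (s1 lf (s0 lf (s2 (s2 (sk 0) lf)
    lf)))) lf)) lf) (s2 (s0 (s1 lf (s2 (s1 lf (s2 (s0 (s1 lf (sk 0)) (sk 0)) lf)) lf)) (s2 (s1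
    lf (s1 (s2 (s2 (sk 0) lf) lf) (s2 (sk 0) (s1 lf (s2 (sk 0) lf))))) lf)) lf)))
    ⟨79228162514264510348810906503, 10203467905762, 79228162514264553801510436208,
    9323858603541, 79228162514264569810399736628, 49258120924366⟩ (by decide +kernel)

theorem R2b_67 : Hd (QR2b coA) 79228162514264510348810906503 10203467905762
    79228162514264572449227643290 9323858603541 79228162514264545181339274445 24629060462183 :=
  okR2b coA (sk 0)
    ⟨79228162514264510348810906503, 10203467905762, 79228162514264572449227643290,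
    9323858603541, 79228162514264545181339274445, 24629060462183⟩ (by decide +kernel)

theorem R2b_68 : Hd (QR2b coA) 79228162514264505247076953622 5101733952881
    79228162514264572449227643290 9323858603541 79228162514264582124929967719 12314530231092 :=
  okR2b coA (s1 (s1 (s2 (s2 (s2 (sk 0) (s0 lf (sk 0))) (s0 lf lf)) lf) (s2 (s2 (sk 0) (s0 (s1 lf
    (s2 (sk 0) lf)) (s2 (sk 0) (s1 lf (s2 (sk 0) lf))))) lf)) (s1 (s2 (s0 (s0 (s1 (s2 (sk 0) (s2
    (sk 0) lf)) (sk 0)) (sk 0)) (sk 0)) (s2 (s0 (s0 lf (s1 lf (s1 lf (s2 (sk 0) lf)))) (s2 (s1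
    (s2 (s0 (sk 0) (sk 0)) lf) (sk 0)) lf)) lf)) (s2 (sk 0) (s2 (s2 (sk 0) (s0 (s1 lf (s0 (s1 lf
    (sk 0)) (sk 0))) (s0 (s1 (s1 lf (sk 0)) (sk 0)) (sk 0)))) (s0 lf (s1 lf (s2 (s2 (s0 (s1 lf
    (sk 0)) (sk 0)) lf) lf)))))))
    ⟨79228162514264505247076953622, 5101733952881, 79228162514264572449227643290, 9323858603541,
    79228162514264582124929967719, 12314530231092⟩ (by decide +kernel)

theorem R2b_69 : Hd (QR2b coA) 79228162514264515450544859384 5101733952881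
    79228162514264572449227643290 9323858603541 79228162514264582124929967719 12314530231092 :=
  okR2b coA (s1 (s2 (s2 (sk 0) (s0 (s1 (s2 (s0 (s1 lf (sk 0)) (sk 0)) lf) (sk 0)) (s0 (s1 (s1
    (s2 (sk 0) lf) (sk 0)) (sk 0)) (sk 0)))) (s2 (s1 lf (s0 (s1 lf (s2 (s2 (sk 0) lf) lf)) (s0
    (s2 (s1 lf (sk 0)) lf) (s2 (sk 0) (s1 lf (s2 (sk 0) lf)))))) lf)) (s2 (sk 0) (s1 (s2 (s2 (sk
    0) (s0 (s1 lf (s0 (s1 lf (sk 0)) (sk 0))) (s0 (s1 (s2 (sk 0) lf) (sk 0)) (sk 0)))) (s0 lf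
    (s1 lf (s2 (s2 (s0 (s0 lf (sk 0)) (sk 0)) lf) lf)))) (s2 (sk 0) (s0 (s1 (s2 (s2 (s0 (s1 lf
    (sk 0)) (sk 0)) lf) lf) (s0 (s2 (s1 (s2 (sk 0) lf) (sk 0)) lf) (s2 (sk 0) lf))) (s1 (s2 (s0
    (s0 (s2 (sk 0) lf) (sk 0)) (sk 0)) lf) (s2 (sk 0) (s0 (s1 lf (s2 (sk 0) lf)) (s2 (sk 0) (s0
    lf (s1 lf (sk 0))))))))))))
    ⟨79228162514264515450544859384, 5101733952881, 79228162514264572449227643290, 9323858603541,
    79228162514264582124929967719, 12314530231092⟩ (by decide +kernel)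

theorem R2b_70 : Hd (QR2b coA) 79228162514264510348810906503 10203467905762
    79228162514264572449227643290 9323858603541 79228162514264606753990429903 12314530231092 :=
  okR2b coA (s2 (s1 lf (s0 lf (s0 lf lf))) lf)
    ⟨79228162514264510348810906503, 10203467905762, 79228162514264572449227643290,
    9323858603541, 79228162514264606753990429903, 12314530231092⟩ (by decide +kernel)

theorem R2b_71 : Hd (QR2b coA) 79228162514264479738407189218 40813871623046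
    79228162514264600420803453913 18647717207082 79228162514264471294157887896 49258120924366 :=
  okR2b coA (sk 0)
    ⟨79228162514264479738407189218, 40813871623046, 79228162514264600420803453913,
    18647717207082, 79228162514264471294157887896, 49258120924366⟩ (by decide +kernel)

end FX.DA
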