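import Pool.Agent.H11.FX.CoAB

/-! Branch and bound data, generated. -/

set_option maxRecDepth 100000

namespace FX.DA

open H41FT H41FT.Tr

theorem R2b_72 : Hd (QR2b coA) 79228162514264459331471377695 20406935811523
    79228162514264591096944850372 9323858603541 79228162514264545181339274445 24629060462183 :=
  okR2b coA (s2 (sk 0) (s0 (s1 (s0 (s2 (sk 0) (s1 (s0 (s1 lf (s1 lf (s2 (sk 0) lf))) (s2 (s0 (s1
    lf (sk 0)) (sk 0)) lf)) (s2 (sk 0) (s1 (s0 (s0 lf (s1 lf (sk 0))) (s0 (s2 (sk 0) lf) (sk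
    0))) (sk 0))))) (s1 (s2 (sk 0) (s2 (sk 0) (s0 (s1 lf (s0 (s1 lf (sk 0)) (sk 0))) (s1 (s2 (sk
    0) lf) (sk 0))))) (sk 0))) (sk 0)) (s0 (sk 0) (sk 0))))
    ⟨79228162514264459331471377695, 20406935811523, 79228162514264591096944850372,
    9323858603541, 79228162514264545181339274445, 24629060462183⟩ (by decide +kernel)

theorem R2b_73 : Hd (QR2b coA) 79228162514264449128003471933 10203467905762
    79228162514264586435015548601 4661929301771 79228162514264594439460198811 24629060462183 :=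
  okR2b coA (s0 (s2 (s1 lf (s2 (s0 lf (s1 lf (s2 (s2 (sk 0) lf) lf))) lf)) lf) (s2 (s2 (s0 (s1
    lf (s2 (s0 (s1 lf (s0 (sk 0) (sk 0))) (s1 (s2 (sk 0) lf) (sk 0))) lf)) (s1 (s0 lf (s1 lf (s2
    (s2 (sk 0) lf) lf))) (s1 (s2 (s0 (s2 (sk 0) lf) (sk 0)) lf) (s2 (sk 0) (s2 (s0 (s1 lf (sk
    0)) (sk 0)) lf))))) lf) lf))
    ⟨79228162514264449128003471933, 10203467905762, 79228162514264586435015548601,
    4661929301771, 79228162514264594439460198811, 24629060462183⟩ (by decide +kernel)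

theorem R2b_74 : Hd (QR2b coA) 79228162514264444026269519052 5101733952881
    79228162514264595758874152143 4661929301771 79228162514264582124929967719 12314530231092 :=
  okR2b coA (s1 (s0 (s2 (s1 (s2 (s2 (sk 0) (s1 lf (sk 0))) lf) (s2 (sk 0) (s1 lf (s2 (sk 0)
    lf)))) lf) (s2 (s2 (sk 0) (s1 (s0 lf (s1 lf (s2 (sk 0) lf))) (s1 (s2 (sk 0) lf) (sk 0))))
    lf)) (s1 (s2 (s0 (s0 (s1 (s2 (sk 0) (s2 (sk 0) lf)) (sk 0)) (sk 0)) (sk 0)) (s2 (s2 (s0 (s1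
    lf (s2 (sk 0) lf)) (s1 (s2 (sk 0) lf) (sk 0))) lf) lf)) (s2 (sk 0) (s2 (s2 (sk 0) (s0 (s1 lf
    (s2 (sk 0) lf)) (s0 (s1 (s1 lf (sk 0)) (sk 0)) (sk 0)))) (s0 lf (s0 lf (s1 lf (s2 (s2 (sk 0)
    lf) lf))))))))
    ⟨79228162514264444026269519052, 5101733952881, 79228162514264595758874152143, 4661929301771,
    79228162514264582124929967719, 12314530231092⟩ (by decide +kernel)

theorem R2b_75 : Hd (QR2b coA) 79228162514264454229737424814 5101733952881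
    79228162514264595758874152143 4661929301771 79228162514264582124929967719 12314530231092 :=
  okR2b coA (s1 (s2 (s1 (s2 (sk 0) (s2 (sk 0) (s0 (s0 lf (s1 lf (sk 0))) (s0 (s1 lf (sk 0)) (sk
    0))))) (sk 0)) (s2 (s0 (s1 lf (s0 lf (s1 lf (s2 (sk 0) lf)))) (s1 lf (s0 (s2 (s0 (s1 lf (sk
    0)) (sk 0)) lf) (s2 (sk 0) (s1 lf (s2 (sk 0) lf)))))) lf)) (s2 (sk 0) (s1 (s2 (s2 (sk 0) (s0
    (s0 (s1 lf (s1 lf (sk 0))) (s1 lf (sk 0))) (s0 (s1 (s2 (sk 0) lf) (sk 0)) (sk 0)))) (s0 lf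
    (s0 lf (s1 lf (s2 (s2 (sk 0) lf) lf))))) (s2 (sk 0) (s0 (s2 (s0 (s1 lf (s0 (s2 (sk 0) lf)
    (sk 0))) (s1 (s2 (sk 0) lf) (sk 0))) lf) (s1 (s2 (s0 (s0 (s2 (sk 0) lf) (sk 0)) (sk 0)) lf)
    (s2 (sk 0) (s2 (s0 (s0 lf (sk 0)) (sk 0)) lf))))))))
    ⟨79228162514264454229737424814, 5101733952881, 79228162514264595758874152143, 4661929301771,
    79228162514264582124929967719, 12314530231092⟩ (by decide +kernel)

theorem R2b_76 : Hd (QR2b coA) 79228162514264449128003471933 10203467905762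
    79228162514264595758874152143 4661929301771 79228162514264606753990429903 12314530231092 :=
  okR2b coA (s2 (s0 lf (s1 lf lf)) lf)
    ⟨79228162514264449128003471933, 10203467905762, 79228162514264595758874152143,
    4661929301771, 79228162514264606753990429903, 12314530231092⟩ (by decide +kernel)

theorem R2b_77 : Hd (QR2b coA) 79228162514264469534939283457 10203467905762
    79228162514264586435015548601 4661929301771 79228162514264594439460198811 24629060462183 :=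
  okR2b coA (s2 (s0 (s1 (s2 (s0 (s2 (s0 (s1 lf (s2 (sk 0) lf)) (s1 lf (sk 0))) lf) (s1 (s2 (s2
    (sk 0) (s0 lf lf)) lf) (s2 (sk 0) (s0 lf (s0 lf (s2 (sk 0) lf)))))) lf) (s2 (s2 (sk 0) (s0
    (s1 (s1 lf (s2 (sk 0) lf)) (s1 (s2 (sk 0) (s2 (sk 0) lf)) (sk 0))) (s1 (s2 (sk 0) (s0 lf (s1
    lf (sk 0)))) (sk 0)))) (s0 lf (s1 lf (s1 lf (s2 (s0 lf (s2 (sk 0) lf)) lf)))))) (s2 (s2 (sk
    0) (s1 (s0 (s1 lf (s2 (sk 0) (s0 lf (s2 (sk 0) lf)))) (s2 (sk 0) (s1 lf (s0 (s1 lf (sk 0))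
    (sk 0))))) (sk 0))) (s1 (s0 lf (s2 lf lf)) (s2 (s1 (s2 (s0 (s1 lf (s2 (sk 0) lf)) (s0 (s1 lf
    (sk 0)) (sk 0))) lf) (s0 (s0 (s2 (s1 (s1 lf (sk 0)) (sk 0)) lf) (s2 (sk 0) (s1 lf (s2 (sk 0)
    lf)))) (s2 (sk 0) (s2 (sk 0) (s0 lf (s1 lf (sk 0))))))) lf)))) (s2 lf lf))
    ⟨79228162514264469534939283457, 10203467905762, 79228162514264586435015548601,
    4661929301771, 79228162514264594439460198811, 24629060462183⟩ (by decide +kernel)

theorem R2b_78 : Hd (QR2b coA) 79228162514264469534939283457 10203467905762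
    79228162514264595758874152143 4661929301771 79228162514264582124929967719 12314530231092 :=
  okR2b coA (s2 (sk 0) (s1 (s0 (s0 (s2 (s1 (s2 (s1 (s2 (sk 0) lf) (sk 0)) lf) (s1 (s2 (sk 0) (s2
    (sk 0) lf)) (sk 0))) lf) (s1 (s2 (s2 (sk 0) (s1 lf (s2 (sk 0) lf))) lf) (s2 (sk 0) (s2 (s1
    lf (s2 (sk 0) lf)) lf)))) (s1 (s2 (s0 (s0 (s1 (s1 (s2 (sk 0) lf) (sk 0)) (sk 0)) (sk 0)) (sk
    0)) (s2 (s0 (s0 lf (s1 lf (s2 (sk 0) lf))) (s0 (s1 lf (s2 (sk 0) lf)) (s1 (s2 (sk 0) lf) (sk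
    0)))) lf)) (s2 (sk 0) (s0 (s1 (s2 (s2 (sk 0) (s0 lf (s0 lf (sk 0)))) lf) (s2 (sk 0) (s0 lf
    (s0 lf (s2 (sk 0) lf))))) (s2 (sk 0) (s1 (s0 lf (s1 lf (s2 (sk 0) lf))) (s2 (sk 0) (s0 lf
    (s1 lf (sk 0)))))))))) (s2 (sk 0) (s0 (s0 (s1 (s2 (s2 (sk 0) (s1 lf (sk 0))) lf) (s2 (sk 0)
    (s1 (s2 (s0 (s1 lf (sk 0)) (sk 0)) lf) (s0 (s1 (s2 (sk 0) lf) (sk 0)) (sk 0))))) (s2 (sk 0)
    (s1 (s1 (s0 lf lf) (s2 (sk 0) (s0 lf (s2 (sk 0) lf)))) (s0 (s1 (s1 (s2 (sk 0) lf) (sk 0))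
    (sk 0)) (sk 0))))) (s0 (s1 (s2 (sk 0) (s2 (sk 0) (s0 (s1 lf (s0 (s1 lf (sk 0)) (sk 0))) (s1
    (s1 lf (sk 0)) (sk 0))))) (sk 0)) (sk 0))))))
    ⟨79228162514264469534939283457, 10203467905762, 79228162514264595758874152143,
    4661929301771, 79228162514264582124929967719, 12314530231092⟩ (by decide +kernel)

theorem R2b_79 : Hd (QR2b coA) 79228162514264469534939283457 10203467905762
    79228162514264595758874152143 4661929301771 79228162514264606753990429903 12314530231092 :=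
  okR2b coA (s2 (s0 (s1 lf (s1 lf (s2 (s2 (s0 (s0 lf (s0 lf lf)) (s0 (s1 lf (s1 lf (s2 (sk 0)
    lf))) (s1 (s0 lf (s1 lf (s2 (sk 0) lf))) (s2 (sk 0) (s1 lf (s2 (sk 0) lf)))))) lf) lf))) (s2
    (s1 lf (s1 (s2 (s0 (s0 lf (s0 lf (s1 lf (s1 lf (s2 (sk 0) lf))))) (s0 (s1 lf (s2 (s0 (s1 lf
    (sk 0)) (sk 0)) lf)) (s1 (s2 (s2 (sk 0) lf) lf) (s2 (sk 0) (s0 lf (s2 (sk 0) lf)))))) lf)
    (s0 (s2 (s0 (s1 (s2 (s0 (s1 lf (sk 0)) (sk 0)) lf) (s2 (sk 0) (s2 (sk 0) lf))) (s1 (s2 (sk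
    0) (s1 lf (s2 (sk 0) lf))) (sk 0))) lf) (s1 (s2 (s0 (s2 (sk 0) (s2 (sk 0) lf)) (sk 0)) lf)
    (s2 (sk 0) (s2 (s0 (s1 lf (s2 (sk 0) lf)) (s1 (s2 (sk 0) lf) (sk 0))) lf)))))) lf)) lf)
    ⟨79228162514264469534939283457, 10203467905762, 79228162514264595758874152143,
    4661929301771, 79228162514264606753990429903, 12314530231092⟩ (by decide +kernel)

theorem R2b_80 : Hd (QR2b coA) 79228162514264500145343000741 20406935811523
    79228162514264591096944850372 9323858603541 79228162514264545181339274445 24629060462183 :=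
  okR2b coA (sk 0)
    ⟨79228162514264500145343000741, 20406935811523, 79228162514264591096944850372,
    9323858603541, 79228162514264545181339274445, 24629060462183⟩ (by decide +kernel)

theorem R2b_81 : Hd (QR2b coA) 79228162514264484840141142098 5101733952881
    79228162514264586435015548601 4661929301771 79228162514264582124929967719 12314530231092 :=
  okR2b coA (s1 (s2 (s0 (s0 (s1 (s1 (s2 (sk 0) (s2 (sk 0) lf)) (sk 0)) (sk 0)) (sk 0)) (sk 0))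
    (s2 (s0 (s1 lf (s2 (s2 (sk 0) (s0 lf (s0 lf (sk 0)))) lf)) (s1 (s2 (s1 lf (s2 (sk 0) lf))
    lf) (s2 (sk 0) (s0 lf (s2 (sk 0) lf))))) lf)) (s2 (sk 0) (s1 (s2 (s2 (sk 0) (s0 (s0 (s0 lf
    (s2 (sk 0) lf)) (s1 (s2 (sk 0) lf) (sk 0))) (s0 (s1 (s2 (sk 0) lf) (sk 0)) (sk 0)))) (s0 lf
    (s0 lf (s1 lf (s2 (s2 (sk 0) lf) lf))))) (s2 (sk 0) (s0 (s1 lf (s2 (s2 (sk 0) lf) lf)) (s1
    (s2 (s2 (sk 0) (s0 lf (s0 lf (sk 0)))) lf) (s2 (sk 0) (s0 lf lf))))))))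
    ⟨79228162514264484840141142098, 5101733952881, 79228162514264586435015548601, 4661929301771,
    79228162514264582124929967719, 12314530231092⟩ (by decide +kernel)

theorem R2b_82 : Hd (QR2b coA) 79228162514264495043609047860 5101733952881
    79228162514264586435015548601 4661929301771 79228162514264582124929967719 12314530231092 :=
  okR2b coA (s2 (sk 0) (s1 (s2 (s2 (sk 0) (s0 (s0 (s1 lf (s1 (s1 lf (sk 0)) (sk 0))) (s1 (s0 lf
    (s2 (sk 0) lf)) (sk 0))) (s0 (s1 (s2 (sk 0) lf) (sk 0)) (sk 0)))) (s1 lf (s2 (s0 lf (s0 (s1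
    lf (s2 (sk 0) lf)) (s1 (s2 (sk 0) lf) (sk 0)))) lf))) (s2 (sk 0) (s0 (s1 (s2 (s2 (sk 0) (s0
    lf (s1 lf (sk 0)))) lf) (s2 (sk 0) (s1 (s0 lf (s1 lf (s2 (sk 0) lf))) (s2 (sk 0) (s0 lf (s2
    (sk 0) lf)))))) (s2 (sk 0) (s1 (s1 lf (s2 (s0 (s0 lf (sk 0)) (sk 0)) lf)) (s1 (s2 (sk 0) (s0
    lf (s2 (sk 0) lf))) (sk 0))))))))
    ⟨79228162514264495043609047860, 5101733952881, 79228162514264586435015548601, 4661929301771,
    79228162514264582124929967719, 12314530231092⟩ (by decide +kernel)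

theorem R2b_83 : Hd (QR2b coA) 79228162514264489941875094979 10203467905762
    79228162514264586435015548601 4661929301771 79228162514264606753990429903 12314530231092 :=
  okR2b coA (s2 (s0 lf (s1 lf (s0 lf (s0 lf (s1 lf (s1 lf (s2 (s2 (s2 (s2 (sk 0) lf) lf) lf)
    lf))))))) lf)
    ⟨79228162514264489941875094979, 10203467905762, 79228162514264586435015548601,
    4661929301771, 79228162514264606753990429903, 12314530231092⟩ (by decide +kernel)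

theorem R2b_84 : Hd (QR2b coA) 79228162514264489941875094979 10203467905762
    79228162514264593427909501257 2330964650886 79228162514264594439460198811 24629060462183 :=
  okR2b coA (s2 (s2 (sk 0) (s2 (sk 0) (s0 (s0 (s1 (s1 (s2 (s0 (s0 (s2 (sk 0) lf) (sk 0)) (sk 0))
    lf) (s2 (sk 0) (s2 (s0 (s1 lf (sk 0)) (sk 0)) lf))) (s1 (s2 (sk 0) (s2 (sk 0) (s0 lf (s1 lf
    (sk 0))))) (sk 0))) (s1 (s2 (sk 0) (s1 (s2 (s0 (s0 lf (sk 0)) (sk 0)) lf) (s0 (s2 (sk 0) (s2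
    (sk 0) lf)) (sk 0)))) (sk 0))) (s0 (s0 (s1 (s1 (s1 (s2 (sk 0) (s2 (sk 0) lf)) (sk 0)) (sk
    0)) (sk 0)) (sk 0)) (sk 0))))) (s2 (s0 (s2 (s1 lf (s2 (s0 (s0 lf (s1 lf (s1 lf (s2 (sk 0)
    lf)))) (s1 (s0 lf (s2 (s2 (sk 0) lf) lf)) (s2 (sk 0) (s0 lf (s2 (sk 0) lf))))) lf)) lf) (s2
    (s1 (s2 (s0 (s1 lf (s2 (s2 (sk 0) (s0 lf (s0 lf (sk 0)))) lf)) (s1 (s2 (s0 (s1 lf (sk 0))
    (sk 0)) lf) (s2 (sk 0) (s0 (s0 lf (s2 (sk 0) lf)) (s0 (s1 lf (sk 0)) (sk 0)))))) lf) (s0 (s2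
    (s2 (sk 0) (s0 (s1 lf (s0 (s2 (sk 0) lf) (sk 0))) (s1 (s2 (sk 0) lf) (sk 0)))) (s0 lf (s0 lf
    (s1 lf (s2 (s2 (sk 0) lf) lf))))) (s2 (sk 0) (s0 (s1 lf (s2 (s1 (s2 (sk 0) lf) (sk 0)) lf))
    (s1 (s1 lf (s2 (s2 (sk 0) lf) lf)) (s2 (sk 0) lf)))))) lf)) lf))
    ⟨79228162514264489941875094979, 10203467905762, 79228162514264593427909501257,
    2330964650886, 79228162514264594439460198811, 24629060462183⟩ (by decide +kernel)

theorem R2b_85 : Hd (QR2b coA) 79228162514264489941875094979 10203467905762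
    79228162514264598089838803029 2330964650886 79228162514264582124929967719 12314530231092 :=
  okR2b coA (sk 0)
    ⟨79228162514264489941875094979, 10203467905762, 79228162514264598089838803029,
    2330964650886, 79228162514264582124929967719, 12314530231092⟩ (by decide +kernel)

theorem R2b_86 : Hd (QR2b coA) 79228162514264484840141142098 5101733952881
    79228162514264598089838803029 2330964650886 79228162514264600596725314357 6157265115546 :=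
  okR2b coA (s1 (s2 (s2 (s0 (s0 (s1 (s2 (s0 (s1 lf (sk 0)) (sk 0)) lf) (s1 (s2 (sk 0) (s2 (sk 0)
    lf)) (sk 0))) (s1 (s2 (sk 0) (s0 lf (s2 (sk 0) lf))) (sk 0))) (s0 (s1 (s1 (s2 (sk 0) (s0 lf
    (sk 0))) (sk 0)) (sk 0)) (sk 0))) (s2 (s0 lf (s1 (s0 lf (s1 lf (s2 (sk 0) lf))) (s2 (sk 0)
    (s0 lf (s1 lf (sk 0)))))) lf)) lf) (s2 (s2 (sk 0) (s0 (s1 (s2 (s0 (s1 lf (s2 (sk 0) lf)) (s1
    (s2 (sk 0) lf) (sk 0))) lf) (s2 (sk 0) (s0 (s1 lf (s2 (sk 0) lf)) (s2 (sk 0) (s0 lf (s1 lf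
    (sk 0))))))) (s2 (sk 0) (s0 (s1 (s1 lf (s2 (sk 0) lf)) (s0 (s1 (s2 (sk 0) lf) (sk 0)) (sk
    0))) (s1 (s2 (sk 0) (s0 lf (s1 lf (sk 0)))) (sk 0)))))) (s0 lf (s1 lf (s2 (s1 (s0 lf lf) (s2
    (s2 (s0 (s2 (sk 0) lf) (sk 0)) lf) lf)) lf)))))
    ⟨79228162514264484840141142098, 5101733952881, 79228162514264598089838803029, 2330964650886,
    79228162514264600596725314357, 6157265115546⟩ (by decide +kernel)

theorem R2b_87 : Hd (QR2b coA) 79228162514264495043609047860 5101733952881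
    79228162514264598089838803029 2330964650886 79228162514264600596725314357 6157265115546 :=
  okR2b coA (s2 (s2 (sk 0) (s0 (s1 (s1 (s2 (s2 (sk 0) (s0 lf (s0 (s1 lf (sk 0)) (sk 0)))) lf)
    (s2 (sk 0) (s0 (s1 lf (s2 (sk 0) lf)) (s2 (sk 0) (s0 lf (s1 lf (sk 0))))))) (s0 (s0 (s1 (s1
    (s2 (sk 0) (s2 (sk 0) lf)) (sk 0)) (sk 0)) (sk 0)) (sk 0))) (s1 (s2 (sk 0) (s0 (s1 (s1 lf
    (s2 (sk 0) lf)) (s0 (s1 (s2 (sk 0) lf) (sk 0)) (sk 0))) (s1 (s1 (s2 (sk 0) lf) (sk 0)) (sk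
    0)))) (sk 0)))) (s2 (s0 (s1 lf (s1 (s0 lf (s2 (s1 lf (s2 (sk 0) lf)) lf)) (s2 (s2 (sk 0) (s0
    (s1 lf (s2 (sk 0) lf)) (s1 (s2 (sk 0) lf) (sk 0)))) (s0 lf (s1 lf (s2 (s2 (sk 0) lf)
    lf)))))) (s1 (s1 lf (s2 (s2 (s0 (s1 lf (s2 (sk 0) lf)) (s0 (s1 lf (sk 0)) (sk 0))) lf) lf))
    (s1 (s2 (s2 (sk 0) (s0 (s1 lf (s2 (sk 0) lf)) (s1 (s2 (sk 0) lf) (sk 0)))) (s0 lf (s1 lf (s2
    (s2 (sk 0) lf) lf)))) (s2 (sk 0) (s0 (s2 (s1 (s2 (sk 0) lf) (sk 0)) lf) (s2 (sk 0) (s1 lf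
    (s2 (sk 0) lf)))))))) lf))
    ⟨79228162514264495043609047860, 5101733952881, 79228162514264598089838803029, 2330964650886,
    79228162514264600596725314357, 6157265115546⟩ (by decide +kernel)

theorem R2b_88 : Hd (QR2b coA) 79228162514264489941875094979 10203467905762
    79228162514264598089838803029 2330964650886 79228162514264612911255545449 6157265115546 :=
  okR2b coA lf
    ⟨79228162514264489941875094979, 10203467905762, 79228162514264598089838803029,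
    2330964650886, 79228162514264612911255545449, 6157265115546⟩ (by decide +kernel)

theorem R2b_89 : Hd (QR2b coA) 79228162514264510348810906503 10203467905762
    79228162514264586435015548601 4661929301771 79228162514264582124929967719 12314530231092 :=
  okR2b coA (s2 (sk 0) (s2 (sk 0) (s0 (s0 (s1 (s1 (s2 (s2 (s0 (s1 lf (sk 0)) (sk 0)) lf) lf) (s0
    (s2 (s0 (s1 (s2 (sk 0) lf) (sk 0)) (sk 0)) lf) (s2 (sk 0) (s1 lf (s2 (sk 0) lf))))) (s1 (s2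
    (sk 0) (s2 (sk 0) (s0 (s0 lf (s1 lf (sk 0))) (s1 (s2 (sk 0) lf) (sk 0))))) (sk 0))) (s1 (s0
    (s1 (s2 (s1 (s2 (sk 0) lf) (sk 0)) lf) (s2 (sk 0) (s2 (s0 (s1 lf (sk 0)) (sk 0)) lf))) (s2
    (sk 0) (s1 (s0 lf (s1 lf (s2 (sk 0) lf))) (s1 (s2 (sk 0) lf) (sk 0))))) (sk 0))) (s1 (s2 (sk
    0) (s0 (s0 (s1 (s2 (s0 (s1 lf (sk 0)) (sk 0)) lf) (s1 (s2 (sk 0) (s2 (sk 0) lf)) (sk 0)))
    (s1 (s2 (sk 0) (s0 lf (s1 lf (sk 0)))) (sk 0))) (s0 (s0 (s1 (s1 (s2 (sk 0) lf) (sk 0)) (sk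
    0)) (sk 0)) (sk 0)))) (sk 0)))))
    ⟨79228162514264510348810906503, 10203467905762, 79228162514264586435015548601,
    4661929301771, 79228162514264582124929967719, 12314530231092⟩ (by decide +kernel)

theorem R2b_90 : Hd (QR2b coA) 79228162514264505247076953622 5101733952881
    79228162514264586435015548601 4661929301771 79228162514264600596725314357 6157265115546 :=
  okR2b coA (s2 (s1 lf (s0 (s1 lf (s2 (s1 (s0 lf (s2 (s2 (sk 0) lf) lf)) (s2 (sk 0) (s0 lf (s0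
    lf (s2 (sk 0) lf))))) lf)) (s1 (s2 (s2 (s0 (s1 lf (s1 lf (sk 0))) (s1 (s2 (sk 0) lf) (sk
    0))) lf) lf) (s2 (s2 (sk 0) (s0 (s1 lf (s0 (s2 (sk 0) lf) (sk 0))) (s1 (s2 (sk 0) lf) (sk
    0)))) (s0 lf (s0 lf (s1 lf (s2 (s2 (sk 0) lf) lf)))))))) lf)
    ⟨79228162514264505247076953622, 5101733952881, 79228162514264586435015548601, 4661929301771,
    79228162514264600596725314357, 6157265115546⟩ (by decide +kernel)

theorem R2b_91 : Hd (QR2b coA) 79228162514264515450544859384 5101733952881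
    79228162514264586435015548601 4661929301771 79228162514264600596725314357 6157265115546 :=
  okR2b coA (s1 (s2 (s2 (s0 (s1 lf (s0 lf (s1 lf (s2 (s2 (sk 0) lf) lf)))) (s1 (s0 lf (s1 lf (s2
    (s2 (sk 0) lf) lf))) (s1 (s2 (s0 (s2 (sk 0) lf) (sk 0)) lf) (s2 (sk 0) (s0 (s0 lf (s2 (sk 0)
    lf)) (s2 (sk 0) lf)))))) lf) lf) (s1 (s2 (s2 (s2 (sk 0) (s0 (s0 (s1 lf (s2 (sk 0) lf)) (s1
    (s2 (sk 0) lf) (sk 0))) (s0 (s0 (s1 (s2 (sk 0) lf) (sk 0)) (sk 0)) (sk 0)))) (s0 lf (s2 (s0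
    (s0 lf (s1 lf (s2 (sk 0) lf))) (s0 (s1 lf (s2 (sk 0) lf)) (s1 (s2 (sk 0) lf) (sk 0)))) lf)))
    lf) (s2 (s2 (sk 0) (s0 (s2 (s0 (s1 lf (s2 (sk 0) lf)) (s1 (s2 (sk 0) lf) (sk 0))) lf) (s2
    (s0 (s2 (sk 0) (s2 (sk 0) (s2 (sk 0) (sk 0)))) (sk 0)) (s1 (s0 lf (s0 lf (s2 (sk 0) lf)))
    (s2 (sk 0) (s0 lf (s1 lf (sk 0)))))))) lf)))
    ⟨79228162514264515450544859384, 5101733952881, 79228162514264586435015548601, 4661929301771,
    79228162514264600596725314357, 6157265115546⟩ (by decide +kernel)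

theorem R2b_92 : Hd (QR2b coA) 79228162514264510348810906503 10203467905762
    79228162514264586435015548601 4661929301771 79228162514264612911255545449 6157265115546 :=
  okR2b coA lf
    ⟨79228162514264510348810906503, 10203467905762, 79228162514264586435015548601,
    4661929301771, 79228162514264612911255545449, 6157265115546⟩ (by decide +kernel)

theorem R2b_93 : Hd (QR2b coA) 79228162514264510348810906503 10203467905762
    79228162514264595758874152143 4661929301771 79228162514264582124929967719 12314530231092 :=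
  okR2b coA (sk 0)
    ⟨79228162514264510348810906503, 10203467905762, 79228162514264595758874152143,
    4661929301771, 79228162514264582124929967719, 12314530231092⟩ (by decide +kernel)

end FX.DA
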