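import Pool.Agent.H11.FX.CoAB

/-! Branch and bound data, generated. -/

set_option maxRecDepth 100000

namespace FX.DA

open H41FT H41FT.Tr

theorem R2b_94 : Hd (QR2b coA) 79228162514264505247076953622 5101733952881
    79228162514264593427909501257 2330964650886 79228162514264600596725314357 6157265115546 :=
  okR2b coA (s0 (s2 (s1 (s1 (s2 (s0 (s2 (sk 0) (s2 (sk 0) lf)) (sk 0)) lf) (s2 (sk 0) (s2 (s2
    (s0 (s1 lf (sk 0)) (sk 0)) lf) lf))) (s2 (sk 0) (s0 (s1 (s2 (s1 (s2 (sk 0) lf) (sk 0)) lf)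
    (s2 (sk 0) (s2 (s0 (s1 lf (sk 0)) (sk 0)) lf))) (s2 (sk 0) (s1 (s1 lf (s2 (sk 0) lf)) (s1
    (s2 (sk 0) lf) (sk 0))))))) lf) (s2 (s2 (sk 0) (s1 (s1 (s2 (s0 (s1 lf (s2 (sk 0) lf)) (s0
    (s2 (sk 0) lf) (sk 0))) lf) (s2 (sk 0) (s0 lf (s1 lf (s2 (sk 0) lf))))) (s1 (s2 (sk 0) (s2
    (sk 0) (s0 (s0 lf (s1 lf (sk 0))) (s0 (s1 lf (sk 0)) (sk 0))))) (sk 0)))) (s1 lf (s2 (s1 lf
    (s2 (s0 (s0 lf (s1 lf (s2 (sk 0) lf))) (s2 (sk 0) (s1 lf (s2 (sk 0) lf)))) lf)) lf))))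
    ⟨79228162514264505247076953622, 5101733952881, 79228162514264593427909501257, 2330964650886,
    79228162514264600596725314357, 6157265115546⟩ (by decide +kernel)

theorem R2b_95 : Hd (QR2b coA) 79228162514264515450544859384 5101733952881
    79228162514264593427909501257 2330964650886 79228162514264600596725314357 6157265115546 :=
  okR2b coA (s1 (s2 (s2 (sk 0) (s0 (s2 (sk 0) (s0 (s1 (s1 lf (s2 (sk 0) lf)) (s1 (s2 (sk 0) lf)
    (sk 0))) (s1 (s2 (sk 0) (s0 lf (s1 lf (sk 0)))) (sk 0)))) (sk 0))) (s2 (s2 (s0 (s0 lf (s0 lf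
    (s1 lf (s1 lf (s2 (sk 0) lf))))) (s1 (s0 lf (s2 (s0 (s1 lf (sk 0)) (sk 0)) lf)) (s2 (sk 0)
    (s0 lf (s0 (s1 lf (sk 0)) (sk 0)))))) lf) lf)) (s2 (sk 0) (s0 (s2 (s0 (s2 (s1 (s2 (s0 (s1 lf
    (sk 0)) (sk 0)) lf) (s0 (s1 (s2 (sk 0) lf) (sk 0)) (sk 0))) lf) (s1 (s2 (s2 (sk 0) (s1 lf
    (s2 (sk 0) lf))) lf) (s2 (sk 0) (s1 lf (s2 (s0 (s0 lf (sk 0)) (sk 0)) lf))))) lf) (s2 (s2
    (sk 0) (s1 (s2 (s0 (s1 lf (s2 (sk 0) lf)) (s0 (s1 lf (sk 0)) (sk 0))) lf) (s2 (sk 0) (s0 (s1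
    lf (s2 (sk 0) lf)) (s1 (s2 (sk 0) lf) (sk 0)))))) lf))))
    ⟨79228162514264515450544859384, 5101733952881, 79228162514264593427909501257, 2330964650886,
    79228162514264600596725314357, 6157265115546⟩ (by decide +kernel)

theorem R2b_96 : Hd (QR2b coA) 79228162514264510348810906503 10203467905762
    79228162514264593427909501257 2330964650886 79228162514264612911255545449 6157265115546 :=
  okR2b coA lf
    ⟨79228162514264510348810906503, 10203467905762, 79228162514264593427909501257,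
    2330964650886, 79228162514264612911255545449, 6157265115546⟩ (by decide +kernel)

theorem R2b_97 : Hd (QR2b coA) 79228162514264505247076953622 5101733952881
    79228162514264598089838803029 2330964650886 79228162514264600596725314357 6157265115546 :=
  okR2b coA (s2 (s0 (sk 0) (sk 0)) (s1 (s2 (s0 (s1 (s2 (s2 (s0 (s0 lf (s1 lf (sk 0))) (s0 (s1 lf
    (sk 0)) (sk 0))) lf) lf) (s2 (s2 (sk 0) (s0 (s1 lf (s2 (sk 0) lf)) (sk 0))) (s0 lf (s1 lf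
    (s2 (s2 (sk 0) lf) lf))))) (s0 (s1 (s2 (s1 (s2 (sk 0) lf) (sk 0)) lf) (s2 (sk 0) (s2 (s1 (s2
    (sk 0) lf) (sk 0)) lf))) (s2 (sk 0) (s1 (s0 lf (s1 lf (s2 (sk 0) lf))) (s2 (sk 0) (s1 lf (s0
    (s1 lf (sk 0)) (sk 0)))))))) lf) (s2 (s2 (sk 0) (s0 (s0 (s1 (s2 (s1 (s2 (sk 0) lf) (sk 0))
    lf) (s1 (s2 (sk 0) (s2 (sk 0) lf)) (sk 0))) (s1 (s2 (sk 0) (s1 lf (s2 (sk 0) lf))) (sk 0)))
    (s0 (s1 (s1 (s2 (sk 0) (s2 (sk 0) lf)) (sk 0)) (sk 0)) (sk 0)))) (s0 (s1 lf (s2 (s2 (s0 (s0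
    lf (s1 lf (s2 (sk 0) lf))) (s0 (s1 lf (s2 (sk 0) lf)) (s1 (s2 (sk 0) lf) (sk 0)))) lf) lf))
    (s2 (s1 (s2 (s0 (s0 lf (s1 lf (s2 (sk 0) lf))) (s0 (s1 lf (s2 (sk 0) lf)) (s1 (s2 (sk 0) lf)
    (sk 0)))) lf) (s0 (s1 (s2 (s0 (s2 (sk 0) lf) (sk 0)) lf) (s2 (sk 0) (s2 (s0 (s0 lf (sk 0))
    (sk 0)) lf))) (s1 (s2 (sk 0) (s2 (s0 (s0 lf (sk 0)) (sk 0)) lf)) (sk 0)))) lf)))))
    ⟨79228162514264505247076953622, 5101733952881, 79228162514264598089838803029, 2330964650886,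
    79228162514264600596725314357, 6157265115546⟩ (by decide +kernel)

theorem R2b_98 : Hd (QR2b coA) 79228162514264505247076953622 5101733952881
    79228162514264598089838803029 2330964650886 79228162514264612911255545449 6157265115546 :=
  okR2b coA lf
    ⟨79228162514264505247076953622, 5101733952881, 79228162514264598089838803029, 2330964650886,
    79228162514264612911255545449, 6157265115546⟩ (by decide +kernel)

theorem R2b_99 : Hd (QR2b coA) 79228162514264515450544859384 5101733952881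
    79228162514264598089838803029 2330964650886 79228162514264597518092756584 3078632557773 :=
  okR2b coA (sk 0)
    ⟨79228162514264515450544859384, 5101733952881, 79228162514264598089838803029, 2330964650886,
    79228162514264597518092756584, 3078632557773⟩ (by decide +kernel)

theorem R2b_100 : Hd (QR2b coA) 79228162514264512899677882943 2550866976441
    79228162514264598089838803029 2330964650886 79228162514264603675357872130 3078632557773 :=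
  okR2b coA (s1 (s2 (s2 (sk 0) (s0 (s1 (s1 (s2 (s2 (sk 0) lf) lf) (s2 (sk 0) (s0 lf (s2 (sk 0)
    lf)))) (s0 (s1 (s1 (s2 (sk 0) lf) (sk 0)) (sk 0)) (sk 0))) (s1 (s2 (sk 0) (s0 (s1 lf (s2 (sk
    0) lf)) (s1 (s1 lf (sk 0)) (sk 0)))) (sk 0)))) (s1 lf (s2 (s2 (s0 (s0 lf (s1 lf (s2 (sk 0)
    lf))) (s1 (s2 (sk 0) lf) (sk 0))) lf) lf))) (s2 (sk 0) (s1 (s2 (s0 (s1 (s2 (s0 (s2 (sk 0)
    lf) (sk 0)) lf) (s2 (sk 0) (s2 (sk 0) lf))) (s1 (s2 (sk 0) (s2 (sk 0) lf)) (sk 0))) lf) (s2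
    (sk 0) (s0 (s1 lf (s2 (s2 (sk 0) (s0 lf (s1 lf (sk 0)))) lf)) (s1 (s2 (s2 (sk 0) (s0 lf (s1
    lf (sk 0)))) lf) (s2 (sk 0) (s0 lf (s1 lf (s2 (sk 0) lf))))))))))
    ⟨79228162514264512899677882943, 2550866976441, 79228162514264598089838803029, 2330964650886,
    79228162514264603675357872130, 3078632557773⟩ (by decide +kernel)

theorem R2b_101 : Hd (QR2b coA) 79228162514264518001411835825 2550866976441
    79228162514264598089838803029 2330964650886 79228162514264603675357872130 3078632557773 :=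
  okR2b coA (s2 (sk 0) (s1 (s1 (s2 (s2 (s0 (s1 lf (s2 (sk 0) lf)) (s1 (s2 (sk 0) lf) (sk 0)))
    lf) lf) (s2 (s2 (sk 0) (s0 (s1 lf (s2 (sk 0) lf)) (s1 (s2 (sk 0) (s0 lf (s0 lf (sk 0)))) (sk
    0)))) (s0 lf (s0 lf (s0 lf (s1 lf (s2 (s2 (sk 0) lf) lf))))))) (s2 (sk 0) (s1 (s0 (s1 lf (s2
    (s2 (sk 0) (s0 lf (s0 lf (sk 0)))) lf)) (s1 (s2 (s2 (sk 0) (s0 lf (s0 lf (sk 0)))) lf) (s2
    (sk 0) (s0 lf (s0 lf (s2 (sk 0) lf)))))) (s2 (sk 0) (s0 (s1 (s0 lf (s0 lf (s2 (sk 0) lf)))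
    (s2 (sk 0) (s0 lf (s1 lf (sk 0))))) (s1 (s2 (sk 0) (s0 lf (s0 lf (sk 0)))) (sk 0))))))))
    ⟨79228162514264518001411835825, 2550866976441, 79228162514264598089838803029, 2330964650886,
    79228162514264603675357872130, 3078632557773⟩ (by decide +kernel)

theorem R2b_102 : Hd (QR2b coA) 79228162514264515450544859384 5101733952881
    79228162514264598089838803029 2330964650886 79228162514264612911255545449 6157265115546 :=
  okR2b coA (s0 lf (s1 lf (s1 lf (s0 lf (s1 lf (s2 (s0 lf (s1 lf (s2 (s2 (s2 (s2 (sk 0) lf) lf)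
    lf) lf))) lf))))))
    ⟨79228162514264515450544859384, 5101733952881, 79228162514264598089838803029, 2330964650886,
    79228162514264612911255545449, 6157265115546⟩ (by decide +kernel)

theorem R2b_103 : Hd (QR2b coA) 79228162514264479738407189218 40813871623046
    79228162514264605082732755683 4661929301771 79228162514264545181339274445 24629060462183 :=
  okR2b coA (sk 0)
    ⟨79228162514264479738407189218, 40813871623046, 79228162514264605082732755683,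
    4661929301771, 79228162514264545181339274445, 24629060462183⟩ (by decide +kernel)

theorem R2b_104 : Hd (QR2b coA) 79228162514264459331471377695 20406935811523
    79228162514264605082732755683 4661929301771 79228162514264582124929967719 12314530231092 :=
  okR2b coA (s2 (sk 0) (s0 (s1 (s2 (sk 0) (s0 (s0 (s1 (s2 (s0 (s1 lf (s2 (sk 0) lf)) (s1 (s2 (sk
    0) lf) (sk 0))) lf) (s1 (s2 (sk 0) (s2 (sk 0) lf)) (sk 0))) (s1 (s1 (s2 (s0 (s2 (sk 0) lf)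
    (sk 0)) lf) (s2 (sk 0) (s2 (sk 0) lf))) (sk 0))) (s1 (s2 (sk 0) (s0 (s1 (s2 (s0 (s0 lf (sk
    0)) (sk 0)) lf) (sk 0)) (s0 (s1 (s1 (s2 (sk 0) lf) (sk 0)) (sk 0)) (sk 0)))) (sk 0)))) (sk
    0)) (sk 0)))
    ⟨79228162514264459331471377695, 20406935811523, 79228162514264605082732755683,
    4661929301771, 79228162514264582124929967719, 12314530231092⟩ (by decide +kernel)

theorem R2b_105 : Hd (QR2b coA) 79228162514264449128003471933 10203467905762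
    79228162514264602751768104797 2330964650886 79228162514264606753990429903 12314530231092 :=
  okR2b coA (s2 (s0 (s1 lf (s2 (s2 (s0 (s1 lf (s1 lf (s2 (s0 (sk 0) (sk 0)) lf))) (s1 (s0 lf (s1
    lf (s2 (sk 0) lf))) (s2 (sk 0) (s0 lf (s1 lf (sk 0)))))) lf) lf)) (s2 (s1 (s2 (s0 (s0 lf (s1
    lf (s1 lf (s2 (sk 0) lf)))) (s1 (s0 lf (s0 lf (s1 lf (s2 (sk 0) lf)))) (s1 (s2 (s0 (s0 lf
    (sk 0)) (sk 0)) lf) (s2 (sk 0) (s2 (s0 (sk 0) (sk 0)) lf))))) lf) (s1 (s2 (s2 (sk 0) (s0 (s0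
    lf (s1 lf (sk 0))) (s0 (sk 0) (sk 0)))) (s0 lf (s1 lf (s2 (s2 (sk 0) lf) lf)))) (s2 (sk 0)
    (s0 (s0 lf (s1 lf (s2 (sk 0) lf))) (s2 (s0 (sk 0) (sk 0)) (s1 lf (s2 (sk 0) lf))))))) lf))
    lf)
    ⟨79228162514264449128003471933, 10203467905762, 79228162514264602751768104797,
    2330964650886, 79228162514264606753990429903, 12314530231092⟩ (by decide +kernel)

theorem R2b_106 : Hd (QR2b coA) 79228162514264449128003471933 10203467905762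
    79228162514264607413697406569 2330964650886 79228162514264606753990429903 12314530231092 :=
  okR2b coA (s0 (s2 (s0 (s1 (s2 (s1 (s2 (s1 (s2 (sk 0) lf) (sk 0)) lf) (s2 (sk 0) (s2 (s0 (s1 lf
    (sk 0)) (sk 0)) lf))) lf) (s2 (s0 (s0 (sk 0) (sk 0)) (sk 0)) (s2 (s1 (s1 lf (s2 (s2 (sk 0)
    lf) lf)) (s1 (s2 (sk 0) lf) (sk 2))) lf))) (s1 (s2 (s2 (sk 0) (s1 (s2 (s1 (s0 lf (s0 lf (sk
    0))) (sk 0)) lf) (s1 (s2 (sk 0) (s2 (sk 0) lf)) (sk 0)))) (s0 lf lf)) (s1 (s2 (sk 0) (s2 (s0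
    (s2 (s1 (s1 lf (sk 0)) (sk 0)) lf) (s2 (sk 0) (s1 lf (s1 lf (sk 2))))) lf)) (sk 2)))) lf)
    (s1 (s2 (s2 (s1 (s2 (sk 0) (s2 (sk 0) (s0 (s0 (s1 lf (s1 lf (sk 0))) (s1 lf (sk 0))) (sk
    0)))) (sk 0)) (s2 (s0 (s1 lf (s2 (s0 (s1 lf (s2 (sk 0) lf)) (s1 (s2 (sk 0) lf) (sk 0))) lf))
    (s1 (s1 lf (s2 (s2 (sk 0) lf) lf)) (s2 (sk 0) (s1 lf (s2 (sk 0) (s0 lf lf)))))) lf)) lf) (s0
    (s1 (s1 (s2 (s2 (sk 0) (s2 (s2 (sk 0) (s0 lf (s2 (sk 0) lf))) lf)) lf) (sk 2)) (sk 2)) (sk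
    2))))
    ⟨79228162514264449128003471933, 10203467905762, 79228162514264607413697406569,
    2330964650886, 79228162514264606753990429903, 12314530231092⟩ (by decide +kernel)

theorem R2b_107 : Hd (QR2b coA) 79228162514264464433205330576 5101733952881
    79228162514264602751768104797 2330964650886 79228162514264606753990429903 12314530231092 :=
  okR2b coA (s2 (s1 (s2 (s0 (s0 (s2 (s1 (s1 lf (s2 (sk 0) lf)) (s0 (s1 (s2 (sk 0) lf) (sk 0))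
    (sk 0))) lf) (s1 (s2 (s2 (sk 0) (s0 lf (s1 lf (sk 0)))) lf) (s2 (sk 0) (s1 lf (s2 (s2 (sk 0)
    lf) lf))))) (s1 (s0 (s2 (s1 (s2 (sk 0) (s2 (sk 0) lf)) (sk 0)) lf) (s2 (sk 0) (s0 lf lf)))
    (s2 (sk 0) (s2 (s1 (s2 (sk 0) lf) (sk 0)) lf)))) lf) (s2 (s2 (sk 0) (s0 (s0 (s1 (s2 (s1 (s1
    lf (sk 0)) (sk 0)) lf) (s1 (s2 (sk 0) (s2 (sk 0) lf)) (sk 0))) (s1 (s2 (sk 0) (s1 lf (s2 (sk
    0) lf))) (sk 0))) (s1 (s2 (sk 0) (s2 (sk 0) (s1 lf (s0 (s0 (sk 0) (sk 0)) (sk 0))))) (sk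
    0)))) (s2 (s0 (s0 lf (s1 lf (s1 lf (s2 (s2 (sk 0) lf) lf)))) (s1 lf (s2 (s1 (s2 (s0 (s0 lf
    (sk 0)) (sk 0)) lf) (s0 (s0 (s2 (sk 0) lf) (sk 0)) (sk 0))) lf))) lf))) lf)
    ⟨79228162514264464433205330576, 5101733952881, 79228162514264602751768104797, 2330964650886,
    79228162514264606753990429903, 12314530231092⟩ (by decide +kernel)

theorem R2b_108 : Hd (QR2b coA) 79228162514264474636673236338 5101733952881
    79228162514264602751768104797 2330964650886 79228162514264606753990429903 12314530231092 :=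
  okR2b coA (s2 (s1 (s2 (s2 (sk 0) (s0 (s1 (s2 (s2 (sk 0) (s0 lf (s1 lf (sk 0)))) lf) (s2 (sk 0)
    (s0 (s1 lf (s2 (sk 0) lf)) (s1 (s2 (sk 0) lf) (sk 0))))) (s1 (s2 (sk 0) (s0 (s1 lf (s2 (sk
    0) lf)) (s1 (s2 (sk 0) lf) (sk 0)))) (sk 0)))) (s0 lf (s1 lf (s2 (s2 (s0 (s1 lf (s2 (sk 0)
    lf)) (s1 (s0 lf (s2 (sk 0) lf)) (s1 (s2 (sk 0) lf) (sk 0)))) lf) lf)))) (s2 (sk 0) (s1 (s2
    (s0 (s2 (s0 (s1 lf (s2 (sk 0) lf)) (s2 (sk 0) (s1 lf (s1 lf (sk 0))))) lf) (s1 (s2 (s0 (s0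
    (s2 (sk 0) lf) (sk 0)) (sk 0)) lf) (s2 (sk 0) (s2 (s0 (s1 lf (sk 0)) (sk 0)) lf)))) lf) (s2
    (s2 (sk 0) (s0 (s1 (s0 lf (s0 lf (s2 (sk 0) lf))) (s2 (sk 0) (s0 lf (s1 lf (sk 0))))) (s1
    (s2 (sk 0) (s0 lf (s0 (s1 lf (sk 0)) (sk 0)))) (sk 0)))) (s0 lf (s0 lf (s1 lf (s2 (s2 (s2
    (sk 0) lf) lf) lf)))))))) lf)
    ⟨79228162514264474636673236338, 5101733952881, 79228162514264602751768104797, 2330964650886,
    79228162514264606753990429903, 12314530231092⟩ (by decide +kernel)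

theorem R2b_109 : Hd (QR2b coA) 79228162514264469534939283457 10203467905762
    79228162514264607413697406569 2330964650886 79228162514264606753990429903 12314530231092 :=
  okR2b coA (s1 (s0 (s2 (s2 (sk 0) (s0 (s1 (s2 (s0 (s2 (s1 (s2 (sk 0) lf) (sk 0)) lf) (s2 (sk 0)
    (s0 lf (s1 lf (s2 (sk 0) lf))))) lf) (s1 (s2 (s2 (sk 0) (s2 (sk 0) (s0 lf (s0 lf (sk 0)))))
    lf) (s0 (s2 (sk 0) lf) (sk 2)))) (s1 (s2 (s2 (sk 0) (s1 (s2 (s0 (s1 lf (sk 0)) (sk 0)) lf)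
    (s0 (s1 (s2 (sk 0) lf) (sk 0)) (sk 0)))) lf) (s0 (s1 (s1 (s2 (sk 0) lf) (sk 2)) (sk 2)) (sk
    2))))) lf) (s1 (s2 (s2 (sk 0) (s0 (s0 (s1 (s2 (s1 (s2 (sk 0) (s2 (sk 0) lf)) (sk 0)) lf) (s1
    (s2 (sk 0) lf) (sk 2))) (s1 (s2 (sk 0) (s0 lf (s1 lf (s1 lf (sk 2))))) (sk 2))) (s1 (s1 (s2
    (sk 0) (s2 (s2 (s0 (s2 (sk 0) (sk 0)) (sk 0)) lf) lf)) (sk 2)) (sk 2)))) lf) (sk 2))) (sk
    2))
    ⟨79228162514264469534939283457, 10203467905762, 79228162514264607413697406569,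
    2330964650886, 79228162514264606753990429903, 12314530231092⟩ (by decide +kernel)

theorem R2b_110 : Hd (QR2b coA) 79228162514264500145343000741 20406935811523
    79228162514264602751768104797 2330964650886 79228162514264582124929967719 12314530231092 :=
  okR2b coA (sk 0)
    ⟨79228162514264500145343000741, 20406935811523, 79228162514264602751768104797,
    2330964650886, 79228162514264582124929967719, 12314530231092⟩ (by decide +kernel)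

theorem R2b_111 : Hd (QR2b coA) 79228162514264484840141142098 5101733952881
    79228162514264602751768104797 2330964650886 79228162514264600596725314357 6157265115546 :=
  okR2b coA (s0 (s2 (s0 (s0 (s2 (sk 0) (sk 0)) (sk 0)) (sk 0)) (s1 (s2 (s1 (s2 (s2 (s0 (s0 lf
    (s1 lf (sk 0))) (s0 (s1 lf (sk 0)) (sk 0))) lf) lf) (s0 (s2 (s1 (s2 (sk 0) lf) (sk 0)) lf)
    (s2 (sk 0) (s1 lf (s2 (s2 (sk 0) lf) lf))))) lf) (s2 (s1 (s2 (sk 0) (s2 (sk 0) (s0 (s1 lf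
    (s2 (sk 0) lf)) (s1 (s2 (sk 0) lf) (sk 0))))) (sk 0)) (s2 (s1 (s0 lf (s0 lf (s1 lf (s1 lf
    (s2 (sk 0) lf))))) (s1 (s2 (s0 (s2 (sk 0) lf) (sk 0)) lf) (s2 (sk 0) (s0 (s0 lf (s1 lf (sk
    2))) (s0 (s1 lf (sk 0)) (sk 0)))))) lf)))) (s2 (sk 0) (s1 (s2 (s1 (s1 (s2 (s2 (sk 0) (s0 lf
    (s0 (s0 lf (sk 0)) (sk 0)))) lf) (s2 (sk 0) (s0 lf (s1 lf (s2 (sk 0) lf))))) (s2 (sk 0) (s0
    (s1 (s1 lf (s2 (sk 0) lf)) (s2 (sk 0) (s0 lf (s1 lf (sk 0))))) (s1 (s2 (sk 0) (s0 lf (s1 lf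
    (sk 0)))) (sk 0))))) lf) (s2 (sk 0) (s1 (s2 (s0 (s1 lf (s2 (s0 (s2 (sk 0) lf) (sk 0)) lf))
    (s1 (s2 (s0 (s1 lf (sk 0)) (sk 0)) lf) (s2 (sk 0) (s1 lf (s2 (sk 0) lf))))) lf) (s1 (s0 (s2
    (s2 (sk 0) (s2 (sk 0) lf)) lf) (s1 (s2 (sk 0) lf) (sk 2))) (sk 2)))))))
    ⟨79228162514264484840141142098, 5101733952881, 79228162514264602751768104797, 2330964650886,
    79228162514264600596725314357, 6157265115546⟩ (by decide +kernel)

theorem R2b_112 : Hd (QR2b coA) 79228162514264495043609047860 5101733952881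
    79228162514264602751768104797 2330964650886 79228162514264600596725314357 6157265115546 :=
  okR2b coA (s2 (sk 0) (s1 (s2 (s2 (sk 0) (s0 (s0 (s1 (s2 (s1 (s2 (sk 0) lf) (sk 0)) lf) (s0 (s1
    (s1 (s2 (sk 0) lf) (sk 0)) (sk 0)) (sk 0))) (s1 (s2 (sk 0) (s1 lf (s0 (s1 lf (sk 0)) (sk
    0)))) (sk 0))) (s0 (s0 (s1 (s1 (s1 (s2 (sk 0) lf) (sk 0)) (sk 0)) (sk 0)) (sk 0)) (sk 0))))
    (s0 (s1 lf (s2 (s0 (s1 lf (s2 (s2 (sk 0) lf) lf)) (s1 (s2 (s2 (sk 0) lf) lf) (s2 (sk 0) (s1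
    lf (s2 (sk 0) lf))))) lf)) (s1 (s2 (s2 (s0 (s0 lf (s1 lf (s1 lf (sk 0)))) (s1 (s0 lf (s2 (sk
    0) lf)) (sk 0))) lf) lf) (s2 (s2 (sk 0) (s0 (s1 lf (s1 (s2 (sk 0) lf) (sk 0))) (s1 (s2 (sk
    0) (s0 lf (s0 lf (sk 0)))) (sk 0)))) (s0 lf (s0 lf (s1 lf (s2 (s2 (sk 0) lf) lf)))))))) (s1
    (s2 (sk 0) (s0 (s2 (s2 (sk 0) (s0 (s0 (s1 lf (s0 (s2 (sk 0) lf) (sk 0))) (s1 (s2 (sk 0) lf)
    (sk 0))) (s0 (s1 (s2 (sk 0) lf) (sk 0)) (sk 0)))) (s0 lf (s1 lf (s1 (s0 lf (s1 lf (sk 2)))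
    (sk 2))))) (s1 (s2 (sk 0) (s2 (s0 (s1 lf (s2 (sk 0) lf)) (s0 (s1 (s2 (sk 0) lf) (sk 0)) (sk
    0))) lf)) (sk 2)))) (sk 2))))
    ⟨79228162514264495043609047860, 5101733952881, 79228162514264602751768104797, 2330964650886,
    79228162514264600596725314357, 6157265115546⟩ (by decide +kernel)

theorem R2b_113 : Hd (QR2b coA) 79228162514264489941875094979 10203467905762
    79228162514264602751768104797 2330964650886 79228162514264612911255545449 6157265115546 :=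
  okR2b coA (s2 (s0 lf (s1 lf (s1 lf (sk 2)))) lf)
    ⟨79228162514264489941875094979, 10203467905762, 79228162514264602751768104797,
    2330964650886, 79228162514264612911255545449, 6157265115546⟩ (by decide +kernel)

end FX.DA
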