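import Pool.Agent.H11.FX.CoAB

/-! Branch and bound data, generated. -/

set_option maxRecDepth 100000

namespace FX.DA

open H41FT H41FT.Tr

theorem SY2_1 : Hd (QSY2 coA) 79228162514264360815229528966 7740561859544
    79228162514264689437264838655 70368744177665 79228162514264510700654627389 88664617663858 :=
  okSY2 coA (s2 (s2 lf (s0 lf lf)) (s0 (s2 lf (s0 lf lf)) (s2 lf (s1 lf lf))))
    ⟨79228162514264360815229528966, 7740561859544, 79228162514264689437264838655,
    70368744177665, 79228162514264510700654627389, 88664617663858⟩ (by decide +kernel)

theorem SY2_2 : Hd (QSY2 coA) 79228162514264353074667669422 15481123719088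
    79228162514264830174753193985 70368744177665 79228162514264510700654627389 88664617663858 :=
  okSY2 coA (s2 (s0 (s0 lf lf) (s0 (s0 lf lf) (s2 lf lf))) (s1 (s2 (s0 (s0 lf lf) (s0 lf lf))
    (sk 0)) (sk 0)))
    ⟨79228162514264353074667669422, 15481123719088, 79228162514264830174753193985,
    70368744177665, 79228162514264510700654627389, 88664617663858⟩ (by decide +kernel)

theorem SY3_0 : Hd (QSY3 coA) 79228162514264351667292785869 14073748835534
    79228162514264627512769962312 8444249301321 79228162514264609216896476119 9851624184874 :=
  okSY3 coA (s0 lf lf)
    ⟨79228162514264351667292785869, 14073748835534, 79228162514264627512769962312,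
    8444249301321, 79228162514264609216896476119, 9851624184874⟩ (by decide +kernel)

end FX.DA
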