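import Pool.Agent.H11.FX.CoAB

/-! Branch and bound data, generated. -/

set_option maxRecDepth 100000

namespace FX.DB

open H41FT H41FT.Tr

theorem MG_28 : Hd (QMG coB) 79228162514264455988956029255 10027546045318
    79228162514264562773525318862 28147497671066 79228162514264548699776483329 70368744177665 :=
  okMG coB (s0 (s1 (s2 (s2 lf lf) (s2 lf lf)) (s1 (s2 (s2 lf lf) (s2 lf lf)) (s2 (s2 lf lf) (s2
    lf lf)))) (s1 (s2 (s2 (s0 lf lf) lf) (s2 lf lf)) (s1 (s2 (s2 lf lf) (s2 lf lf)) (s2 (s2 lf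
    lf) (s2 lf lf)))))
    ⟨79228162514264455988956029255, 10027546045318, 79228162514264562773525318862,
    28147497671066, 79228162514264548699776483329, 70368744177665⟩ (by decide +kernel)

theorem MG_29 : Hd (QMG coB) 79228162514264476044048119891 10027546045318
    79228162514264562773525318862 28147497671066 79228162514264548699776483329 70368744177665 :=
  okMG coB (s0 (s1 (s2 (s2 (s0 lf lf) lf) (s2 lf lf)) (s1 (s2 (s2 lf lf) (s2 lf lf)) (s2 (s2 (s0
    lf lf) lf) (s2 lf lf)))) (s1 (s2 (s2 (s0 lf lf) lf) (s2 lf lf)) (s1 (s2 (s2 lf lf) (s2 lf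
    lf)) (s2 (s2 (s0 lf lf) lf) (s2 lf lf)))))
    ⟨79228162514264476044048119891, 10027546045318, 79228162514264562773525318862,
    28147497671066, 79228162514264548699776483329, 70368744177665⟩ (by decide +kernel)

theorem MG_30 : Hd (QMG coB) 79228162514264506126686255843 20055092090635
    79228162514264393888539292466 28147497671066 79228162514264478331032305664 140737488355329
    :=
  okMG coB (s2 (s0 (s2 (s2 (s0 (s1 lf lf) (sk 0)) (s1 lf lf)) (s1 (s2 lf lf) (s2 lf lf))) (s2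
    (sk 0) (s2 (sk 0) (s1 lf lf)))) (s0 (s1 (s2 (s0 lf lf) lf) (s2 (s0 lf lf) lf)) (s1 (s2 (s2
    lf lf) (s0 lf lf)) (s0 (s2 lf lf) (s2 lf lf)))))
    ⟨79228162514264506126686255843, 20055092090635, 79228162514264393888539292466,
    28147497671066, 79228162514264478331032305664, 140737488355329⟩ (by decide +kernel)

theorem MG_31 : Hd (QMG coB) 79228162514264506126686255843 20055092090635
    79228162514264450183534634598 28147497671066 79228162514264478331032305664 140737488355329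
    :=
  okMG coB (s2 (s0 (s1 (s2 (s2 (s0 lf (sk 0)) lf) (s2 lf lf)) (s2 (s0 (s2 lf lf) (s2 (s0 lf lf)
    lf)) (s2 lf lf))) (s1 (s2 (sk 0) (s2 lf lf)) (s0 (s2 (s2 (sk 0) lf) (s2 lf lf)) (s2 (sk 0)
    (s2 lf lf))))) (s0 (s1 (s2 (s0 lf lf) lf) (s2 (s2 lf lf) (s0 lf lf))) (s1 (s2 (s2 lf lf) (s0
    lf lf)) (s2 (s2 lf lf) (s2 lf lf)))))
    ⟨79228162514264506126686255843, 20055092090635, 79228162514264450183534634598,
    28147497671066, 79228162514264478331032305664, 140737488355329⟩ (by decide +kernel)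

theorem MG_32 : Hd (QMG coB) 79228162514264496099140210525 10027546045318
    79228162514264506478529976730 28147497671066 79228162514264407962288127999 70368744177665 :=
  okMG coB (s1 (s0 (s2 (s1 (s2 lf lf) (s2 lf lf)) (s2 lf lf)) (s2 (s2 (s2 lf lf) (s0 lf lf)) (s2
    lf lf))) (s1 (s2 (s0 (s2 (s0 lf lf) lf) (s2 (s2 lf lf) lf)) (s2 (s0 lf lf) lf)) (s2 (s2 (s0
    (s2 lf lf) (s2 lf lf)) (s2 (s0 lf lf) lf)) (s0 (s2 lf lf) (s2 lf lf)))))
    ⟨79228162514264496099140210525, 10027546045318, 79228162514264506478529976730,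
    28147497671066, 79228162514264407962288127999, 70368744177665⟩ (by decide +kernel)

theorem MG_33 : Hd (QMG coB) 79228162514264516154232301161 10027546045318
    79228162514264506478529976730 28147497671066 79228162514264407962288127999 70368744177665 :=
  okMG coB (s1 (s2 (s0 (s2 (s2 lf lf) (s1 lf lf)) (s1 (sk 0) (s2 (sk 0) lf))) (s1 (s2 lf lf) (s2
    (s0 lf lf) lf))) (s1 (s2 (s2 (s0 (s2 lf lf) (sk 0)) (s2 (s0 lf lf) lf)) (s0 (s2 lf lf) (s2
    lf lf))) (s2 (s0 (s2 (s2 lf lf) (s2 lf lf)) (s2 (s2 (s0 lf (sk 0)) lf) (s2 lf lf))) (s2 (s2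
    (s0 lf lf) lf) (s0 lf lf)))))
    ⟨79228162514264516154232301161, 10027546045318, 79228162514264506478529976730,
    28147497671066, 79228162514264407962288127999, 70368744177665⟩ (by decide +kernel)

theorem MG_34 : Hd (QMG coB) 79228162514264506126686255843 20055092090635
    79228162514264506478529976730 28147497671066 79228162514264548699776483329 70368744177665 :=
  okMG coB (s0 (s1 (s2 (s2 (s0 lf lf) lf) (s2 lf lf)) (s0 (s2 (s2 lf lf) (s2 lf lf)) (s2 (s2 lf
    lf) (s2 lf lf)))) (s1 (s2 (s0 (s2 lf lf) (s2 lf lf)) (s2 lf lf)) (s0 (s2 (s2 (s0 lf lf) lf)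
    (s2 lf lf)) (s2 (s0 (s2 lf lf) (s2 lf lf)) (s2 lf lf)))))
    ⟨79228162514264506126686255843, 20055092090635, 79228162514264506478529976730,
    28147497671066, 79228162514264548699776483329, 70368744177665⟩ (by decide +kernel)

theorem MG_35 : Hd (QMG coB) 79228162514264491085367187866 5013773022659
    79228162514264562773525318862 28147497671066 79228162514264407962288127999 70368744177665 :=
  okMG coB (s1 (s1 (s2 (s2 (s2 lf lf) (s0 lf lf)) (s2 lf lf)) (s2 (s2 (s2 (s0 lf lf) lf) (s2 lf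
    lf)) (s2 (s0 lf lf) lf))) (s1 (s2 (s2 (s0 (s2 lf lf) (s2 lf lf)) (s2 lf lf)) (s2 (s2 lf lf)
    (s0 lf lf))) (s2 (s0 (s2 (s2 (s0 lf lf) lf) (s2 lf lf)) (s2 (s2 (s0 lf lf) lf) (s2 lf lf)))
    (s2 (s2 lf lf) (s2 lf lf)))))
    ⟨79228162514264491085367187866, 5013773022659, 79228162514264562773525318862,
    28147497671066, 79228162514264407962288127999, 70368744177665⟩ (by decide +kernel)

theorem MG_36 : Hd (QMG coB) 79228162514264501112913233184 5013773022659
    79228162514264562773525318862 28147497671066 79228162514264407962288127999 70368744177665 :=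
  okMG coB (s1 (s1 (s2 (s2 (s2 (s0 lf lf) lf) (s2 lf lf)) (s2 (s0 lf lf) lf)) (s2 (s2 (s0 (s2 lf
    lf) (s2 lf lf)) (s2 lf lf)) (s2 (s2 lf lf) (s0 lf lf)))) (s1 (s2 (s2 (s2 (s2 (s0 lf lf) lf)
    (s0 lf lf)) (s0 (s2 lf lf) (s2 lf lf))) (s2 (s2 lf lf) (s0 lf lf))) (s2 (s2 (s0 (s1 (s2 lf
    lf) (s2 lf lf)) (s1 (s2 lf lf) (s2 lf lf))) (s2 (s2 lf lf) (s0 lf lf))) (s2 (s2 (s0 lf lf)
    lf) (s2 lf lf)))))
    ⟨79228162514264501112913233184, 5013773022659, 79228162514264562773525318862,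
    28147497671066, 79228162514264407962288127999, 70368744177665⟩ (by decide +kernel)

theorem MG_37 : Hd (QMG coB) 79228162514264516154232301161 10027546045318
    79228162514264548699776483329 14073748835533 79228162514264407962288127999 70368744177665 :=
  okMG coB (s0 (s1 (s2 (s2 (s2 (s0 lf lf) lf) (s2 lf lf)) (s2 (s0 lf lf) lf)) (s2 (s2 (s0 (s2 lf
    lf) (s2 (s0 lf lf) lf)) (s2 (s0 lf lf) lf)) (s2 (s2 lf lf) (s0 lf lf)))) (s1 (s2 (s2 (s0 (s2
    lf lf) (s2 lf lf)) (s2 lf lf)) (s2 (s2 lf lf) (s0 lf lf))) (s2 (s2 (s2 (s0 (s0 lf lf) (s1 lf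
    lf)) (s2 lf lf)) (s0 (s2 lf lf) (s2 lf lf))) (s2 (s2 lf lf) (s2 lf lf)))))
    ⟨79228162514264516154232301161, 10027546045318, 79228162514264548699776483329,
    14073748835533, 79228162514264407962288127999, 70368744177665⟩ (by decide +kernel)

theorem MG_38 : Hd (QMG coB) 79228162514264511140459278502 5013773022659
    79228162514264576847274154395 14073748835533 79228162514264407962288127999 70368744177665 :=
  okMG coB (s1 (s2 (s0 (s2 (s1 (s2 lf lf) (s2 lf lf)) (s2 lf lf)) (s2 (s1 (s2 lf lf) (s2 lf lf))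
    (s2 lf lf))) (s2 (s2 (s0 lf lf) lf) (s2 lf lf))) (s2 (s1 (s2 (s2 (s2 lf lf) (s0 lf lf)) (s2
    (s0 lf lf) lf)) (s2 (s2 (s0 (s0 lf lf) (s0 lf lf)) (s2 lf lf)) (s0 (s2 lf lf) (s2 lf lf))))
    (s2 (s0 (s2 lf lf) (s2 lf lf)) (s2 (s0 lf lf) lf))))
    ⟨79228162514264511140459278502, 5013773022659, 79228162514264576847274154395,
    14073748835533, 79228162514264407962288127999, 70368744177665⟩ (by decide +kernel)

theorem MG_39 : Hd (QMG coB) 79228162514264521168005323820 5013773022659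
    79228162514264569810399736628 7036874417767 79228162514264407962288127999 70368744177665 :=
  okMG coB (s2 (s0 (s2 (s2 (s2 lf lf) (s1 lf lf)) (s2 (s0 lf lf) lf)) (s2 (s1 (s2 lf lf) (s2 (s0
    lf lf) lf)) (s2 (s0 lf lf) lf))) (s2 (s0 (s2 lf lf) (s2 lf lf)) (s2 lf lf)))
    ⟨79228162514264521168005323820, 5013773022659, 79228162514264569810399736628, 7036874417767,
    79228162514264407962288127999, 70368744177665⟩ (by decide +kernel)

theorem MG_40 : Hd (QMG coB) 79228162514264521168005323820 5013773022659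
    79228162514264583884148572162 7036874417767 79228162514264407962288127999 70368744177665 :=
  okMG coB (s1 (s2 (s2 (s2 (s0 (s0 lf lf) (s2 lf lf)) (s2 lf lf)) (s0 (s2 lf lf) (s2 lf lf)))
    (s2 (s2 lf lf) (s2 lf lf))) (s2 (s2 (s0 (s2 (s2 lf lf) (s0 lf lf)) (s2 (s2 lf lf) (s0 lf
    lf))) (s2 (s2 lf lf) (s0 lf lf))) (s2 (s2 (s0 lf lf) lf) (s2 lf lf))))
    ⟨79228162514264521168005323820, 5013773022659, 79228162514264583884148572162, 7036874417767,
    79228162514264407962288127999, 70368744177665⟩ (by decide +kernel)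

theorem MG_41 : Hd (QMG coB) 79228162514264496099140210525 10027546045318
    79228162514264562773525318862 28147497671066 79228162514264548699776483329 70368744177665 :=
  okMG coB (s0 (s1 (s2 (s0 (s2 lf lf) (s2 lf lf)) (s2 lf lf)) (s1 (s2 (s2 lf lf) (s2 lf lf)) (s2
    (s0 (s2 lf lf) (s2 lf lf)) (s2 lf lf)))) (s1 (s2 (s1 (s2 lf lf) (s2 lf lf)) (s2 (s0 lf lf)
    lf)) (s1 (s2 (s2 (s0 lf lf) lf) (s2 lf lf)) (s2 (s2 (s2 lf lf) (s0 lf lf)) (s2 lf lf)))))
    ⟨79228162514264496099140210525, 10027546045318, 79228162514264562773525318862,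
    28147497671066, 79228162514264548699776483329, 70368744177665⟩ (by decide +kernel)

end FX.DB
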