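import Pool.Agent.H11.FX.CoAB

/-! Branch and bound data, generated. -/

set_option maxRecDepth 100000

namespace FX.DB

open H41FT H41FT.Tr

theorem PH1_1 : Hd (QPH1 coB) 79228162514264381574009061373 15832967439975
    79228162514264462962498577262 23024653094932 79228162514264499441655558963 119626865102030
    :=
  okPH1 coB (s0 (s1 (s2 (s2 (s2 (s0 lf lf) lf) (s0 lf lf)) (s2 lf lf)) (s2 (s2 (s2 (s0 lf lf)
    lf) (s0 lf lf)) (s0 (s2 lf lf) (s2 lf lf)))) (s1 (s2 (s2 (s2 lf lf) lf) (s2 lf lf)) (s2 (s2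
    (s2 (s0 lf lf) lf) (s0 lf lf)) (s2 lf (s0 lf lf)))))
    ⟨79228162514264381574009061373, 15832967439975, 79228162514264462962498577262,
    23024653094932, 79228162514264499441655558963, 119626865102030⟩ (by decide +kernel)

theorem PH1_2 : Hd (QPH1 coB) 79228162514264413239943941323 15832967439975
    79228162514264462962498577262 23024653094932 79228162514264499441655558963 119626865102030
    :=
  okPH1 coB (s1 (s0 (s2 (s2 (s1 lf lf) lf) (s2 lf lf)) (s2 (s1 (s2 lf lf) (s2 lf lf)) (s2 lf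
    lf))) (s2 (s0 (s2 (s2 (s0 lf lf) lf) (s0 lf lf)) (s1 (s2 lf lf) (s2 lf lf))) (s2 (s0 lf (s0
    lf lf)) (s2 lf (s0 lf lf)))))
    ⟨79228162514264413239943941323, 15832967439975, 79228162514264462962498577262,
    23024653094932, 79228162514264499441655558963, 119626865102030⟩ (by decide +kernel)

theorem PH1_3 : Hd (QPH1 coB) 79228162514264460738846261248 31665934879950
    79228162514264462962498577262 23024653094932 79228162514264499441655558963 119626865102030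
    :=
  okPH1 coB (s0 (s1 (s1 (s2 (s2 (s0 lf lf) lf) (s2 lf lf)) (s2 (s0 (s2 lf lf) (s2 lf lf)) (s2 lf
    lf))) (s1 (s2 (s0 (s2 lf lf) (s2 lf lf)) (s2 lf (s0 lf lf))) (s0 (s2 (s2 lf lf) (s2 lf lf))
    (s2 (s2 (sk 2) lf) (s2 lf lf))))) (s1 (s1 (s2 (s2 (s0 lf lf) lf) (s2 lf lf)) (s2 (s0 (s2 lf
    lf) (s2 lf lf)) (s2 lf lf))) (s1 (s0 (s2 (s2 lf lf) (s2 lf lf)) (s2 (s2 (sk 2) lf) (s2 lf
    lf))) (s2 (s2 (sk 2) (sk 2)) (s0 (s2 lf lf) (s2 lf lf))))))
    ⟨79228162514264460738846261248, 31665934879950, 79228162514264462962498577262,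
    23024653094932, 79228162514264499441655558963, 119626865102030⟩ (by decide +kernel)

theorem PH1_4 : Hd (QPH1 coB) 79228162514264373657525341385 7916483719988
    79228162514264532036457862058 46049306189864 79228162514264499441655558963 119626865102030
    :=
  okPH1 coB (s1 (s1 (s2 (s2 (s2 (s0 lf lf) lf) (s0 lf lf)) (s0 (s2 lf lf) (s2 lf lf))) (s2 (s2
    (s2 (s0 lf lf) lf) (s0 lf lf)) (s2 (s0 lf lf) (s2 lf (s0 lf lf))))) (s1 (s0 (s2 (s2 (s0 lf
    lf) lf) (s2 lf (s1 lf lf))) (s2 (s2 lf lf) (s2 lf (s1 lf lf)))) (s1 (s2 (s2 (sk 2) lf) (s2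
    (s0 lf lf) (s2 lf lf))) (s0 (s2 (sk 2) (s2 lf (s2 lf lf))) (sk 0)))))
    ⟨79228162514264373657525341385, 7916483719988, 79228162514264532036457862058,
    46049306189864, 79228162514264499441655558963, 119626865102030⟩ (by decide +kernel)

theorem PH1_5 : Hd (QPH1 coB) 79228162514264389490492781361 7916483719988
    79228162514264532036457862058 46049306189864 79228162514264499441655558963 119626865102030
    :=
  okPH1 coB (s1 (s1 (s2 (s2 (s2 (s0 lf lf) lf) (s0 lf lf)) (s0 (s2 lf lf) (s2 lf lf))) (s2 (s2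
    (s2 lf lf) (s0 lf lf)) (s2 (s0 lf lf) (s2 lf lf)))) (s1 (s1 (s2 (s2 (sk 2) lf) (s2 lf (s0 lf
    lf))) (s2 (sk 2) (s2 lf (s0 lf lf)))) (s1 (s2 (sk 2) (s2 (sk 2) (s2 (sk 2) lf))) (sk 0))))
    ⟨79228162514264389490492781361, 7916483719988, 79228162514264532036457862058,
    46049306189864, 79228162514264499441655558963, 119626865102030⟩ (by decide +kernel)

theorem PH1_6 : Hd (QPH1 coB) 79228162514264413239943941323 15832967439975
    79228162514264532036457862058 46049306189864 79228162514264499441655558963 119626865102030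
    :=
  okPH1 coB (s1 (s0 (s1 (s1 (s2 (s2 lf lf) (s2 lf lf)) (s2 (s2 lf lf) (s2 lf lf))) (s2 (s1 (s2
    lf lf) (s0 (sk 2) (sk 2))) (s2 (s0 lf lf) (s2 lf lf)))) (s1 (s1 (s2 (s2 lf lf) (s2 lf lf))
    (s2 (s2 (sk 2) lf) (s2 lf lf))) (s2 (s1 (sk 2) (sk 2)) (s2 (s1 lf (sk 2)) (s2 lf lf))))) (s1
    (s0 (s2 (sk 2) (s0 (s2 (sk 2) (s1 lf (sk 2))) (s1 (s2 (sk 2) lf) (sk 0)))) (s0 (sk 0) (sk
    0))) (sk 0)))
    ⟨79228162514264413239943941323, 15832967439975, 79228162514264532036457862058,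
    46049306189864, 79228162514264499441655558963, 119626865102030⟩ (by decide +kernel)

theorem PH1_7 : Hd (QPH1 coB) 79228162514264460738846261248 31665934879950
    79228162514264532036457862058 46049306189864 79228162514264499441655558963 119626865102030
    :=
  okPH1 coB (s1 (s0 (s1 (s0 (s1 (s2 (s2 (sk 2) lf) (s2 lf lf)) (s2 (sk 2) (s2 lf lf))) (s2 (s1
    (sk 2) (sk 2)) (s2 (s1 lf (sk 2)) (s2 lf lf)))) (s1 (s2 (sk 2) (s2 (sk 2) (s2 lf lf))) (s0
    (s2 (sk 2) (s2 (sk 2) (sk 2))) (sk 0)))) (s1 (s1 (s2 (sk 2) (s2 (sk 2) (s2 lf lf))) (s2 (sk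
    2) (s2 (sk 2) (s2 (sk 2) lf)))) (sk 0))) (sk 0))
    ⟨79228162514264460738846261248, 31665934879950, 79228162514264532036457862058,
    46049306189864, 79228162514264499441655558963, 119626865102030⟩ (by decide +kernel)

theorem PH1_8 : Hd (QPH1 coB) 79228162514264524070716021146 31665934879950
    79228162514264485987151672194 92098612379728 79228162514264499441655558963 119626865102030
    :=
  okPH1 coB (s1 (s1 (s2 (s1 (s2 (sk 1) (sk 1)) (s0 (s1 (s2 (s1 (sk 1) lf) lf) (s2 (s0 lf lf)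
    lf)) (s1 (s2 (s1 lf lf) lf) (s1 (s2 lf lf) (s2 lf lf))))) (s1 (sk 1) (s1 (s2 (s0 (sk 1) lf)
    (sk 1)) (s0 (s2 lf lf) (s2 lf lf))))) (s2 (s0 (s1 (s0 (s1 (s2 lf lf) (s2 (sk 2) lf)) (s1 (s2
    lf lf) (s2 (sk 2) (sk 2)))) (s2 (sk 2) (sk 2))) (s1 (s1 (s1 (s2 (sk 2) lf) (s2 (sk 2) (sk
    2))) (s0 (sk 2) (sk 2))) (s0 (sk 2) (sk 2)))) (s1 (s1 (s2 (s0 lf (s0 lf lf)) (s2 lf lf)) (s0
    (s0 (s2 lf lf) (s2 lf lf)) (s0 (s2 lf lf) (s2 (sk 2) lf)))) (s0 (s1 (s0 (s2 lf lf) (s2 (sk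
    2) lf)) (s2 (sk 2) (s2 (sk 2) lf))) (s2 (sk 2) (s1 (s2 (sk 2) lf) (sk 2))))))) (s0 (s1 (s0
    (s1 (s2 (sk 2) (s2 (sk 2) (sk 2))) (sk 0)) (sk 0)) (sk 0)) (sk 0)))
    ⟨79228162514264524070716021146, 31665934879950, 79228162514264485987151672194,
    92098612379728, 79228162514264499441655558963, 119626865102030⟩ (by decide +kernel)

theorem PH1_9 : Hd (QPH1 coB) 79228162514264587402585781046 31665934879950
    79228162514264485987151672194 92098612379728 79228162514264499441655558963 119626865102030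
    :=
  okPH1 coB (s1 (s1 (s2 (s1 (s1 (sk 1) (s1 (sk 1) (s0 (s2 lf (sk 1)) (s2 lf lf)))) (s1 (s2 (s1
    (s2 lf lf) (s0 lf (sk 2))) (s2 lf lf)) (s0 (s1 (s2 lf lf) (s2 (sk 2) lf)) (s2 (sk 2) (sk
    2))))) (s1 (s2 (sk 1) (sk 1)) (s1 (s2 (s0 lf lf) (s2 lf (sk 1))) (s2 (s2 lf lf) (s2 lf
    lf))))) (s2 (s1 (s1 (s2 (sk 2) (sk 2)) (sk 2)) (s1 (sk 2) (sk 0))) (s0 (s1 (s1 (s0 (s2 lf
    lf) (s2 (sk 2) lf)) (s2 (sk 2) (s1 lf (sk 2)))) (s2 (sk 2) (sk 2))) (s1 (s2 (sk 2) (s1 (s1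
    lf (sk 2)) (sk 2))) (sk 0))))) (sk 0))
    ⟨79228162514264587402585781046, 31665934879950, 79228162514264485987151672194,
    92098612379728, 79228162514264499441655558963, 119626865102030⟩ (by decide +kernel)

theorem PH2_0 : Hd (QPH2 coB) 79228162514264381574009061373 15832967439975
    79228162514264485987151672194 92098612379728 79228162514264499441655558963 119626865102030
    :=
  okPH2 coB (s1 (s1 (sk 1) (s2 (sk 1) (sk 1))) (s1 (s1 (s2 (s0 (sk 1) (s0 (sk 1) (s2 lf lf)))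
    (sk 1)) (s0 (s1 (s2 (sk 1) (sk 1)) (s2 (s2 lf lf) (s2 (sk 1) (sk 1)))) (s2 (s1 (s2 lf lf)
    (s2 lf lf)) (s2 (s2 lf (s0 lf lf)) (s0 (sk 1) (s1 (sk 1) lf)))))) (s0 (s1 (s2 (s2 (s2 lf lf)
    (s0 lf lf)) (s0 (s1 (s2 lf (sk 1)) (s2 lf (s2 lf (sk 1)))) (s2 (s0 lf lf) (s2 lf (s1 (sk 1)
    lf))))) (s1 (s2 (s2 (s0 lf lf) lf) (s2 (s0 lf lf) (s2 lf (s0 lf lf)))) (s0 (s2 (s2 lf lf)
    (s2 lf (s2 lf lf))) (sk 0)))) (s1 (s2 (s2 (s2 lf lf) (s0 lf lf)) (s2 (s2 lf lf) (s0 (s2 lf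
    lf) (s2 lf lf)))) (s0 (s1 (s2 (s2 lf lf) (s0 (s2 lf lf) (sk 0))) (sk 0)) (sk 0))))))
    ⟨79228162514264381574009061373, 15832967439975, 79228162514264485987151672194,
    92098612379728, 79228162514264499441655558963, 119626865102030⟩ (by decide +kernel)

theorem PH2_1 : Hd (QPH2 coB) 79228162514264413239943941323 15832967439975
    79228162514264485987151672194 92098612379728 79228162514264499441655558963 119626865102030
    :=
  okPH2 coB (s1 (s1 (sk 1) (s1 (s2 (sk 1) (sk 1)) (s2 (s0 (sk 1) (s1 (sk 1) (s2 lf lf))) (s2 (sk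
    1) (sk 1))))) (s1 (s0 (s1 (s1 (s2 (s2 lf lf) (sk 1)) (s2 (s2 lf lf) (s2 lf (sk 1)))) (s2 (s2
    (s2 lf lf) (s0 lf lf)) (s1 (s2 lf (s0 lf lf)) (s2 lf (s0 lf lf))))) (s1 (s1 (s2 (s2 lf lf)
    (s2 lf (sk 1))) (s2 (s2 lf lf) (s2 lf (s0 lf lf)))) (s2 (s2 (s2 lf lf) (s0 lf lf)) (s2 (s1
    lf lf) (s2 lf (s0 lf lf)))))) (s1 (s0 (s1 (s2 (s2 (s0 lf lf) lf) (s2 lf (s0 lf lf))) (s0 (s2
    (s0 (sk 0) (sk 0)) (s0 (sk 0) (sk 0))) (sk 0))) (s0 (sk 0) (sk 0))) (sk 0))))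
    ⟨79228162514264413239943941323, 15832967439975, 79228162514264485987151672194,
    92098612379728, 79228162514264499441655558963, 119626865102030⟩ (by decide +kernel)

theorem PH2_2 : Hd (QPH2 coB) 79228162514264460738846261248 31665934879950
    79228162514264439937845482330 46049306189864 79228162514264499441655558963 119626865102030
    :=
  okPH2 coB (s1 (s2 (s1 (sk 1) (sk 1)) (sk 1)) (s0 (s1 (s2 (s0 (sk 1) (s1 (sk 1) (s2 lf (sk
    1)))) (sk 1)) (s0 (s1 (s2 (s2 lf lf) (sk 1)) (s2 (s2 lf lf) (s2 lf (sk 1)))) (s2 (s1 (s2 lf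
    lf) (s2 lf lf)) (s2 (s1 lf lf) (s2 lf (sk 1)))))) (s1 (s1 (s2 (s2 (s0 (sk 1) lf) lf) (sk 1))
    (s2 (s0 (s2 lf lf) (s2 lf lf)) (s2 (s0 lf lf) (sk 1)))) (s0 (s2 (s1 (s2 lf lf) (s2 lf lf))
    (s2 (s1 lf lf) (s2 lf lf))) (s2 (s1 (s2 lf lf) (s2 lf lf)) (s2 (s1 lf lf) (s2 lf lf)))))))
    ⟨79228162514264460738846261248, 31665934879950, 79228162514264439937845482330,
    46049306189864, 79228162514264499441655558963, 119626865102030⟩ (by decide +kernel)

theorem PH2_3 : Hd (QPH2 coB) 79228162514264460738846261248 31665934879950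
    79228162514264532036457862058 46049306189864 79228162514264499441655558963 119626865102030
    :=
  okPH2 coB (s1 (s0 (s0 (s1 (s2 (s1 (s2 lf lf) (s2 lf lf)) (s2 (s1 lf lf) (s2 lf lf))) (s2 (s2
    (s2 lf lf) (s1 lf lf)) (s2 (s1 lf lf) (s2 lf (s0 lf lf))))) (s1 (s2 (s1 (s2 lf lf) (s2 lf
    lf)) (s2 (s1 lf lf) (s2 lf lf))) (s0 (s1 (s2 (s2 lf lf) (s2 lf lf)) (sk 0)) (sk 0)))) (s1
    (s1 (s2 (s0 (s2 lf lf) (s2 lf lf)) (s2 (s0 lf lf) (s2 lf lf))) (s0 (s2 (s2 lf lf) (s2 lf (s0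
    lf lf))) (sk 0))) (sk 0))) (sk 0))
    ⟨79228162514264460738846261248, 31665934879950, 79228162514264532036457862058,
    46049306189864, 79228162514264499441655558963, 119626865102030⟩ (by decide +kernel)

theorem PH2_4 : Hd (QPH2 coB) 79228162514264524070716021146 31665934879950
    79228162514264416913192387398 23024653094932 79228162514264499441655558963 119626865102030
    :=
  okPH2 coB (s2 (s1 (sk 1) (s1 (s0 (sk 1) (s0 (sk 1) (s2 lf (sk 1)))) (s2 (s2 (s0 lf lf) lf) (s0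
    lf lf)))) (s1 (sk 1) (s1 (sk 1) (s0 (sk 1) (s2 lf (sk 1))))))
    ⟨79228162514264524070716021146, 31665934879950, 79228162514264416913192387398,
    23024653094932, 79228162514264499441655558963, 119626865102030⟩ (by decide +kernel)

theorem PH2_5 : Hd (QPH2 coB) 79228162514264508237748581171 15832967439975
    79228162514264462962498577262 23024653094932 79228162514264499441655558963 119626865102030
    :=
  okPH2 coB (s1 (s1 (s2 (s0 (s2 lf lf) (s2 lf lf)) (s2 lf (s0 (sk 1) (sk 1)))) (s0 (s2 (s2 lf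
    lf) (s2 lf lf)) (s2 (s2 lf lf) (s2 lf lf)))) (s1 (s2 (s2 (s2 lf lf) (s0 lf lf)) (s2 (s0 lf
    lf) (s2 lf lf))) (s2 (s2 (s2 lf lf) (s0 lf lf)) (s2 (s0 lf lf) (s2 lf lf)))))
    ⟨79228162514264508237748581171, 15832967439975, 79228162514264462962498577262,
    23024653094932, 79228162514264499441655558963, 119626865102030⟩ (by decide +kernel)

theorem PH2_6 : Hd (QPH2 coB) 79228162514264539903683461121 15832967439975
    79228162514264462962498577262 23024653094932 79228162514264499441655558963 119626865102030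
    :=
  okPH2 coB (s2 (s1 (s1 (s1 (s2 lf lf) (s2 lf lf)) (s1 (s2 lf lf) (s2 lf lf))) (s1 (s2 (s2 lf
    lf) (s0 lf lf)) (s0 (s1 (s2 lf lf) (sk 0)) (sk 0)))) (s1 (s0 (s1 (s2 lf lf) (s2 lf lf)) (s2
    (s1 lf lf) (s2 lf lf))) (s1 (s2 (s0 lf lf) (s2 lf lf)) (s0 (s1 (s2 lf lf) (sk 0)) (sk 0)))))
    ⟨79228162514264539903683461121, 15832967439975, 79228162514264462962498577262,
    23024653094932, 79228162514264499441655558963, 119626865102030⟩ (by decide +kernel)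

end FX.DB
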