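import Pool.Agent.H11.FX.CoAB

/-! Branch and bound data, generated. -/

set_option maxRecDepth 100000

namespace FX.DB

open H41FT H41FT.Tr

theorem R2b_11 : Hd (QR2b coB) 79228162514264361123092784740 1275433488221
    79228162514264601586285779354 1165482325443 79228162514264471294157887896 49258120924366 :=
  okR2b coB (s1 (s2 (s0 (s1 (s2 (s0 (s2 (sk 0) (s2 (sk 0) lf)) (sk 0)) lf) (s2 (sk 0) (s2 (s0
    (s0 lf (s2 (sk 0) lf)) (s0 (s1 lf (sk 0)) (sk 0))) lf))) (s2 (sk 0) (s1 (s2 (s0 (s2 (sk 0)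
    lf) (sk 0)) lf) (s2 (sk 0) (s0 (s0 lf (s2 (sk 0) lf)) (s1 (s2 (sk 0) lf) (sk 0))))))) lf)
    (s2 (s2 (sk 0) (s0 (s0 (s1 (s2 (s0 (s2 (sk 0) lf) (sk 0)) lf) (s2 (sk 0) (s2 (s0 (s1 lf (sk
    0)) (sk 0)) lf))) (s2 (sk 0) (s1 (s1 lf (s2 (sk 0) lf)) (s0 (s1 (s2 (sk 0) lf) (sk 0)) (sk
    0))))) (s0 (s1 (s1 (s2 (sk 0) (s2 (sk 0) lf)) (sk 0)) (sk 0)) (sk 0)))) (s2 (s0 lf (s2 (s0
    (s1 lf (s2 (s0 (s1 lf (sk 0)) (sk 0)) lf)) (s1 (s1 lf (s2 (sk 0) lf)) (s1 (s2 (sk 0) lf) (sk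
    0)))) lf)) lf)))
    ⟨79228162514264361123092784740, 1275433488221, 79228162514264601586285779354, 1165482325443,
    79228162514264471294157887896, 49258120924366⟩ (by decide +kernel)

theorem R2b_12 : Hd (QR2b coB) 79228162514264361123092784740 1275433488221
    79228162514264603917250430240 1165482325443 79228162514264471294157887896 49258120924366 :=
  okR2b coB (s2 (s0 (s2 (sk 0) (sk 0)) (sk 0)) (s1 (s2 (s0 (s1 (s2 (s2 (s0 (s0 lf (s1 lf (sk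
    0))) (s0 (s1 lf (sk 0)) (sk 0))) lf) lf) (s2 (s2 (sk 0) (s0 (s0 lf (s1 lf (sk 0))) (sk 0)))
    (s0 lf (s1 lf (s2 (s2 (sk 0) lf) lf))))) (s0 (s1 (s2 (s0 (s1 (s2 (sk 0) lf) (sk 0)) (sk 0))
    lf) (s2 (sk 0) (s2 (s0 (s1 lf (sk 0)) (sk 0)) lf))) (s2 (sk 0) (s1 (s2 (s2 (sk 0) lf) lf)
    (s2 (sk 0) (s1 lf (s2 (sk 0) lf))))))) lf) (s2 (s2 (sk 0) (s0 (s0 (s1 (s1 lf (s2 (s2 (sk 0)
    lf) lf)) (s2 (sk 0) (s0 (s1 lf (s1 lf (sk 0))) (s1 (s2 (sk 0) lf) (sk 0))))) (s2 (sk 0) (s1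
    (s1 lf (s2 (sk 0) lf)) (s0 (s0 (s0 (sk 0) (sk 0)) (sk 0)) (sk 0))))) (s0 (s0 (s1 (s1 (s2 (sk
    0) lf) (sk 0)) (sk 0)) (sk 0)) (sk 0)))) (s2 (s0 (s0 lf (s0 lf (s1 lf (s1 lf (s1 lf (s2 (sk
    0) lf)))))) (s0 (s1 lf (s2 (s1 (s2 (sk 0) lf) (sk 0)) lf)) (s1 (s1 lf (s2 (s2 (sk 0) lf)
    lf)) (s2 (sk 0) (s1 lf (s2 (sk 0) lf)))))) lf))))
    ⟨79228162514264361123092784740, 1275433488221, 79228162514264603917250430240, 1165482325443,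
    79228162514264471294157887896, 49258120924366⟩ (by decide +kernel)

theorem R2b_13 : Hd (QR2b coB) 79228162514264364949393249401 2550866976441
    79228162514264601586285779354 1165482325443 79228162514264471294157887896 49258120924366 :=
  okR2b coB (s2 (s0 (s0 (s0 (s1 (s1 (s2 (sk 0) (s2 (sk 0) (s2 (sk 0) lf))) (sk 0)) (sk 0)) (sk
    0)) (sk 0)) (sk 0)) (s2 (s0 (s0 (s1 (s1 lf (s2 (s0 lf (s2 (sk 0) lf)) lf)) (s1 (s2 (s0 (s2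
    (sk 0) (s0 lf (s1 lf (sk 0)))) (sk 0)) lf) (s2 (sk 0) (s2 (s0 (s0 lf (s1 lf (sk 0))) (s0 (s1
    lf (sk 0)) (sk 0))) lf)))) (s1 (s0 (s2 (s1 (s1 lf (s2 (sk 0) lf)) (s1 (s2 (sk 0) lf) (sk
    0))) lf) (s1 (s2 (s1 (s2 (sk 0) lf) (sk 0)) lf) (s2 (sk 0) (s0 lf (s1 lf (s2 (sk 0) lf))))))
    (s2 (sk 0) (s0 (s1 (s1 lf (s2 (sk 0) lf)) (s2 (sk 0) (s2 (sk 0) lf))) (s1 (s2 (sk 0) (s0 lf
    (s1 lf (sk 0)))) (sk 0)))))) (s2 (sk 0) (s0 (s1 (s1 (s0 lf (s1 lf (s2 (sk 0) lf))) (s2 (sk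
    0) (s0 lf (s1 lf (sk 0))))) (s0 (s0 (s1 (s1 (s2 (sk 0) lf) (sk 0)) (sk 0)) (sk 0)) (sk 0)))
    (s0 (s1 (s1 (s2 (sk 0) lf) (sk 0)) (sk 0)) (sk 0))))) (s2 (s0 lf (s0 (s1 lf (s2 (s0 (s1 lf
    (s2 (sk 0) lf)) (s1 (s0 lf (s1 lf (sk 0))) (sk 0))) lf)) (s0 (s1 lf (s2 (s0 (s0 (sk 0) (sk
    0)) (sk 0)) (s1 lf (s1 lf (sk 0))))) (s1 (s1 lf (s1 lf (s2 (sk 0) lf))) (s1 (s2 (sk 0) (s0
    lf (s1 lf (sk 0)))) (sk 0)))))) lf)))
    ⟨79228162514264364949393249401, 2550866976441, 79228162514264601586285779354, 1165482325443,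
    79228162514264471294157887896, 49258120924366⟩ (by decide +kernel)

theorem R2b_14 : Hd (QR2b coB) 79228162514264364949393249401 2550866976441
    79228162514264603917250430240 1165482325443 79228162514264471294157887896 49258120924366 :=
  okR2b coB (s2 (sk 0) (s0 (s1 (s2 (s0 (s2 (sk 0) (s1 (s2 (sk 0) (s0 (s0 lf (s2 (sk 0) lf)) (s0
    (s1 lf (sk 0)) (sk 0)))) (sk 0))) (sk 0)) (s2 (s0 (s1 lf (s2 (s0 (s1 lf (s2 (sk 0) lf)) (s1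
    (s2 (sk 0) lf) (sk 0))) lf)) (s1 (s2 (s0 (s0 lf (s1 lf (sk 0))) (s1 (s2 (sk 0) lf) (sk 0)))
    lf) (s2 (sk 0) (s0 (s0 lf (s2 (sk 0) lf)) (s0 (s1 lf (sk 0)) (sk 0)))))) lf)) (s2 (sk 0) (s0
    (s0 (s2 (s1 (s2 (s0 (s1 (s1 lf (sk 0)) (sk 0)) (sk 0)) lf) (s1 (s2 (sk 0) (s2 (sk 0) lf))
    (sk 0))) lf) (s1 (s2 (s2 (sk 0) (s2 (sk 0) lf)) lf) (s2 (sk 0) (s1 lf (s2 (s2 (sk 0) lf)
    lf))))) (s2 (sk 0) (s0 (s1 lf (s2 (s1 (s2 (sk 0) lf) (sk 0)) lf)) (s1 (s2 (s2 (sk 0) lf) lf)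
    (s2 (sk 0) (s0 lf (s2 (sk 0) lf))))))))) (s2 (sk 0) (s0 (s1 (s1 (s2 (s2 (sk 0) (s0 (s2 (sk
    0) lf) (s0 (s0 (sk 0) (sk 0)) (sk 0)))) lf) (s2 (sk 0) (s2 (s2 (s0 (s0 lf (sk 0)) (sk 0))
    lf) lf))) (s2 (sk 0) (s0 (s2 (sk 0) (s1 lf (s1 (s2 (sk 0) lf) (sk 0)))) (s1 (s2 (sk 0) (s0
    lf (s1 lf (sk 0)))) (sk 0))))) (s2 (sk 0) (s1 (s1 (s2 (s0 (s0 lf (s1 lf (sk 0))) (s0 (s1 lf
    (sk 0)) (sk 0))) lf) (s2 (sk 0) (s0 lf (s2 (sk 0) lf)))) (s0 (s0 (s1 (s2 (sk 0) (s2 (sk 0)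
    lf)) (sk 0)) (sk 0)) (sk 0))))))))
    ⟨79228162514264364949393249401, 2550866976441, 79228162514264603917250430240, 1165482325443,
    79228162514264471294157887896, 49258120924366⟩ (by decide +kernel)

theorem R2b_15 : Hd (QR2b coB) 79228162514264362398526272960 5101733952881
    79228162514264602751768104797 2330964650886 79228162514264569810399736628 49258120924366 :=
  okR2b coB (s2 (s2 (s0 lf (s0 lf (s1 lf (s1 lf (s0 lf (s1 lf (s2 (s2 (s2 (sk 0) (s0 lf (s0 lf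
    (sk 0)))) lf) lf))))))) lf) (s2 lf lf))
    ⟨79228162514264362398526272960, 5101733952881, 79228162514264602751768104797, 2330964650886,
    79228162514264569810399736628, 49258120924366⟩ (by decide +kernel)

theorem R2b_16 : Hd (QR2b coB) 79228162514264359847659296519 2550866976441
    79228162514264607413697406569 2330964650886 79228162514264446665097425713 24629060462183 :=
  okR2b coB (sk 0)
    ⟨79228162514264359847659296519, 2550866976441, 79228162514264607413697406569, 2330964650886,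
    79228162514264446665097425713, 24629060462183⟩ (by decide +kernel)

theorem R2b_17 : Hd (QR2b coB) 79228162514264357934509064187 637716744111
    79228162514264606248215081126 1165482325443 79228162514264495923218350079 24629060462183 :=
  okR2b coB (s1 (s2 (s1 (s2 (s2 (sk 0) (s0 (s1 lf (s0 (s2 (sk 0) lf) (sk 0))) (s0 (s1 (s2 (sk 0)
    lf) (sk 0)) (sk 0)))) (s0 lf (s1 lf (s2 (s2 (sk 0) lf) lf)))) (s2 (sk 0) (s0 (s2 (s0 (s1 lf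
    (s2 (sk 0) lf)) (s1 (s2 (sk 0) lf) (sk 0))) lf) (s2 (sk 0) (s0 (s1 lf (s2 (sk 0) lf)) (s1
    (s2 (sk 0) lf) (sk 0))))))) lf) (s2 (s0 (s1 (s2 (sk 0) (s2 (sk 0) (s1 (s2 (s0 (s0 lf (sk 0))
    (sk 0)) lf) (s0 (s1 (s2 (sk 0) lf) (sk 0)) (sk 0))))) (sk 0)) (sk 0)) (s2 (s1 (s2 (s0 (s0 lf
    (s0 lf (s1 lf (s2 (sk 0) lf)))) (s0 (s1 lf (s2 (sk 0) lf)) (s1 (s2 (sk 0) lf) (sk 0)))) lf)
    (s0 (s1 (s2 (s2 (sk 0) (s0 lf (s0 lf (sk 0)))) lf) (s2 (sk 0) (s0 lf (s1 lf (s2 (sk 0)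
    lf))))) (s2 (sk 0) (s0 (s1 lf (s1 (s2 (sk 0) lf) (sk 0))) (s1 (s2 (sk 0) lf) (sk 0))))))
    lf)))
    ⟨79228162514264357934509064187, 637716744111, 79228162514264606248215081126, 1165482325443,
    79228162514264495923218350079, 24629060462183⟩ (by decide +kernel)

theorem R2b_18 : Hd (QR2b coB) 79228162514264359209942552409 637716744111
    79228162514264606248215081126 1165482325443 79228162514264495923218350079 24629060462183 :=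
  okR2b coB (s1 (s2 (s2 (sk 0) (s0 (s0 (s1 (s2 (s1 (s1 lf (sk 0)) (sk 0)) lf) (s1 (s2 (sk 0) (s2
    (sk 0) lf)) (sk 0))) (s1 (s2 (sk 0) (s1 lf (s2 (sk 0) lf))) (sk 0))) (s1 (s1 (s2 (sk 0) (s2
    (sk 0) lf)) (sk 0)) (sk 0)))) (s2 (s1 lf (s2 (s0 (s1 lf (s2 (s0 (s0 lf (sk 0)) (sk 0)) lf))
    (s1 (s2 (sk 0) lf) (sk 0))) lf)) lf)) (s2 (sk 0) (s2 (s0 (s1 (s1 (s2 (s0 (s0 (s2 (sk 0) lf)
    (sk 0)) (sk 0)) lf) (s2 (sk 0) (s2 (s0 (s0 lf (sk 0)) (sk 0)) lf))) (s0 (s0 (s1 (s2 (sk 0)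
    (s2 (sk 0) lf)) (sk 0)) (sk 0)) (sk 0))) (s1 (s1 (s2 (sk 0) (s2 (sk 0) lf)) (sk 0)) (sk 0)))
    (s2 (s1 lf (s0 (s1 lf (s2 (s0 (s0 lf (sk 0)) (sk 0)) lf)) (s1 (s2 (sk 0) lf) (sk 0))))
    lf))))
    ⟨79228162514264359209942552409, 637716744111, 79228162514264606248215081126, 1165482325443,
    79228162514264495923218350079, 24629060462183⟩ (by decide +kernel)

theorem R2b_19 : Hd (QR2b coB) 79228162514264358572225808298 1275433488221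
    79228162514264608579179732012 1165482325443 79228162514264495923218350079 24629060462183 :=
  okR2b coB (s2 (sk 0) (s0 (s1 (s1 (s2 (s0 (s1 (s2 (sk 0) (s2 (sk 0) (s0 lf (s1 lf (sk 0)))))
    (sk 0)) (sk 0)) (s2 (s0 (s0 lf (s1 lf (s2 (s0 (s1 lf (sk 0)) (sk 0)) lf))) (s1 (s2 (s0 (s1
    lf (sk 0)) (sk 0)) lf) (s0 (s1 (s2 (sk 0) lf) (sk 0)) (sk 0)))) lf)) (s2 (sk 0) (s0 (s1 (s2
    (s2 (sk 0) (s0 (s0 lf (s1 lf (sk 0))) (s0 (sk 0) (sk 0)))) lf) (s2 (sk 0) (s2 (s0 (s0 lf (s1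
    lf (sk 0))) (sk 0)) lf))) (s2 (sk 0) (s1 (s2 (s0 (s1 lf (sk 0)) (sk 0)) lf) (s0 (s1 (s2 (sk
    0) lf) (sk 0)) (sk 0))))))) (s0 (s1 (s1 (s2 (sk 0) (s2 (sk 0) (s2 (sk 0) (s0 (s0 lf (s1 lf
    (sk 0))) (sk 0))))) (sk 0)) (sk 0)) (sk 0))) (s1 (s2 (sk 0) (s0 (s1 (s1 (s2 (s0 (s0 (s2 (sk
    0) lf) (sk 0)) (sk 0)) lf) (s2 (sk 0) (s2 (s0 (s0 lf (sk 0)) (sk 0)) lf))) (s0 (s0 (s1 (s2
    (sk 0) (s2 (sk 0) lf)) (sk 0)) (sk 0)) (sk 0))) (s1 (s2 (sk 0) (s1 (s2 (s0 (s1 lf (sk 0))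
    (sk 0)) lf) (s0 (s0 (s2 (sk 0) lf) (sk 0)) (sk 0)))) (sk 0)))) (sk 0))))
    ⟨79228162514264358572225808298, 1275433488221, 79228162514264608579179732012, 1165482325443,
    79228162514264495923218350079, 24629060462183⟩ (by decide +kernel)

theorem R2b_20 : Hd (QR2b coB) 79228162514264361123092784740 1275433488221
    79228162514264607413697406569 2330964650886 79228162514264495923218350079 24629060462183 :=
  okR2b coB (s2 (sk 0) (s1 (s1 (s0 (s1 (s2 (s0 (s2 (s0 (s1 lf (s2 (sk 0) lf)) (s1 (s2 (sk 0) lf)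
    (sk 0))) lf) (s0 (s2 (s1 (s2 (sk 0) lf) (sk 0)) lf) (s2 (sk 0) (s1 lf (s2 (sk 0) lf))))) lf)
    (s2 (s2 (sk 0) (s0 (s0 (s1 lf (s2 (sk 0) lf)) (s1 (s2 (sk 0) lf) (sk 0))) (s0 (s1 (s2 (sk 0)
    lf) (sk 0)) (sk 0)))) (s0 lf (s0 lf (s1 lf (s2 (s2 (sk 0) lf) lf)))))) (s0 (s1 (s2 (s2 (sk
    0) (s2 (sk 0) (s0 lf (s1 lf (sk 0))))) lf) (s2 (sk 0) (s2 (s0 (s1 lf (s2 (sk 0) lf)) (s1 (s2
    (sk 0) lf) (sk 0))) lf))) (s2 (sk 0) (s1 (s1 lf (s2 (s2 (sk 0) lf) lf)) (s0 (s2 (s1 (s2 (sk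
    0) lf) (sk 0)) lf) (s2 (sk 0) (s1 lf (s2 (sk 0) lf)))))))) (s2 (sk 0) (s0 (s1 (s0 (s2 (s1
    (s0 lf (s0 lf (s2 (sk 0) lf))) (s2 (sk 0) (s0 lf (s0 lf (sk 0))))) lf) (s0 (s2 (s1 (s2 (sk
    0) lf) (sk 0)) lf) (s2 (sk 0) (s0 lf (s1 lf (s2 (sk 0) lf)))))) (s2 (sk 0) (s0 (s1 lf (s2
    (sk 0) lf)) (s1 (s2 (sk 0) lf) (sk 0))))) (s1 (s2 (sk 0) (s0 (s2 (s0 (s1 lf (sk 0)) (sk 0))
    lf) (s1 (s2 (sk 0) lf) (sk 0)))) (sk 0))))) (s0 (s0 (s0 (s0 (sk 0) (sk 0)) (sk 0)) (sk 0))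
    (sk 0))))
    ⟨79228162514264361123092784740, 1275433488221, 79228162514264607413697406569, 2330964650886,
    79228162514264495923218350079, 24629060462183⟩ (by decide +kernel)

theorem R2b_21 : Hd (QR2b coB) 79228162514264364949393249401 2550866976441
    79228162514264607413697406569 2330964650886 79228162514264471294157887896 49258120924366 :=
  okR2b coB (s1 (s2 (sk 0) (s0 (s2 (sk 0) (s1 (s2 (sk 0) (s0 (s0 (s1 (s2 (s1 (s2 (sk 0) lf) (sk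
    0)) lf) (s2 (sk 0) (s2 (s0 (s1 lf (sk 0)) (sk 0)) lf))) (s2 (sk 0) (s1 (s1 lf (s2 (sk 0)
    lf)) (s0 (s1 (s2 (sk 0) lf) (sk 0)) (sk 0))))) (s0 (s1 (s2 (sk 0) (s2 (sk 0) (s1 lf (s0 (sk
    0) (sk 0))))) (sk 0)) (sk 0)))) (sk 0))) (sk 0))) (sk 0))
    ⟨79228162514264364949393249401, 2550866976441, 79228162514264607413697406569, 2330964650886,
    79228162514264471294157887896, 49258120924366⟩ (by decide +kernel)

theorem R2b_22 : Hd (QR2b coB) 79228162514264358572225808298 1275433488221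
    79228162514264607413697406569 2330964650886 79228162514264532866809043353 12314530231092 :=
  okR2b coB (s1 lf (s0 (s1 lf (s2 (s1 (s2 (s0 (s1 lf (s2 (s0 (s0 lf (s1 lf (sk 0))) (s0 (s1 lf
    (sk 0)) (sk 0))) lf)) (s0 (s2 (s1 (s1 lf (sk 0)) (sk 0)) lf) (s1 (s2 (sk 0) lf) (sk 0))))
    lf) (s0 (s1 (s2 (s2 (sk 0) (s0 lf (s1 lf (sk 0)))) lf) (s2 (sk 0) (s0 lf (s1 lf (s2 (sk 0)
    lf))))) (s2 (sk 0) (s1 (s0 lf (s1 lf (s2 (sk 0) lf))) (s2 (sk 0) (s0 lf (s0 lf (sk 0))))))))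
    lf)) (s1 (s1 lf (s2 (s2 (s0 (s1 lf (s2 (s0 (s1 lf (sk 0)) (sk 0)) lf)) (s0 (s2 (s0 (s1 lf
    (sk 0)) (sk 0)) lf) (s1 (s2 (sk 0) lf) (sk 0)))) lf) lf)) (s0 (s2 (s1 (s0 (s2 (s1 (s2 (sk 0)
    lf) (sk 0)) lf) (s2 (sk 0) (s1 lf (s2 (sk 0) lf)))) (s1 (s2 (sk 0) (s2 (sk 0) (s0 lf (s0 lf
    (sk 0))))) (sk 0))) lf) (s1 (s2 (s2 (sk 0) (s1 (s0 lf (s2 (sk 0) lf)) (s2 (sk 0) (s2 (sk 0)
    lf)))) lf) (s2 (sk 0) (s1 lf (s2 (s2 (sk 0) lf) lf))))))))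
    ⟨79228162514264358572225808298, 1275433488221, 79228162514264607413697406569, 2330964650886,
    79228162514264532866809043353, 12314530231092⟩ (by decide +kernel)

theorem R2b_23 : Hd (QR2b coB) 79228162514264361123092784740 1275433488221
    79228162514264607413697406569 2330964650886 79228162514264532866809043353 12314530231092 :=
  okR2b coB (s0 (s1 lf (s1 (s2 (s1 (s2 (s0 (s1 lf (s2 (s0 (s0 lf (sk 0)) (sk 0)) lf)) (s2 (sk 0)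
    (s0 lf (s1 lf (sk 0))))) lf) (s2 (s0 (s0 (s1 (s2 (sk 0) lf) (sk 0)) (sk 0)) (sk 0)) (s2 (s0
    (s0 lf (s1 lf (sk 0))) (s0 (s1 lf (sk 0)) (sk 0))) lf))) lf) (s2 (s0 (s1 (s1 (s2 (sk 0) (s2
    (sk 0) lf)) (sk 0)) (sk 0)) (sk 0)) (s2 (s0 (s1 lf (s1 (s2 (sk 0) lf) (sk 0))) (s1 (s1 lf
    (s2 (sk 0) lf)) (sk 0))) lf)))) (s1 (s1 lf (s1 lf (s2 (s2 (s0 (s1 lf (s2 (sk 0) lf)) (s1 (s2
    (sk 0) lf) (sk 0))) lf) lf))) (s1 (s1 (s2 (s2 (s0 (s0 (s1 (s2 (sk 0) lf) (sk 0)) (sk 0)) (sk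
    0)) (s2 (s0 (s0 lf (s1 lf (sk 0))) (s0 (s1 lf (sk 0)) (sk 0))) lf)) lf) (s0 (s2 (s1 (s2 (sk
    0) (s2 (sk 0) lf)) (sk 0)) lf) (s2 (sk 0) (s1 lf (s2 (s2 (sk 0) lf) lf))))) (s2 (sk 0) (s1
    (s2 (s2 (sk 0) (s1 lf (sk 0))) lf) (s2 (sk 0) (s2 (s0 (s1 lf (sk 0)) (sk 0)) lf)))))))
    ⟨79228162514264361123092784740, 1275433488221, 79228162514264607413697406569, 2330964650886,
    79228162514264532866809043353, 12314530231092⟩ (by decide +kernel)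

theorem R2b_24 : Hd (QR2b coB) 79228162514264359847659296519 2550866976441
    79228162514264607413697406569 2330964650886 79228162514264557495869505537 12314530231092 :=
  okR2b coB lf
    ⟨79228162514264359847659296519, 2550866976441, 79228162514264607413697406569, 2330964650886,
    79228162514264557495869505537, 12314530231092⟩ (by decide +kernel)

theorem R2b_25 : Hd (QR2b coB) 79228162514264364949393249401 2550866976441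
    79228162514264606248215081126 1165482325443 79228162514264545181339274445 24629060462183 :=
  okR2b coB (s2 (s1 (s2 (s0 (s0 lf (s1 lf (s2 (s0 (s1 lf (s2 (sk 0) lf)) (s1 (s2 (sk 0) lf) (sk
    0))) lf))) (s0 (s1 (s2 (s0 (s1 lf (s2 (sk 0) lf)) (s0 (s2 (sk 0) lf) (sk 0))) lf) (s2 (sk 0)
    (s0 lf (s2 (sk 0) lf)))) (s2 (sk 0) (s1 (s0 lf (s2 (sk 0) lf)) (s1 (s2 (sk 0) lf) (sk
    0)))))) lf) (s0 (s2 (s0 (s1 (s2 (s0 (s1 lf (s2 (sk 0) lf)) (s1 (s2 (sk 0) lf) (sk 0))) lf)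
    (s2 (sk 0) (s1 lf (s2 (s0 (s0 lf (sk 0)) (sk 0)) lf)))) (s2 (sk 0) (s0 (s1 lf (s0 (s2 (sk 0)
    lf) (sk 0))) (s1 (s2 (sk 0) lf) (sk 0))))) lf) (s2 (s0 (s0 (s0 (s1 (s2 (sk 0) (s2 (sk 0)
    lf)) (sk 0)) (sk 0)) (sk 0)) (sk 0)) (s2 (s0 (s1 lf (s2 (sk 0) lf)) (s1 (s2 (sk 0) lf) (sk
    0))) lf)))) lf)
    ⟨79228162514264364949393249401, 2550866976441, 79228162514264606248215081126, 1165482325443,
    79228162514264545181339274445, 24629060462183⟩ (by decide +kernel)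

theorem R2b_26 : Hd (QR2b coB) 79228162514264364949393249401 2550866976441
    79228162514264608579179732012 1165482325443 79228162514264545181339274445 24629060462183 :=
  okR2b coB (s2 (s0 (s1 (s0 (s2 (s0 (s1 (s1 (s2 (sk 0) (s2 (sk 0) lf)) (sk 0)) (sk 0)) (sk 0))
    (s2 (s1 (s0 lf (s1 lf (s2 (sk 0) lf))) (s2 (sk 0) (s0 lf (s1 lf (sk 0))))) lf)) (s2 (sk 0)
    (s1 (s2 (s2 (sk 0) (s0 lf (s0 lf (sk 0)))) lf) (s2 (sk 0) (s0 lf (s2 (sk 0) lf)))))) (s2 (sk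
    0) (s1 (s2 (sk 0) (s0 (s2 (s0 (s0 lf (sk 0)) (sk 0)) lf) (sk 0))) (sk 0)))) (s1 (s2 (sk 0)
    (s2 (sk 0) (s0 (s0 (s1 lf (s2 (sk 0) lf)) (s1 (s2 (sk 0) lf) (sk 0))) (s0 (s1 (s2 (sk 0) lf)
    (sk 0)) (sk 0))))) (sk 0))) (s2 (s0 (s0 lf (s1 lf (s1 lf (s2 (s2 (sk 0) lf) lf)))) (s0 (s1
    lf (s2 (s1 (s2 (sk 0) lf) (sk 0)) lf)) (s1 (s1 lf (s2 (s2 (sk 0) lf) lf)) (s2 (sk 0) (s0 lf
    (s1 lf (sk 0))))))) lf))
    ⟨79228162514264364949393249401, 2550866976441, 79228162514264608579179732012, 1165482325443,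
    79228162514264545181339274445, 24629060462183⟩ (by decide +kernel)

theorem R2b_27 : Hd (QR2b coB) 79228162514264362398526272960 5101733952881
    79228162514264607413697406569 2330964650886 79228162514264594439460198811 24629060462183 :=
  okR2b coB (s2 lf (s0 lf lf))
    ⟨79228162514264362398526272960, 5101733952881, 79228162514264607413697406569, 2330964650886,
    79228162514264594439460198811, 24629060462183⟩ (by decide +kernel)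

theorem R2b_28 : Hd (QR2b coB) 79228162514264362398526272960 5101733952881
    79228162514264614406591359225 4661929301771 79228162514264471294157887896 49258120924366 :=
  okR2b coB (s0 (s0 (sk 0) (sk 0)) (sk 0))
    ⟨79228162514264362398526272960, 5101733952881, 79228162514264614406591359225, 4661929301771,
    79228162514264471294157887896, 49258120924366⟩ (by decide +kernel)

end FX.DB
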