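import Pool.Agent.H11.FX.CoAB

/-! Branch and bound data, generated. -/

set_option maxRecDepth 100000

namespace FX.DB

open H41FT H41FT.Tr

theorem R2b_29 : Hd (QR2b coB) 79228162514264359847659296519 2550866976441
    79228162514264610910144382896 1165482325443 79228162514264545181339274445 24629060462183 :=
  okR2b coB (s0 (s1 (s2 (s0 (s1 (s2 (s0 (s1 (s2 (sk 0) (s2 (sk 0) (s0 lf (s1 lf (sk 0))))) (sk
    0)) (sk 0)) (s2 (s1 lf (s2 (s0 (s0 lf (s0 lf (sk 0))) (sk 0)) lf)) lf)) (s2 (sk 0) (s0 (s2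
    (s1 (s2 (sk 0) lf) (sk 0)) lf) (s2 (sk 0) (s1 lf (s2 (sk 0) lf)))))) (s2 (sk 0) (s1 (s0 (s2
    (s1 (s2 (sk 0) lf) (sk 0)) lf) (s2 (sk 0) (s1 lf (s2 (sk 0) lf)))) (s2 (sk 0) (s2 (sk 0) (s0
    lf (s1 lf (sk 0)))))))) lf) (s2 (s0 (s1 (s2 (sk 0) (s0 (s1 (s2 (sk 0) (s2 (sk 0) lf)) (sk
    0)) (sk 0))) (sk 0)) (sk 0)) (s2 (s0 (s1 lf (s2 (s2 (sk 0) (s1 lf (sk 0))) lf)) (s1 (s2 (s2
    (s0 (s1 lf (sk 0)) (sk 0)) lf) lf) (s2 (sk 0) (s0 lf (s1 lf (sk 0)))))) lf))) (s2 (s0 (s1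
    (s1 (s2 (sk 0) (s2 (sk 0) (s0 (s1 lf (s2 (sk 0) lf)) (s0 (s2 (sk 0) lf) (sk 0))))) (sk 0))
    (sk 0)) (sk 0)) (s2 (s1 (s2 (s0 (s1 lf (s1 lf (s2 (sk 0) lf))) (s0 (s1 lf (s2 (sk 0) lf))
    (s1 (s2 (sk 0) lf) (sk 0)))) lf) (s2 (sk 0) (s0 (s1 lf (s0 (s2 (sk 0) lf) (sk 0))) (s1 (s2
    (sk 0) lf) (sk 0))))) lf)))
    ⟨79228162514264359847659296519, 2550866976441, 79228162514264610910144382896, 1165482325443,
    79228162514264545181339274445, 24629060462183⟩ (by decide +kernel)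

theorem R2b_30 : Hd (QR2b coB) 79228162514264359847659296519 2550866976441
    79228162514264613241109033782 1165482325443 79228162514264545181339274445 24629060462183 :=
  okR2b coB (s2 (sk 0) (s0 (s1 (s0 (s2 (s1 (s2 (sk 0) (s1 lf (s2 (sk 0) lf))) (sk 0)) lf) (s2
    (sk 0) (s1 lf (s2 (s2 (sk 0) lf) lf)))) (s2 (sk 0) (s1 (s2 (sk 0) lf) (sk 0)))) (s1 (s2 (sk
    0) (s2 (s1 (s2 (sk 0) lf) (sk 0)) lf)) (sk 0))))
    ⟨79228162514264359847659296519, 2550866976441, 79228162514264613241109033782, 1165482325443,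
    79228162514264545181339274445, 24629060462183⟩ (by decide +kernel)

theorem R2b_31 : Hd (QR2b coB) 79228162514264364949393249401 2550866976441
    79228162514264612075626708339 2330964650886 79228162514264545181339274445 24629060462183 :=
  okR2b coB (s2 (sk 0) (s1 (s1 (s0 (s2 (s1 (s2 (s0 (s0 (s2 (sk 0) lf) (sk 0)) (sk 0)) lf) (s2
    (sk 0) (s2 (sk 0) lf))) lf) (s0 (s2 (s1 (s2 (sk 0) (s2 (sk 0) lf)) (sk 0)) lf) (s2 (sk 0)
    (s1 lf (s2 (sk 0) lf))))) (s2 (sk 0) (s0 (s2 (s0 (s1 lf (s0 (sk 0) (sk 0))) (s0 (s1 lf (sk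
    0)) (sk 0))) lf) (s2 (sk 0) (s0 lf (s1 lf (sk 0))))))) (s0 (s0 (s1 (s1 (s2 (sk 0) (s2 (sk 0)
    lf)) (sk 0)) (sk 0)) (sk 0)) (sk 0))))
    ⟨79228162514264364949393249401, 2550866976441, 79228162514264612075626708339, 2330964650886,
    79228162514264545181339274445, 24629060462183⟩ (by decide +kernel)

theorem R2b_32 : Hd (QR2b coB) 79228162514264362398526272960 5101733952881
    79228162514264612075626708339 2330964650886 79228162514264594439460198811 24629060462183 :=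
  okR2b coB (s2 (s2 (s1 lf (s0 (s0 lf (s1 lf (s1 lf (s2 (sk 0) lf)))) (s2 (s1 (s0 lf lf) (sk 0))
    lf))) lf) (s2 lf (s0 lf lf)))
    ⟨79228162514264362398526272960, 5101733952881, 79228162514264612075626708339, 2330964650886,
    79228162514264594439460198811, 24629060462183⟩ (by decide +kernel)

theorem R2b_33 : Hd (QR2b coB) 79228162514264362398526272960 5101733952881
    79228162514264616737556010111 2330964650886 79228162514264569810399736628 49258120924366 :=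
  okR2b coB (s2 (s0 (sk 0) (sk 0)) (s1 (s2 (s2 (s0 (s1 (s0 (s2 (sk 0) lf) (s0 (s2 (sk 0) lf) (sk
    0))) (sk 0)) (sk 0)) (s2 (s1 lf (s0 (s0 lf (sk 0)) (sk 0))) lf)) (s2 lf (s0 lf lf))) (s0 (s1
    (s2 (sk 0) (s2 lf lf)) (sk 2)) (sk 2))))
    ⟨79228162514264362398526272960, 5101733952881, 79228162514264616737556010111, 2330964650886,
    79228162514264569810399736628, 49258120924366⟩ (by decide +kernel)

theorem R2b_34 : Hd (QR2b coB) 79228162514264372601994178722 5101733952881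
    79228162514264563125369039749 18647717207082 79228162514264520552278812262 98516241848731 :=
  okR2b coB (s0 (sk 1) (s1 (sk 1) (s1 (sk 1) (s1 (sk 1) (s2 lf (s2 lf lf))))))
    ⟨79228162514264372601994178722, 5101733952881, 79228162514264563125369039749,
    18647717207082, 79228162514264520552278812262, 98516241848731⟩ (by decide +kernel)

theorem R2b_35 : Hd (QR2b coB) 79228162514264372601994178722 5101733952881
    79228162514264586435015548601 4661929301771 79228162514264520552278812262 98516241848731 :=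
  okR2b coB (s2 (s2 (s0 (s0 lf (s1 lf (s1 lf (s1 lf (s0 lf (s2 (s2 (s0 (s0 lf (sk 0)) (sk 0))
    lf) lf)))))) (s1 (s0 lf (s0 lf (s0 lf (s1 lf (s1 lf (s2 (s2 (sk 0) lf) lf)))))) (s1 (s2 (s0
    (s0 lf (s0 lf (s1 lf (s2 (sk 0) lf)))) (s1 (s2 (s0 (s0 lf (sk 0)) (sk 0)) lf) (s0 (s1 (s2
    (sk 0) lf) (sk 0)) (sk 0)))) lf) (s0 (s0 (s2 (s1 (s2 (s1 lf (sk 0)) lf) (s1 (s2 (sk 0) lf)
    (sk 0))) lf) (s1 (s2 (s0 (s2 (sk 0) lf) (sk 0)) lf) (s2 (sk 0) (s2 (s2 (sk 0) lf) lf)))) (s2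
    (sk 0) (s0 (s2 (s1 lf (sk 0)) lf) (s2 (sk 0) (s1 lf (s1 lf (sk 0)))))))))) (s2 lf lf)) (s2
    lf (s2 lf lf)))
    ⟨79228162514264372601994178722, 5101733952881, 79228162514264586435015548601, 4661929301771,
    79228162514264520552278812262, 98516241848731⟩ (by decide +kernel)

theorem R2b_36 : Hd (QR2b coB) 79228162514264370051127202281 2550866976441
    79228162514264593427909501257 2330964650886 79228162514264471294157887896 49258120924366 :=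
  okR2b coB (s0 (s2 (s1 (s2 (s1 lf (s0 (s0 lf (s1 lf (s2 (sk 0) lf))) (s2 (s0 (s0 (sk 0) (sk 0))
    (sk 0)) lf))) lf) (s1 (s2 (s2 (sk 0) (s0 (s0 lf (s1 lf (sk 0))) (sk 0))) (s0 lf (s0 lf (s0
    lf (s1 lf (s2 (sk 0) lf)))))) (s2 (sk 0) (s0 (s0 lf (s2 (s2 (sk 0) lf) lf)) (s0 (s2 (s0 (s1
    lf (sk 0)) (sk 0)) lf) (s2 (sk 0) (s1 lf (s2 (sk 0) lf)))))))) lf) (s1 (s2 (s0 (s2 (s1 (s2
    (s0 (s1 lf (sk 0)) (sk 0)) lf) (s0 (s1 (s2 (sk 0) lf) (sk 0)) (sk 0))) lf) (s1 (s2 (s0 (s1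
    (s2 (sk 0) lf) (sk 0)) (sk 0)) lf) (s2 (sk 0) (s2 (s0 (s1 lf (sk 0)) (sk 0)) lf)))) lf) (s2
    (s2 (sk 0) (s0 (s1 (s2 (s0 (s1 lf (sk 0)) (sk 0)) lf) (s1 (s2 (sk 0) (s2 (sk 0) lf)) (sk
    0))) (s1 (s2 (sk 0) (s2 (sk 0) lf)) (sk 0)))) (s0 lf (s1 lf (s2 (s0 lf (s2 (s2 (sk 0) lf)
    lf)) lf))))))
    ⟨79228162514264370051127202281, 2550866976441, 79228162514264593427909501257, 2330964650886,
    79228162514264471294157887896, 49258120924366⟩ (by decide +kernel)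

theorem R2b_37 : Hd (QR2b coB) 79228162514264370051127202281 2550866976441
    79228162514264598089838803029 2330964650886 79228162514264471294157887896 49258120924366 :=
  okR2b coB (s1 (s2 (s0 (s2 (sk 0) (s2 (sk 0) (s0 (s1 (s1 lf (s2 (s0 (sk 0) (sk 0)) lf)) (s0 (s1
    (s2 (sk 0) lf) (sk 0)) (sk 0))) (s1 (s1 (s2 (sk 0) lf) (sk 0)) (sk 0))))) (sk 0)) (s2 (s0
    (s1 lf (s2 (s0 (s0 lf (s1 lf (s2 (sk 0) lf))) (s2 (sk 0) (s0 lf (s1 lf (sk 0))))) lf)) (s1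
    (s0 (s2 (s2 (s0 (s1 lf (sk 0)) (sk 0)) lf) lf) (s2 (s0 (s1 (s2 (sk 0) lf) (sk 0)) (sk 0))
    lf)) (s2 (sk 0) (s0 (s1 lf (s2 (s0 (sk 0) (sk 0)) lf)) (s2 (sk 0) (s0 lf (s1 lf (sk
    0)))))))) lf)) (s2 (sk 0) (s0 (s0 (s2 (s1 (s0 (s2 (s1 (s2 (sk 0) lf) (sk 0)) lf) (s2 (sk 0)
    (s0 lf (s1 lf (s2 (sk 0) lf))))) (s2 (sk 0) (s2 (sk 0) (s1 lf (s0 (s0 lf (sk 0)) (sk 0))))))
    lf) (s1 (s2 (s2 (sk 0) (s0 (s1 lf (s2 (sk 0) lf)) (s2 (sk 0) (s0 lf (s1 lf (sk 0)))))) lf)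
    (s2 (sk 0) (s1 lf (s2 (s2 (s0 (s0 lf (sk 0)) (sk 0)) lf) lf))))) (s1 (s2 (s0 (s0 (s1 (s2 (sk
    0) (s2 (sk 0) lf)) (sk 0)) (sk 0)) (sk 0)) (s2 (s0 lf (s2 (s0 (s1 lf (sk 0)) (sk 0)) lf))
    lf)) (s2 (sk 0) (s2 (s2 (sk 0) (s0 (s0 lf (s1 lf (sk 0))) (s1 (s2 (sk 0) lf) (sk 0)))) (s0
    lf (s1 lf (s2 (s2 (s0 (sk 0) (sk 0)) lf) lf)))))))))
    ⟨79228162514264370051127202281, 2550866976441, 79228162514264598089838803029, 2330964650886,
    79228162514264471294157887896, 49258120924366⟩ (by decide +kernel)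

theorem R2b_38 : Hd (QR2b coB) 79228162514264375152861155163 2550866976441
    79228162514264593427909501257 2330964650886 79228162514264471294157887896 49258120924366 :=
  okR2b coB (s2 (s2 (sk 0) (s0 (s1 (s1 (s2 (s0 (s2 (sk 0) lf) (sk 0)) lf) (s2 (sk 0) (s0 (s0 lf
    (s1 lf (sk 0))) (s0 (s2 (sk 0) lf) (sk 0))))) (sk 0)) (s0 (s0 (s1 (s1 (s1 (s2 (sk 0) lf) (sk
    0)) (sk 0)) (sk 0)) (sk 0)) (sk 0)))) (s0 (s2 (s1 lf (s0 (s2 (s1 lf (s0 (s2 (sk 0) lf) (sk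
    0))) lf) (s1 (s2 (s2 (sk 0) lf) lf) (s2 (sk 0) (s0 lf (s2 (sk 0) lf)))))) lf) (s2 (s1 (s2
    (s0 (s1 lf (s2 (sk 0) lf)) (s1 (s0 lf (s2 (sk 0) lf)) (sk 0))) lf) (s2 (sk 0) (s0 (s1 lf (s1
    (s2 (sk 0) lf) (sk 0))) (s1 (s2 (sk 0) lf) (sk 0))))) (s2 lf lf))))
    ⟨79228162514264375152861155163, 2550866976441, 79228162514264593427909501257, 2330964650886,
    79228162514264471294157887896, 49258120924366⟩ (by decide +kernel)

theorem R2b_39 : Hd (QR2b coB) 79228162514264375152861155163 2550866976441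
    79228162514264598089838803029 2330964650886 79228162514264471294157887896 49258120924366 :=
  okR2b coB (s2 (sk 0) (s0 (s1 (s1 (s2 (s2 (sk 0) (s0 (s2 (s0 (s1 lf (sk 0)) (sk 0)) lf) (s0 (s1
    (s2 (sk 0) lf) (sk 0)) (sk 0)))) lf) (s2 (sk 0) (s2 (s2 (s0 (s0 lf (s1 lf (sk 0))) (sk 0))
    lf) lf))) (s2 (sk 0) (s0 (s1 (s2 (s1 (s2 (sk 0) lf) (sk 0)) lf) (s2 (sk 0) (s2 (s0 (s1 lf
    (sk 0)) (sk 0)) lf))) (s2 (sk 0) (s1 (s0 lf (s1 lf (s2 (sk 0) lf))) (s2 (sk 0) (s0 lf (s1 lf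
    (sk 0))))))))) (s2 (sk 0) (s1 (s0 (s2 (s1 (s1 lf (s2 (sk 0) lf)) (s0 (s1 (s2 (sk 0) lf) (sk
    0)) (sk 0))) lf) (s1 (s2 (s2 (sk 0) (s1 lf (sk 0))) lf) (s2 (sk 0) (s1 lf (s2 (sk 0) lf)))))
    (s2 (sk 0) (s0 (s1 (s2 (s0 (s1 lf (sk 0)) (sk 0)) lf) (s0 (sk 0) (sk 0))) (s1 (s1 (s2 (sk 0)
    lf) (sk 0)) (sk 0))))))))
    ⟨79228162514264375152861155163, 2550866976441, 79228162514264598089838803029, 2330964650886,
    79228162514264471294157887896, 49258120924366⟩ (by decide +kernel)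

theorem R2b_40 : Hd (QR2b coB) 79228162514264372601994178722 5101733952881
    79228162514264595758874152143 4661929301771 79228162514264569810399736628 49258120924366 :=
  okR2b coB (s2 (s1 lf (s0 lf (s1 lf (s2 (s0 lf (s0 lf (s1 lf (s1 lf (s2 (s2 (sk 0) lf) lf)))))
    lf)))) (s2 lf lf))
    ⟨79228162514264372601994178722, 5101733952881, 79228162514264595758874152143, 4661929301771,
    79228162514264569810399736628, 49258120924366⟩ (by decide +kernel)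

theorem R2b_41 : Hd (QR2b coB) 79228162514264372601994178722 5101733952881
    79228162514264605082732755683 4661929301771 79228162514264471294157887896 49258120924366 :=
  okR2b coB (s2 (sk 0) (s1 (s0 (s2 (sk 0) (s0 (s1 (s1 (s2 (s0 (s0 (s1 lf (s2 (sk 0) lf)) (s2 (sk
    0) (s1 lf (s1 lf (sk 0))))) (s1 (s2 (sk 0) (s0 lf (s1 lf (sk 0)))) (sk 0))) lf) (s0 (s1 (s2
    (s0 (s2 (sk 0) (s2 (sk 0) lf)) (sk 0)) lf) (s2 (sk 0) (s2 (s0 (s2 (sk 0) lf) (sk 0)) lf)))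
    (s2 (sk 0) (s0 (s2 (s1 (s1 lf (sk 0)) (sk 0)) lf) (s2 (sk 0) (s1 lf (s1 lf (sk 0)))))))) (s0
    (s1 (s2 (sk 0) (s2 (sk 0) (s0 (s1 lf (s0 (s2 (sk 0) lf) (sk 0))) (s1 (s1 lf (sk 0)) (sk
    0))))) (sk 0)) (sk 0))) (s1 (s2 (sk 0) (s0 (s1 (s2 (s0 (s1 lf (s1 lf (sk 0))) (s1 lf (sk
    0))) lf) (s1 (s2 (sk 0) (s2 (sk 0) lf)) (sk 0))) (s1 (s2 (sk 0) (s0 lf (s1 lf (sk 0)))) (sk
    0)))) (sk 0)))) (s0 (s0 (s0 (s1 (s1 (s1 (s2 (sk 0) (s2 (sk 0) (s2 (sk 0) lf))) (sk 0)) (sk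
    0)) (sk 0)) (sk 0)) (sk 0)) (sk 0))) (sk 0)))
    ⟨79228162514264372601994178722, 5101733952881, 79228162514264605082732755683, 4661929301771,
    79228162514264471294157887896, 49258120924366⟩ (by decide +kernel)

theorem R2b_42 : Hd (QR2b coB) 79228162514264370051127202281 2550866976441
    79228162514264602751768104797 2330964650886 79228162514264545181339274445 24629060462183 :=
  okR2b coB (s2 (s0 (s1 lf (s2 (s0 (s1 lf (s0 (s2 (s1 (s2 (sk 0) lf) (sk 0)) lf) (s2 (sk 0) (s1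
    lf (s2 (sk 0) lf))))) (s1 (s1 lf (s2 (s2 (sk 0) lf) lf)) (s2 (sk 0) (s0 (s1 lf (s2 (sk 0)
    lf)) (s1 (s2 (sk 0) lf) (sk 0)))))) lf)) (s1 (s0 lf (s1 lf (s1 lf (s2 (s2 (s2 (sk 0) lf) lf)
    lf)))) (s1 (s2 (s1 (s2 (s0 (s2 (sk 0) lf) (sk 0)) lf) (s2 (sk 0) (s0 (s0 lf (s2 (sk 0) lf))
    (sk 0)))) lf) (s2 (s0 (s0 (s1 (s2 (sk 0) (s2 (sk 0) lf)) (sk 0)) (sk 0)) (sk 0)) (s2 (s0 (s1
    lf (s2 (sk 0) lf)) (s1 (s2 (sk 0) lf) (sk 0))) lf))))) lf)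
    ⟨79228162514264370051127202281, 2550866976441, 79228162514264602751768104797, 2330964650886,
    79228162514264545181339274445, 24629060462183⟩ (by decide +kernel)

theorem R2b_43 : Hd (QR2b coB) 79228162514264375152861155163 2550866976441
    79228162514264602751768104797 2330964650886 79228162514264545181339274445 24629060462183 :=
  okR2b coB (s0 (s2 (s1 (s2 (s0 (s1 lf (s2 (s1 (s2 (sk 0) lf) (sk 0)) lf)) (s1 (s1 lf (s2 (s2
    (sk 0) lf) lf)) (s1 (s2 (sk 0) lf) (sk 0)))) lf) (s2 (s0 (sk 0) (sk 0)) (s1 (s0 lf (s1 lf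
    (s2 (sk 0) lf))) (s2 (sk 0) (s0 lf (s1 lf (sk 0))))))) lf) (s1 (s2 (s1 (s2 (s2 (sk 0) (s0 lf
    (s1 lf (sk 0)))) lf) (s2 (sk 0) (s0 lf (s1 lf (s2 (sk 0) lf))))) lf) (s2 (s2 (sk 0) (s1 (s2
    (sk 0) (s0 lf (s1 lf (sk 0)))) (sk 0))) (s2 lf lf))))
    ⟨79228162514264375152861155163, 2550866976441, 79228162514264602751768104797, 2330964650886,
    79228162514264545181339274445, 24629060462183⟩ (by decide +kernel)

theorem R2b_44 : Hd (QR2b coB) 79228162514264372601994178722 5101733952881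
    79228162514264602751768104797 2330964650886 79228162514264594439460198811 24629060462183 :=
  okR2b coB (s2 lf lf)
    ⟨79228162514264372601994178722, 5101733952881, 79228162514264602751768104797, 2330964650886,
    79228162514264594439460198811, 24629060462183⟩ (by decide +kernel)

theorem R2b_45 : Hd (QR2b coB) 79228162514264372601994178722 5101733952881
    79228162514264607413697406569 2330964650886 79228162514264569810399736628 49258120924366 :=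
  okR2b coB (s2 (s2 (s0 (s1 (s0 (s1 (s2 (s0 (s0 (s1 (s2 (sk 0) (s2 (sk 0) lf)) (sk 0)) (sk 0))
    (sk 0)) (s2 (s0 (s1 lf (s2 (sk 0) lf)) (s1 (s2 (sk 0) lf) (sk 0))) lf)) (s2 (sk 0) (s2 (sk
    0) (s0 (s1 lf (s2 (sk 0) lf)) (s1 (s2 (sk 0) lf) (sk 0)))))) (s1 (s2 (sk 0) (s2 (sk 0) (s0
    (s1 lf (s2 (sk 0) lf)) (s1 (s2 (sk 0) lf) (sk 0))))) (sk 0))) (sk 0)) (s0 (sk 0) (sk 0)))
    (s1 (s2 (s0 (s0 lf (s1 lf (s2 (s2 (s0 (s0 lf (sk 0)) (sk 0)) lf) lf))) (s1 (s2 (s0 (s0 lf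
    (s1 lf (sk 0))) (sk 0)) lf) (s2 (sk 0) (s0 (s0 lf (s1 lf (sk 0))) (s0 (s1 lf (sk 0)) (sk
    0)))))) lf) (s0 (s0 (s2 (s1 (s2 (s1 (s0 lf (s2 (sk 0) lf)) (sk 0)) lf) (s0 (s1 (s2 (sk 0)
    lf) (sk 0)) (sk 0))) lf) (s1 (s2 (s2 (sk 0) (s1 lf (s2 (sk 0) lf))) lf) (s2 (sk 0) (s1 lf
    (s2 (sk 0) lf))))) (s2 (sk 0) (s1 (s0 lf (s1 lf (s2 (sk 0) lf))) (s2 (sk 0) (s0 lf (s0 lf
    (sk 0))))))))) (s2 (s0 lf lf) lf))
    ⟨79228162514264372601994178722, 5101733952881, 79228162514264607413697406569, 2330964650886,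
    79228162514264569810399736628, 49258120924366⟩ (by decide +kernel)

theorem R2b_46 : Hd (QR2b coB) 79228162514264372601994178722 5101733952881
    79228162514264614406591359225 4661929301771 79228162514264520552278812262 98516241848731 :=
  okR2b coB (s2 (sk 0) (s1 (s2 (s2 (sk 0) (s1 (s2 (sk 0) (s0 (s0 (s1 (s2 (s0 (s1 lf (sk 0)) (sk
    0)) lf) (s0 (s0 (sk 0) (sk 0)) (sk 0))) (s1 (s1 (s2 (sk 0) lf) (sk 0)) (sk 0))) (sk 0))) (sk
    0))) (s2 (s1 (s2 (s2 (s0 lf (s1 lf (sk 0))) lf) lf) (s0 (s2 (s1 (s2 (sk 0) lf) (sk 0)) lf)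
    (s2 (sk 0) (s1 lf (s2 (sk 0) lf))))) (s0 lf lf))) (s1 (s2 (sk 0) (s2 (s2 (sk 0) (s0 (s1 (s2
    (sk 0) lf) (sk 0)) (sk 0))) (s2 (s0 lf lf) lf))) (sk 2))))
    ⟨79228162514264372601994178722, 5101733952881, 79228162514264614406591359225, 4661929301771,
    79228162514264520552278812262, 98516241848731⟩ (by decide +kernel)

theorem R2b_47 : Hd (QR2b coB) 79228162514264387907196037365 10203467905762
    79228162514264553801510436208 9323858603541 79228162514264520552278812262 98516241848731 :=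
  okR2b coB (s0 (sk 1) (s0 (sk 1) (s2 (s2 lf lf) (s2 lf lf))))
    ⟨79228162514264387907196037365, 10203467905762, 79228162514264553801510436208,
    9323858603541, 79228162514264520552278812262, 98516241848731⟩ (by decide +kernel)

theorem R2b_48 : Hd (QR2b coB) 79228162514264387907196037365 10203467905762
    79228162514264567787298341519 4661929301771 79228162514264520552278812262 98516241848731 :=
  okR2b coB (s2 (s0 (s2 lf lf) (s2 (s0 lf (s1 lf (s2 (s1 lf (s0 (s0 lf (s2 (sk 0) lf)) (s0 (s2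
    (sk 0) lf) (sk 0)))) lf))) lf)) (s2 lf (s0 lf lf)))
    ⟨79228162514264387907196037365, 10203467905762, 79228162514264567787298341519,
    4661929301771, 79228162514264520552278812262, 98516241848731⟩ (by decide +kernel)

theorem R2b_49 : Hd (QR2b coB) 79228162514264387907196037365 10203467905762
    79228162514264577111156945061 4661929301771 79228162514264520552278812262 98516241848731 :=
  okR2b coB (s0 (s2 (s2 (s0 (s2 lf lf) (s1 lf (s0 (s1 lf (s2 (s2 (s0 (s1 lf (sk 0)) (sk 0)) lf)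
    lf)) (s2 (s1 (s2 (s1 lf (sk 0)) lf) (s0 (s1 (s2 (sk 0) lf) (sk 0)) (sk 0))) (s2 lf lf)))))
    lf) (s2 lf lf)) (s2 (s2 (s0 (s1 (s2 (s0 (s0 lf (s1 lf (s2 (sk 0) lf))) (s0 (s1 lf (s2 (sk 0)
    lf)) (s1 (s2 (sk 0) lf) (sk 0)))) lf) (s0 (s1 (s2 (s0 (s0 (s2 (sk 0) lf) (sk 0)) (sk 0)) lf)
    (s2 (sk 0) (s2 (s0 (s1 lf (sk 0)) (sk 0)) lf))) (s2 (sk 0) (s1 (s2 (s0 (s0 lf (sk 0)) (sk
    0)) lf) (s0 (s1 (s2 (sk 0) lf) (sk 0)) (sk 0)))))) (s0 (s0 (s1 (s2 (s1 (s2 (sk 0) lf) (sk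
    0)) lf) (s1 (s2 (sk 0) (s2 (sk 0) lf)) (sk 0))) (s1 (s2 (sk 0) (s1 lf (s2 (sk 0) lf))) (sk
    0))) (s1 (s2 (sk 0) (s1 (s0 lf (s2 (sk 0) lf)) (s1 (s2 (sk 0) lf) (sk 0)))) (sk 0)))) (s2
    (s0 lf (s1 lf (s2 (s1 lf (s0 (s1 lf (sk 0)) (sk 0))) lf))) lf)) (s2 lf lf)))
    ⟨79228162514264387907196037365, 10203467905762, 79228162514264577111156945061,
    4661929301771, 79228162514264520552278812262, 98516241848731⟩ (by decide +kernel)

end FX.DB
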