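import Pool.Agent.H11.FX.CoAB

/-! Branch and bound data, generated. -/

set_option maxRecDepth 100000

namespace FX.DB

open H41FT H41FT.Tr

theorem R2b_50 : Hd (QR2b coB) 79228162514264380254595108043 2550866976441
    79228162514264586435015548601 4661929301771 79228162514264471294157887896 49258120924366 :=
  okR2b coB (s1 (s2 (s0 (s2 (s1 lf (s0 (s1 lf (s2 (sk 0) lf)) (s1 (s2 (sk 0) lf) (sk 0)))) lf)
    (s1 (s2 (s0 (s1 lf (s2 (sk 0) lf)) (s1 (s2 (sk 0) lf) (sk 0))) lf) (s2 (sk 0) (s1 lf (s2 (s0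
    (s0 lf (sk 0)) (sk 0)) lf))))) lf) (s2 (s2 (sk 0) (s0 (s1 (s2 (s0 (s1 lf (s2 (sk 0) lf)) (s0
    (s1 lf (sk 0)) (sk 0))) lf) (s0 (s1 (s2 (sk 0) (s2 (sk 0) lf)) (sk 0)) (sk 0))) (s1 (s1 (s2
    (sk 0) (s0 lf (s1 lf (sk 0)))) (sk 0)) (sk 0)))) (s2 (s1 lf (s0 (s0 lf (s1 lf (s1 lf (s2 (sk
    0) lf)))) (s1 (s2 (s2 (sk 0) lf) lf) (s2 (sk 0) (s0 lf (s2 (sk 0) lf)))))) lf)))
    ⟨79228162514264380254595108043, 2550866976441, 79228162514264586435015548601, 4661929301771,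
    79228162514264471294157887896, 49258120924366⟩ (by decide +kernel)

theorem R2b_51 : Hd (QR2b coB) 79228162514264385356329060925 2550866976441
    79228162514264586435015548601 4661929301771 79228162514264471294157887896 49258120924366 :=
  okR2b coB (s1 (s0 (s2 (s2 (s2 (sk 0) (sk 0)) (s1 (s0 lf (s1 lf (s2 (sk 0) lf))) (s2 (sk 0) (s1
    lf (s0 (s0 lf (sk 0)) (sk 0)))))) lf) (s1 (s2 (s2 (sk 0) (s2 (sk 0) (s0 lf (s1 lf (sk 0)))))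
    lf) (s2 (sk 0) (s2 (s0 lf (s1 lf (s2 (sk 0) lf))) lf)))) (s2 (sk 0) (s0 (s2 (s1 (s2 (s0 (s1
    lf (s1 lf (sk 0))) (s0 (s1 lf (sk 0)) (sk 0))) lf) (s2 (sk 0) (s0 (s1 lf (s2 (sk 0) lf)) (s1
    (s1 lf (sk 0)) (sk 0))))) lf) (s1 (s2 (s2 (sk 0) (s1 lf (s0 lf (sk 0)))) lf) (s2 (sk 0) (s1
    lf (s2 (s2 (sk 0) lf) lf)))))))
    ⟨79228162514264385356329060925, 2550866976441, 79228162514264586435015548601, 4661929301771,
    79228162514264471294157887896, 49258120924366⟩ (by decide +kernel)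

theorem R2b_52 : Hd (QR2b coB) 79228162514264382805462084484 5101733952881
    79228162514264595758874152143 4661929301771 79228162514264471294157887896 49258120924366 :=
  okR2b coB (s2 (sk 0) (s0 (s1 (s0 (s1 (s2 (s1 (s2 (s0 (s2 (sk 0) lf) (sk 0)) lf) (s2 (sk 0) (s2
    (s0 (s0 lf (sk 0)) (sk 0)) lf))) lf) (s2 (s0 (s0 (sk 0) (sk 0)) (sk 0)) (s2 (s1 (s0 lf (s0
    lf (s2 (sk 0) lf))) (s2 (sk 0) (s0 lf (s0 lf (sk 0))))) lf))) (s0 (s1 (s2 (s1 (s2 (sk 0) (s2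
    (sk 0) lf)) (sk 0)) lf) (s2 (sk 0) (s2 (s1 (s2 (sk 0) lf) (sk 0)) lf))) (s2 (sk 0) (s1 (s1
    lf (s2 (s2 (sk 0) lf) lf)) (s2 (sk 0) (s1 lf (s2 (sk 0) lf))))))) (s2 (sk 0) (s2 (sk 0) (s1
    (s0 (s1 (s0 lf (s0 lf (s2 (sk 0) lf))) (s2 (sk 0) (s0 lf (s0 lf (sk 0))))) (s1 (s2 (sk 0)
    (s0 lf (s0 lf (sk 0)))) (sk 0))) (sk 0))))) (s1 (s2 (sk 0) (s0 (s1 (s2 (s0 (s1 lf (s2 (sk 0)
    lf)) (s1 (s2 (sk 0) lf) (sk 0))) lf) (s2 (sk 0) (s0 (s1 lf (s2 (sk 0) lf)) (s1 (s2 (sk 0)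
    lf) (sk 0))))) (s2 (sk 0) (s0 (s1 lf (s1 (s2 (sk 0) lf) (sk 0))) (s1 (s1 lf (s2 (sk 0) lf))
    (sk 0)))))) (sk 0))))
    ⟨79228162514264382805462084484, 5101733952881, 79228162514264595758874152143, 4661929301771,
    79228162514264471294157887896, 49258120924366⟩ (by decide +kernel)

theorem R2b_53 : Hd (QR2b coB) 79228162514264393008929990246 5101733952881
    79228162514264591096944850372 9323858603541 79228162514264471294157887896 49258120924366 :=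
  okR2b coB (s0 (s2 (s0 (s2 (sk 0) (s2 (sk 0) (sk 0))) (sk 0)) (s1 (s1 (s2 (s0 (s1 lf (s2 (s0
    (sk 0) (sk 0)) lf)) (s1 (s2 (s0 (s1 lf (sk 0)) (sk 0)) lf) (s2 (sk 0) (s2 (sk 0) lf)))) lf)
    (s0 (s1 (s2 (s1 (s2 (sk 0) (s2 (sk 0) lf)) (sk 0)) lf) (s2 (sk 0) (s2 (s1 (s2 (sk 0) lf) (sk
    0)) lf))) (s2 (sk 0) (s1 (s2 (s2 (sk 0) lf) lf) (s2 (sk 0) (s0 lf (s2 (sk 0) lf))))))) (s1
    (s1 (s2 (sk 0) (s0 (s2 (sk 0) (s2 (sk 0) (s0 lf (s1 lf (sk 0))))) (sk 0))) (sk 0)) (sk 0))))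
    (s1 (s2 (sk 0) (s1 (s1 (s2 (s0 (s2 (sk 0) (s0 lf (s1 lf (sk 0)))) (sk 0)) lf) (s2 (sk 0) (s2
    (s2 (s0 lf (sk 0)) lf) lf))) (s2 (sk 0) (s2 (sk 0) (s0 (s1 lf (s0 (s1 lf (sk 0)) (sk 0)))
    (s1 (s2 (sk 0) lf) (sk 0))))))) (sk 0)))
    ⟨79228162514264393008929990246, 5101733952881, 79228162514264591096944850372, 9323858603541,
    79228162514264471294157887896, 49258120924366⟩ (by decide +kernel)

theorem R2b_54 : Hd (QR2b coB) 79228162514264387907196037365 10203467905762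
    79228162514264586435015548601 4661929301771 79228162514264569810399736628 49258120924366 :=
  okR2b coB (s2 (s2 (s0 lf (s0 lf (s2 lf lf))) lf) (s2 lf lf))
    ⟨79228162514264387907196037365, 10203467905762, 79228162514264586435015548601,
    4661929301771, 79228162514264569810399736628, 49258120924366⟩ (by decide +kernel)

theorem R2b_55 : Hd (QR2b coB) 79228162514264382805462084484 5101733952881
    79228162514264595758874152143 4661929301771 79228162514264569810399736628 49258120924366 :=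
  okR2b coB (s2 (s0 (s1 lf (s2 (s2 (s0 (s1 lf (s1 (s0 lf (s0 lf (s2 (sk 0) lf))) (s2 (sk 0) (s0
    lf (s1 lf (sk 0)))))) (s1 (s0 lf (s0 lf (s1 lf (s2 (sk 0) lf)))) (s1 (s2 (sk 0) (s0 lf lf))
    (sk 0)))) lf) lf)) (s2 (s1 (s0 lf (s0 lf (s1 lf (s2 lf lf)))) (s1 (s2 (s0 (s2 (s1 (s2 (s0
    (sk 0) (sk 0)) lf) (sk 0)) lf) (s1 (s2 (sk 0) lf) (sk 0))) lf) (s2 (sk 0) (s0 (s1 lf (s2 (sk
    0) lf)) (s2 (sk 0) (s0 lf (s1 lf (sk 0)))))))) lf)) (s2 lf lf))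
    ⟨79228162514264382805462084484, 5101733952881, 79228162514264595758874152143, 4661929301771,
    79228162514264569810399736628, 49258120924366⟩ (by decide +kernel)

theorem R2b_56 : Hd (QR2b coB) 79228162514264393008929990246 5101733952881
    79228162514264595758874152143 4661929301771 79228162514264569810399736628 49258120924366 :=
  okR2b coB (s2 (s1 (s2 (s0 (s2 (s1 lf (s0 (s1 lf (s2 (sk 0) lf)) (s1 (s2 (sk 0) lf) (sk 0))))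
    lf) (s1 (s2 (s0 (s1 lf (s2 (sk 0) lf)) (s0 (s2 (sk 0) lf) (sk 0))) lf) (s2 (sk 0) (s0 lf (s2
    (sk 0) lf))))) lf) (s2 (s2 (sk 0) (s0 (s1 (s2 (s0 (s1 lf (sk 0)) (sk 0)) lf) (s0 (s1 (s2 (sk
    0) lf) (sk 0)) (sk 0))) (s1 (s1 (s2 (sk 0) lf) (sk 0)) (sk 0)))) (s2 (s1 lf (s2 (s0 (s0 lf
    lf) (s0 (sk 0) (sk 0))) lf)) lf))) (s2 lf lf))
    ⟨79228162514264393008929990246, 5101733952881, 79228162514264595758874152143, 4661929301771,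
    79228162514264569810399736628, 49258120924366⟩ (by decide +kernel)

theorem R2b_57 : Hd (QR2b coB) 79228162514264382805462084484 5101733952881
    79228162514264609744662057454 9323858603541 79228162514264520552278812262 98516241848731 :=
  okR2b coB (s2 (sk 0) (s1 (s1 (s2 (s0 (s2 (s2 (sk 0) (s0 (s1 (s2 (s1 (s0 lf (s1 lf (sk 0))) (sk
    0)) lf) (s0 (s1 (s1 (s2 (sk 0) lf) (sk 0)) (sk 0)) (sk 0))) (s1 (s2 (sk 0) (s1 lf (s2 (sk 0)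
    lf))) (sk 0)))) (s1 lf (s2 (s0 (s1 lf (s2 (s2 (sk 0) lf) lf)) (s2 (s0 (s1 lf (sk 0)) (sk 0))
    lf)) lf))) (s2 (s0 (s0 (s1 (s1 (s2 (sk 0) (s2 (sk 0) lf)) (sk 0)) (sk 0)) (sk 0)) (sk 0))
    (s2 (s1 (s1 lf (s2 (s0 lf (sk 0)) lf)) (s0 (s1 (s2 (sk 0) lf) (sk 0)) (sk 0))) lf))) (s2 lf
    lf)) (s2 (s2 (sk 0) (s0 (s1 (s1 (s2 (s0 (s1 (s2 (sk 0) lf) (sk 0)) (sk 0)) lf) (s2 (sk 0)
    (s2 (s2 (sk 0) lf) lf))) (s1 (s2 (sk 0) (s0 (s2 (sk 0) lf) (sk 0))) (sk 0))) (s1 (s2 (sk 0)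
    (s0 (s2 (sk 0) lf) (s1 (s2 (sk 0) lf) (sk 0)))) (sk 0)))) (s2 (s1 lf (s2 (s0 lf (s1 lf (s2
    (sk 0) lf))) lf)) lf))) (s2 (sk 0) (s1 (s2 (s1 (s2 (s2 (sk 0) (s0 (s1 lf (sk 0)) (sk 0)))
    (s0 lf lf)) (s2 (sk 0) (s0 (s2 (s1 lf (sk 0)) lf) (s1 (s2 (sk 0) lf) (sk 0))))) (s2 lf lf))
    (s1 (s1 (s2 (sk 0) (s0 lf (s0 lf (sk 2)))) (sk 2)) (sk 2))))))
    ⟨79228162514264382805462084484, 5101733952881, 79228162514264609744662057454, 9323858603541,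
    79228162514264520552278812262, 98516241848731⟩ (by decide +kernel)

theorem R2b_58 : Hd (QR2b coB) 79228162514264393008929990246 5101733952881
    79228162514264609744662057454 9323858603541 79228162514264520552278812262 98516241848731 :=
  okR2b coB (s2 (sk 0) (s1 (s2 (s2 (sk 0) (s0 (s1 (s1 (s2 (s2 (sk 0) (s0 lf (s1 lf (sk 0)))) lf)
    (s2 (sk 0) (s1 lf (s2 (sk 0) lf)))) (s0 (s0 (s2 (sk 0) (s0 (s2 (sk 0) (sk 0)) (sk 0))) (sk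
    0)) (sk 0))) (s1 (s2 (sk 0) (s1 (s0 lf lf) (s1 (s2 (sk 0) lf) (sk 0)))) (sk 0)))) (s1 (s2
    (s0 lf lf) lf) (s2 (s2 (s1 (s0 lf (s1 lf (s2 (sk 0) lf))) (s2 (sk 0) (s0 lf (s0 (sk 0) (sk
    0))))) lf) lf))) (s1 (s2 (sk 0) (s2 (s2 (sk 0) (s1 (s2 (s0 (s1 lf (sk 0)) (sk 0)) lf) (s0
    (s0 (s0 (sk 0) (sk 0)) (sk 0)) (sk 0)))) (s2 (s0 lf (s2 lf lf)) lf))) (sk 2))))
    ⟨79228162514264393008929990246, 5101733952881, 79228162514264609744662057454, 9323858603541,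
    79228162514264520552278812262, 98516241848731⟩ (by decide +kernel)

theorem R2b_59 : Hd (QR2b coB) 79228162514264418517599754649 20406935811523
    79228162514264507182217418505 37295434414163 79228162514264520552278812262 98516241848731 :=
  okR2b coB (s1 (sk 1) (s0 (s0 (sk 1) (s1 (sk 1) (s2 (s2 lf lf) (s2 lf lf)))) (s1 (s0 (sk 1) (s2
    (s2 lf lf) (s2 lf lf))) (s2 (s2 (s0 (s1 lf (s2 lf lf)) (s1 (s2 lf lf) (s0 (s2 (s1 lf (s2 (sk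
    0) lf)) lf) (s1 (s2 (s2 (sk 0) lf) lf) (s2 (sk 0) (s0 lf (s2 (sk 0) lf))))))) (s2 lf lf))
    (s0 (s2 lf lf) (s2 lf lf))))))
    ⟨79228162514264418517599754649, 20406935811523, 79228162514264507182217418505,
    37295434414163, 79228162514264520552278812262, 98516241848731⟩ (by decide +kernel)

theorem R2b_60 : Hd (QR2b coB) 79228162514264408314131848887 10203467905762
    79228162514264553801510436208 9323858603541 79228162514264520552278812262 98516241848731 :=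
  okR2b coB (s2 (s0 (s2 (s0 lf (s1 lf (s1 lf (s0 lf (s1 lf (s2 (s2 (sk 0) lf) lf)))))) lf) (s2
    (s1 (s0 lf (s2 (s2 lf lf) lf)) (s1 (s2 (s0 (s0 lf (s1 lf (s2 (sk 0) lf))) (s0 (s2 (sk 0) lf)
    (sk 0))) lf) (s0 (s2 (s0 (s1 (s2 (sk 0) lf) (sk 0)) (sk 0)) lf) (s2 (sk 0) (s2 (s0 (s1 lf
    (sk 0)) (sk 0)) lf))))) (s2 lf lf))) (s2 (s0 lf lf) (s2 lf lf)))
    ⟨79228162514264408314131848887, 10203467905762, 79228162514264553801510436208,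
    9323858603541, 79228162514264520552278812262, 98516241848731⟩ (by decide +kernel)

theorem R2b_61 : Hd (QR2b coB) 79228162514264408314131848887 10203467905762
    79228162514264572449227643290 9323858603541 79228162514264471294157887896 49258120924366 :=
  okR2b coB (s0 (s1 (s0 (s2 (s0 (s2 (s1 lf (s1 (s2 (sk 0) lf) (sk 0))) lf) (s1 (s1 lf (s2 (s2
    (sk 0) lf) lf)) (s2 (sk 0) (s1 lf (s2 (sk 0) lf))))) lf) (s2 (s1 (s0 (s2 (s1 (s2 (sk 0) lf)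
    (sk 0)) lf) (s2 (sk 0) (s1 lf (s2 (sk 0) lf)))) (s2 (sk 0) (s1 (s2 (sk 0) lf) (sk 0)))) (s2
    lf lf))) (s1 (s2 (s0 (s0 (s1 (s2 (sk 0) (s2 (sk 0) lf)) (sk 0)) (sk 0)) (sk 0)) (s2 (s0 (s0
    lf (s1 lf (s1 lf (s2 (sk 0) lf)))) (s0 (s2 (s0 (s1 lf (sk 0)) (sk 0)) lf) (s1 (s2 (sk 0) lf)
    (sk 0)))) lf)) (s2 (sk 0) (s0 (s2 (s2 (sk 0) (s0 (s1 lf (s1 lf (sk 0))) (s1 (s1 lf (sk 0))
    (sk 0)))) lf) (s2 (sk 0) (s1 lf (s2 (s0 (s0 lf (sk 0)) (sk 0)) lf))))))) (s1 (s2 (s0 (s1 (s2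
    (sk 0) (s2 (sk 0) (s0 lf (s1 lf (sk 0))))) (sk 0)) (sk 0)) (s2 (s0 (s1 lf (s2 (s0 (s1 lf (sk
    0)) (sk 0)) lf)) (s1 (s1 lf (s2 (s0 (sk 0) (sk 0)) lf)) (s1 (s2 (sk 0) lf) (sk 0)))) lf))
    (s2 (sk 0) (s1 (s2 (s0 (s0 (s1 (s2 (sk 0) lf) (sk 0)) (sk 0)) (sk 0)) (s2 (s0 (s0 lf lf) (s0
    (s1 lf (sk 0)) (sk 0))) lf)) (s2 (sk 0) (s2 (sk 0) (s0 (s0 lf (s1 lf (sk 0))) (s0 (s1 lf (sk
    0)) (sk 0)))))))))
    ⟨79228162514264408314131848887, 10203467905762, 79228162514264572449227643290,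
    9323858603541, 79228162514264471294157887896, 49258120924366⟩ (by decide +kernel)

theorem R2b_62 : Hd (QR2b coB) 79228162514264408314131848887 10203467905762
    79228162514264572449227643290 9323858603541 79228162514264569810399736628 49258120924366 :=
  okR2b coB (s2 (s0 (s2 lf lf) (s1 lf (s2 (s2 lf lf) lf))) (s2 lf (s0 lf lf)))
    ⟨79228162514264408314131848887, 10203467905762, 79228162514264572449227643290,
    9323858603541, 79228162514264569810399736628, 49258120924366⟩ (by decide +kernel)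

theorem R2b_63 : Hd (QR2b coB) 79228162514264428721067660411 10203467905762
    79228162514264553801510436208 9323858603541 79228162514264520552278812262 98516241848731 :=
  okR2b coB (s2 (s0 (s1 (s2 (s0 (s2 (s1 lf (s0 (s1 lf (sk 0)) (sk 0))) lf) (s1 (s2 (s2 (sk 0)
    (s1 lf (s0 (sk 0) (sk 0)))) lf) (s2 (sk 0) (s0 lf (s2 (sk 0) lf))))) lf) (s2 (s2 (sk 0) (s0
    (s1 (s2 (s1 lf (sk 0)) lf) (sk 0)) (s2 (sk 0) (sk 0)))) (s2 (s1 lf (s2 (s0 lf (sk 0)) lf))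
    lf))) (s1 (s2 (s2 (sk 0) (s0 (s0 (s1 lf (s2 (sk 0) lf)) (s1 (s2 (sk 0) lf) (sk 0))) (s0 (s1
    (s2 (sk 0) lf) (sk 0)) (sk 0)))) (s2 (s0 lf (s0 lf (s1 lf (s2 (sk 0) lf)))) lf)) (s2 (sk 0)
    (s2 (s2 (s0 (sk 0) (sk 0)) (s1 (s0 lf (s0 lf (sk 0))) (sk 0))) (s0 lf (s0 lf (s1 lf (s2 (sk
    0) lf)))))))) (s2 (s2 (s0 lf lf) lf) (s2 lf lf)))
    ⟨79228162514264428721067660411, 10203467905762, 79228162514264553801510436208,
    9323858603541, 79228162514264520552278812262, 98516241848731⟩ (by decide +kernel)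

theorem R2b_64 : Hd (QR2b coB) 79228162514264428721067660411 10203467905762
    79228162514264572449227643290 9323858603541 79228162514264520552278812262 98516241848731 :=
  okR2b coB (s2 (s2 (sk 0) (s0 (s1 (s2 (s0 (s1 (s2 (sk 0) (s0 lf (s0 lf (sk 0)))) (sk 0)) (sk
    0)) (s2 (s1 lf (s0 (s1 lf (sk 0)) (sk 0))) lf)) (s0 (s1 (s2 (sk 0) (s2 (sk 0) (s1 lf (sk
    0)))) (sk 0)) (sk 0))) (s1 (s2 (sk 0) (s1 (s2 (s2 (sk 0) (s2 (sk 0) (sk 0))) lf) (s0 (s0 (s2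
    (sk 0) lf) (sk 0)) (sk 0)))) (sk 0)))) (s2 (s1 (s2 (s0 lf (s2 lf lf)) lf) (s0 (s2 (s2 (s1 lf
    (s0 (s2 (sk 0) lf) (sk 0))) lf) lf) (s2 (s1 (s2 (s0 (s1 lf (sk 0)) (sk 0)) lf) (s2 (sk 0)
    (s2 (sk 0) lf))) lf))) (s2 (s0 lf lf) lf)))
    ⟨79228162514264428721067660411, 10203467905762, 79228162514264572449227643290,
    9323858603541, 79228162514264520552278812262, 98516241848731⟩ (by decide +kernel)

theorem R2b_65 : Hd (QR2b coB) 79228162514264408314131848887 10203467905762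
    79228162514264591096944850372 9323858603541 79228162514264471294157887896 49258120924366 :=
  okR2b coB (s2 (sk 0) (s1 (s2 (sk 0) (s0 (s0 (s1 (s1 (s2 (s2 (sk 0) lf) lf) (s2 (sk 0) (s0 lf
    (s1 lf (sk 0))))) (s0 (s1 (s2 (sk 0) (s2 (sk 0) lf)) (sk 0)) (sk 0))) (s1 (s1 (s2 (sk 0) (s2
    (s0 (sk 0) (sk 0)) lf)) (sk 0)) (sk 0))) (sk 0))) (sk 0)))
    ⟨79228162514264408314131848887, 10203467905762, 79228162514264591096944850372,
    9323858603541, 79228162514264471294157887896, 49258120924366⟩ (by decide +kernel)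

theorem R2b_66 : Hd (QR2b coB) 79228162514264408314131848887 10203467905762
    79228162514264591096944850372 9323858603541 79228162514264569810399736628 49258120924366 :=
  okR2b coB (s1 (s2 (s0 (s2 (s0 (s1 lf (s1 lf (s2 (s2 (sk 0) lf) lf))) (s1 lf (s2 (s1 (s2 (sk 0)
    lf) (sk 0)) lf))) lf) (s2 (s1 (s2 (s0 (s1 lf (s2 (sk 0) lf)) (s0 (s1 lf (sk 0)) (sk 0))) lf)
    (s2 (sk 0) (s0 (s1 lf (s2 (sk 0) lf)) (s0 (s1 lf (sk 0)) (sk 0))))) (s2 lf lf))) (s2 lf lf))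
    (s0 (s2 (s1 (s2 (s2 (sk 0) (s1 (s2 (s0 (s0 lf (sk 0)) (sk 0)) lf) (s0 (s0 (s2 (sk 0) lf) (sk
    0)) (sk 0)))) (s0 lf (s2 (s2 lf lf) lf))) (s2 (sk 0) (s0 (s2 (s0 (s1 lf (sk 0)) (s1 (s2 (sk
    0) lf) (sk 0))) lf) (s1 (s2 (s2 (sk 0) lf) lf) (s2 (sk 0) (s0 lf (s2 (sk 0) lf))))))) (s2 lf
    lf)) (s2 (s2 (sk 0) (s1 (s2 (s0 (s1 lf (s2 (sk 0) lf)) (s1 (s1 lf (sk 0)) (sk 0))) lf) (s2
    (sk 0) (s0 (s1 lf (s2 (sk 0) lf)) (s1 (s2 (sk 0) lf) (sk 0)))))) (s2 (s2 lf lf) lf))))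
    ⟨79228162514264408314131848887, 10203467905762, 79228162514264591096944850372,
    9323858603541, 79228162514264569810399736628, 49258120924366⟩ (by decide +kernel)

theorem R2b_67 : Hd (QR2b coB) 79228162514264428721067660411 10203467905762
    79228162514264591096944850372 9323858603541 79228162514264520552278812262 98516241848731 :=
  okR2b coB (s2 (sk 0) (s1 (s2 (s0 (s1 (s2 (s2 (sk 0) (s2 (s0 (s0 lf (sk 0)) (sk 0)) lf)) lf)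
    (s2 (sk 0) (s2 (s1 lf (s0 lf (sk 0))) lf))) (s2 (sk 0) (s1 (s0 lf (s1 lf (s2 (sk 0) lf)))
    (s2 (sk 0) lf)))) (s2 (s0 lf lf) lf)) (s2 (s2 (sk 0) (s2 (sk 0) (s0 (s0 (s1 lf (s0 (sk 0)
    (sk 0))) (s1 (s2 (sk 0) lf) (sk 0))) (s0 (s1 (s1 lf (sk 0)) (sk 0)) (sk 0))))) (s2 (s2 (s2
    (s1 lf (s0 (s0 lf lf) (sk 0))) (s0 lf lf)) (s0 lf lf)) (s0 lf lf)))))
    ⟨79228162514264428721067660411, 10203467905762, 79228162514264591096944850372,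
    9323858603541, 79228162514264520552278812262, 98516241848731⟩ (by decide +kernel)

end FX.DB
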