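import Pool.Agent.H11.FX.CoAB

/-! Branch and bound data, generated. -/

set_option maxRecDepth 100000

namespace FX.DB

open H41FT H41FT.Tr

theorem R2b_68 : Hd (QR2b coB) 79228162514264418517599754649 20406935811523
    79228162514264609744662057454 9323858603541 79228162514264520552278812262 98516241848731 :=
  okR2b coB (s2 (sk 0) (s1 (s0 (s0 (s1 (s2 (s2 (sk 0) (s1 (s2 (sk 0) (s2 (sk 0) (s0 lf (s0 lf
    (sk 0))))) (sk 0))) (s2 (s1 lf (s2 (s0 lf (s0 lf (s2 (sk 0) lf))) lf)) lf)) (s2 (sk 0) (s2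
    (s1 (s2 (s2 (sk 0) (s0 lf (s0 (sk 0) (sk 0)))) lf) (s2 (sk 0) (s1 lf (s2 (sk 0) lf)))) lf)))
    (s2 (sk 0) (s2 (s1 (s2 (s0 (s1 lf (s2 (sk 0) lf)) (s2 (sk 0) lf)) lf) (s2 (sk 0) (s1 (s0 lf
    lf) (s2 (sk 0) lf)))) (s2 lf lf)))) (s2 (sk 0) (s1 (s0 (s2 (s2 (s1 (s2 (sk 0) lf) (sk 0))
    lf) lf) (s2 (s2 (sk 0) (s1 lf (s2 (sk 0) lf))) lf)) (s2 (s2 (sk 0) (s2 (sk 0) (s0 (s1 lf (sk
    0)) (s0 (s1 lf (sk 0)) (sk 0))))) (s2 (s0 lf (s0 lf (s1 lf lf))) lf))))) (s1 (s2 (sk 0) (s0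
    (s0 (s2 (s1 (s2 (sk 0) (s1 (s2 (sk 0) lf) (sk 0))) (sk 0)) (s2 (s1 lf (s1 (s0 lf lf) (sk
    2))) lf)) (s1 (s2 (sk 0) (s2 (s0 lf lf) lf)) (sk 2))) (s1 (s2 (sk 0) (s0 (s2 (s2 (s1 lf (sk
    0)) lf) lf) (s2 (s2 (sk 0) lf) lf))) (sk 2)))) (sk 2))))
    ⟨79228162514264418517599754649, 20406935811523, 79228162514264609744662057454,
    9323858603541, 79228162514264520552278812262, 98516241848731⟩ (by decide +kernel)

theorem R2b_69 : Hd (QR2b coB) 79228162514264449128003471933 10203467905762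
    79228162514264507182217418505 37295434414163 79228162514264520552278812262 98516241848731 :=
  okR2b coB (s1 (s0 (sk 1) (s1 (sk 1) (s2 (s2 lf lf) (s2 lf lf)))) (s1 (s2 (s2 (s0 (s0 lf (s2 lf
    lf)) (s1 (s2 lf lf) (s2 (s0 (s1 lf (s2 (sk 0) lf)) (s1 (s2 (sk 0) lf) (sk 0))) lf))) (s2 lf
    lf)) (s0 (s2 lf lf) (s2 lf lf))) (s2 (s0 (s1 (s2 (s0 (s2 (s1 lf (s2 (sk 0) lf)) lf) (s2 (s1
    (s2 (sk 0) lf) (sk 0)) lf)) lf) (s2 (s2 (sk 0) (s0 (s1 lf (s2 (sk 0) lf)) (s1 (s2 (sk 0) lf)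
    (sk 0)))) (s2 (s0 lf lf) lf))) (s1 (s2 (s2 (sk 0) (s0 (s1 lf (s2 (sk 0) lf)) (s1 (s2 (sk 0)
    lf) (sk 0)))) (s2 lf lf)) (s2 (sk 0) (s2 (s0 (s1 lf (s2 (sk 0) lf)) (s1 (s2 (sk 0) lf) (sk
    0))) lf)))) (s2 (s2 lf lf) (s2 lf lf)))))
    ⟨79228162514264449128003471933, 10203467905762, 79228162514264507182217418505,
    37295434414163, 79228162514264520552278812262, 98516241848731⟩ (by decide +kernel)

theorem R2b_70 : Hd (QR2b coB) 79228162514264469534939283457 10203467905762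
    79228162514264488534500211423 18647717207082 79228162514264520552278812262 98516241848731 :=
  okR2b coB (s1 (s2 (s2 (s0 lf lf) lf) (s0 (s2 lf lf) (s2 lf lf))) (s2 (s2 (s0 (s0 lf (s2 lf
    lf)) (s0 (s1 lf (s2 (s1 lf (s2 (sk 0) lf)) lf)) (s1 (s2 lf lf) (s2 (s1 (s2 (sk 0) lf) (sk
    0)) lf)))) (s2 lf lf)) (s0 (s2 lf lf) (s2 lf lf))))
    ⟨79228162514264469534939283457, 10203467905762, 79228162514264488534500211423,
    18647717207082, 79228162514264520552278812262, 98516241848731⟩ (by decide +kernel)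

theorem R2b_71 : Hd (QR2b coB) 79228162514264469534939283457 10203467905762
    79228162514264525829934625587 18647717207082 79228162514264520552278812262 98516241848731 :=
  okR2b coB (s1 (s2 (s0 (s1 (s2 (s2 (s0 (s1 lf (s2 (sk 0) lf)) (s1 (s2 (sk 0) lf) (sk 0))) lf)
    lf) (s2 (s2 (sk 0) (s0 (s1 lf (s2 (sk 0) lf)) (s0 (s2 (sk 0) lf) (sk 0)))) (s2 lf lf))) (s2
    (s1 (s2 (sk 0) (s0 (s1 lf (s2 (sk 0) lf)) (s0 (s2 (sk 0) lf) (sk 0)))) (sk 0)) (s2 (s1 lf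
    (s2 (s0 (s1 lf (sk 0)) (sk 0)) lf)) lf))) (s2 (s2 lf lf) (s2 lf lf))) (s2 (s2 (sk 0) (s0 (s1
    (s2 (s2 (s0 (s1 lf (sk 0)) (sk 0)) lf) lf) (s2 (sk 0) (s0 lf (s1 lf (s2 (sk 0) lf))))) (s2
    (s2 (sk 0) (s2 (sk 0) (sk 0))) (s1 (s0 lf (s2 lf lf)) (s2 (sk 0) (s0 lf (s0 lf (sk 0))))))))
    (s2 (s0 (s2 lf lf) (s2 (s0 lf lf) lf)) (s2 lf lf))))
    ⟨79228162514264469534939283457, 10203467905762, 79228162514264525829934625587,
    18647717207082, 79228162514264520552278812262, 98516241848731⟩ (by decide +kernel)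

theorem R2b_72 : Hd (QR2b coB) 79228162514264489941875094979 10203467905762
    79228162514264488534500211423 18647717207082 79228162514264520552278812262 98516241848731 :=
  okR2b coB (s1 (s2 (s2 (s0 (s1 lf (s0 lf (s1 lf (s2 (s0 lf (s2 (sk 0) lf)) lf)))) (s0 (s2 (s1
    lf (s0 (s1 lf (s2 (sk 0) lf)) (s1 (s2 (sk 0) lf) (sk 0)))) lf) (s1 (s2 (s1 lf (s2 (s0 lf (sk
    0)) lf)) lf) (s0 (s2 (s1 (s2 (sk 0) lf) (sk 0)) lf) (s2 (sk 0) (s1 lf (s2 (sk 0) lf)))))))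
    (s2 lf lf)) (s0 (s2 lf lf) (s2 lf lf))) (s2 (s0 (s1 (s2 (s2 (s0 (s2 (s1 lf (sk 0)) lf) (s0
    (s1 (s2 (sk 0) lf) (sk 0)) (sk 0))) (s2 lf lf)) lf) (s2 (s2 (sk 0) (s0 (s1 lf (s2 (sk 0)
    lf)) (s0 (s2 (sk 0) lf) (sk 0)))) (s2 lf lf))) (s2 (s1 (s2 (sk 0) (s0 (s2 (s1 lf (sk 0)) lf)
    (s1 (s2 (sk 0) lf) (sk 0)))) (sk 0)) (s2 (s1 lf (s2 (s0 (s1 lf (sk 0)) (sk 0)) lf)) lf)))
    (s2 (s2 lf lf) (s2 lf lf))))
    ⟨79228162514264489941875094979, 10203467905762, 79228162514264488534500211423,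
    18647717207082, 79228162514264520552278812262, 98516241848731⟩ (by decide +kernel)

theorem R2b_73 : Hd (QR2b coB) 79228162514264510348810906503 10203467905762
    79228162514264488534500211423 18647717207082 79228162514264520552278812262 98516241848731 :=
  okR2b coB (s1 (s2 (s0 (s2 (s0 (s1 (s2 (s1 (s2 (s0 (s0 lf (sk 0)) (sk 0)) lf) (sk 0)) lf) (s2
    (sk 0) (s2 (sk 0) lf))) (s2 (sk 0) (s1 (s1 lf (s2 (sk 0) lf)) (sk 0)))) (s2 (s0 lf (s1 lf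
    lf)) lf)) (s2 (s0 (s1 (s1 (s2 (sk 0) (s2 (sk 0) lf)) (sk 0)) (sk 0)) (sk 0)) (s2 (s0 (s1 lf
    (s1 lf (s2 (sk 0) lf))) (s1 (s2 lf lf) (s2 (sk 0) lf))) lf))) (s2 (s2 lf lf) (s2 lf lf)))
    (s2 (s2 (sk 0) (s0 (s1 (s2 (s2 (s0 (s0 lf (sk 0)) (sk 0)) lf) lf) (s2 (sk 0) (s2 lf lf)))
    (s2 (sk 0) (s1 (s0 lf (s2 lf lf)) (s2 (sk 0) lf))))) (s2 (s2 (s0 lf lf) lf) (s2 lf lf))))
    ⟨79228162514264510348810906503, 10203467905762, 79228162514264488534500211423,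
    18647717207082, 79228162514264520552278812262, 98516241848731⟩ (by decide +kernel)

theorem R2b_74 : Hd (QR2b coB) 79228162514264500145343000741 20406935811523
    79228162514264525829934625587 18647717207082 79228162514264471294157887896 49258120924366 :=
  okR2b coB (s2 (s2 (sk 0) (sk 0)) (s0 (s0 (s1 (s1 (s2 (s2 (s0 (s1 lf (sk 0)) (sk 0)) lf) lf)
    (s2 (s0 (s0 (s2 (sk 0) lf) (sk 0)) (sk 0)) (s2 lf lf))) (s1 (s2 (sk 0) (s2 (sk 0) (s0 lf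
    lf))) (sk 0))) (s1 (s1 (s2 (s2 (sk 0) (s2 (sk 0) (sk 0))) (s2 lf lf)) (s2 (sk 0) (s2 (sk 0)
    lf))) (sk 0))) (s1 (s0 (s1 (s2 (sk 0) (s2 (sk 0) lf)) (sk 0)) (sk 0)) (sk 0))))
    ⟨79228162514264500145343000741, 20406935811523, 79228162514264525829934625587,
    18647717207082, 79228162514264471294157887896, 49258120924366⟩ (by decide +kernel)

theorem R2b_75 : Hd (QR2b coB) 79228162514264500145343000741 20406935811523
    79228162514264525829934625587 18647717207082 79228162514264569810399736628 49258120924366 :=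
  okR2b coB (s0 (s1 (s2 (s2 (s0 lf (s0 lf lf)) lf) (s2 lf lf)) (s2 (s0 (s2 (s1 lf (s0 lf (s1 lf
    (s2 (sk 0) lf)))) lf) (s1 (s2 (s2 lf lf) lf) (s2 (s2 (sk 0) lf) lf))) (s2 (s0 lf lf) lf)))
    (s1 (s2 (s0 (s2 (s1 lf (s2 lf lf)) lf) (s2 (s1 (s2 lf lf) (s2 (sk 0) lf)) lf)) (s2 (s0 lf
    lf) lf)) (s2 (s2 (s2 (sk 0) (s1 (s0 lf (sk 0)) (sk 0))) (s1 (s2 lf lf) (s2 (s0 lf (s0 lf (sk
    0))) lf))) (s2 (s2 lf lf) (s0 lf lf)))))
    ⟨79228162514264500145343000741, 20406935811523, 79228162514264525829934625587,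
    18647717207082, 79228162514264569810399736628, 49258120924366⟩ (by decide +kernel)

theorem R2b_76 : Hd (QR2b coB) 79228162514264449128003471933 10203467905762
    79228162514264563125369039749 18647717207082 79228162514264520552278812262 98516241848731 :=
  okR2b coB (s2 (s2 (sk 0) (s1 (s0 (s1 (s2 (s0 (s2 (s1 lf (sk 0)) lf) (s1 (s2 (sk 0) lf) (sk
    0))) lf) (s2 (sk 0) (s0 (s1 lf (s2 (sk 0) lf)) (s2 (sk 0) (s1 lf (sk 0)))))) (s2 (sk 0) (s1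
    (s2 (s1 lf (sk 0)) lf) (s0 (s1 (s2 (sk 0) lf) (sk 0)) (sk 0))))) (s2 (sk 0) (sk 0)))) (s1
    (s2 (s1 (s2 lf lf) (s2 (s0 lf (s0 lf (s2 lf lf))) lf)) (s2 lf lf)) (s0 (s2 (s1 (s2 (s2 (s1
    lf (s0 (s0 lf (sk 0)) (sk 0))) lf) lf) (s1 (s2 (s0 (s2 (sk 0) lf) (sk 0)) lf) (s2 (sk 0) (s2
    lf lf)))) (s2 lf lf)) (s2 (s1 (s2 (s2 (sk 0) (s0 lf (s1 lf (sk 0)))) lf) (s2 (sk 0) (s2 (s1
    lf (sk 0)) lf))) (s2 (s0 lf lf) lf)))))
    ⟨79228162514264449128003471933, 10203467905762, 79228162514264563125369039749,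
    18647717207082, 79228162514264520552278812262, 98516241848731⟩ (by decide +kernel)

theorem R2b_77 : Hd (QR2b coB) 79228162514264469534939283457 10203467905762
    79228162514264563125369039749 18647717207082 79228162514264520552278812262 98516241848731 :=
  okR2b coB (s1 (s2 (s0 (s1 (s2 (sk 0) (s1 (s2 (sk 0) (s2 (sk 0) lf)) (sk 0))) (sk 0)) (sk 0))
    (s2 (s1 (s2 (s2 (s0 lf (s0 lf (sk 0))) lf) lf) (s2 (s0 (s2 (s0 (s1 lf (sk 0)) (sk 0)) lf)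
    (s1 (s2 (sk 0) lf) (sk 0))) (s2 lf lf))) (s2 (s0 lf lf) lf))) (s2 (sk 0) (s2 (s2 (s0 (s2 (sk
    0) (s2 (sk 0) (s2 (sk 0) (sk 0)))) (sk 0)) (s1 (s0 (s0 lf (s2 lf lf)) (s2 (s1 lf (sk 0))
    lf)) (s2 (sk 0) (s0 (s1 lf (s2 (sk 0) lf)) (s1 (s2 (sk 0) lf) (sk 0)))))) (s0 (s2 (s1 lf lf)
    lf) (s2 (s1 lf (s2 lf lf)) lf)))))
    ⟨79228162514264469534939283457, 10203467905762, 79228162514264563125369039749,
    18647717207082, 79228162514264520552278812262, 98516241848731⟩ (by decide +kernel)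

theorem R2b_78 : Hd (QR2b coB) 79228162514264500145343000741 20406935811523
    79228162514264563125369039749 18647717207082 79228162514264471294157887896 49258120924366 :=
  okR2b coB (sk 0)
    ⟨79228162514264500145343000741, 20406935811523, 79228162514264563125369039749,
    18647717207082, 79228162514264471294157887896, 49258120924366⟩ (by decide +kernel)

theorem R2b_79 : Hd (QR2b coB) 79228162514264489941875094979 10203467905762
    79228162514264563125369039749 18647717207082 79228162514264569810399736628 49258120924366 :=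
  okR2b coB (s1 (s0 (s2 (s1 (s2 (s2 (sk 0) (s0 lf (s0 lf (sk 0)))) lf) (s2 (sk 0) (s1 lf (s0 lf
    (s2 (sk 0) lf))))) (s2 lf lf)) (s2 (s2 (sk 0) (s1 (s2 lf lf) (s2 (s0 (sk 0) (sk 0)) lf)))
    (s2 (s0 lf lf) lf))) (s2 (s2 (sk 0) (s1 (s2 (sk 0) (s0 (s0 lf (s2 (sk 0) lf)) (s0 (s1 lf (sk
    0)) (sk 0)))) (sk 0))) (s1 (s2 (s0 lf (s2 lf lf)) lf) (s0 (s2 (s2 (s1 lf (s2 (sk 0) lf)) lf)
    lf) (s2 (s2 (s2 (sk 0) (s0 lf lf)) lf) lf)))))
    ⟨79228162514264489941875094979, 10203467905762, 79228162514264563125369039749,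
    18647717207082, 79228162514264569810399736628, 49258120924366⟩ (by decide +kernel)

theorem R2b_80 : Hd (QR2b coB) 79228162514264510348810906503 10203467905762
    79228162514264563125369039749 18647717207082 79228162514264569810399736628 49258120924366 :=
  okR2b coB (s1 (s2 (s2 (sk 0) (s0 (s1 (s2 (s1 lf (sk 0)) lf) (s2 (sk 0) (s2 (sk 0) lf))) (s1
    (s2 (sk 0) (s0 lf (s1 lf (sk 0)))) (sk 0)))) (s0 (s2 (s2 lf lf) lf) (s2 (s1 lf (s2 (s0 lf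
    lf) lf)) lf))) (s2 (sk 0) (s2 (s0 (s1 (s2 (s1 lf (s2 (sk 0) lf)) lf) (s1 (s2 (s2 (sk 0) lf)
    lf) (s2 (sk 0) lf))) (s1 (s2 (s2 (sk 0) (s1 lf (s0 (sk 0) (sk 0)))) lf) (s2 (sk 0) (s2 (s1
    lf (sk 0)) lf)))) (s2 (s0 lf (s0 lf lf)) lf))))
    ⟨79228162514264510348810906503, 10203467905762, 79228162514264563125369039749,
    18647717207082, 79228162514264569810399736628, 49258120924366⟩ (by decide +kernel)

theorem R2b_81 : Hd (QR2b coB) 79228162514264479738407189218 40813871623046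
    79228162514264600420803453913 18647717207082 79228162514264471294157887896 49258120924366 :=
  okR2b coB (sk 0)
    ⟨79228162514264479738407189218, 40813871623046, 79228162514264600420803453913,
    18647717207082, 79228162514264471294157887896, 49258120924366⟩ (by decide +kernel)

theorem R2b_82 : Hd (QR2b coB) 79228162514264459331471377695 20406935811523
    79228162514264591096944850372 9323858603541 79228162514264569810399736628 49258120924366 :=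
  okR2b coB (s2 (s2 (sk 0) (s0 (s1 (s0 (s2 (sk 0) (s1 lf (s2 (sk 0) lf))) (s1 (s2 (sk 0) (s2 (sk
    0) lf)) (sk 0))) (sk 0)) (s0 (sk 0) (sk 0)))) (s0 (s1 (s2 (s2 (s0 lf lf) lf) lf) (s2 (s1 (s2
    (s0 (s0 lf (s2 (sk 0) lf)) (s2 (sk 0) lf)) lf) (s0 (s2 (s0 (s2 (sk 0) lf) (sk 0)) lf) (s2
    (sk 0) (s1 lf (s2 (sk 0) lf))))) (s0 lf lf))) (s1 (s0 (s2 (s2 (s1 lf (s2 (sk 0) lf)) lf) lf)
    (s2 (s2 (s2 (sk 0) (s1 lf (sk 0))) lf) lf)) (s2 (s2 (sk 0) (s1 (s0 lf (s0 lf (s2 (sk 0)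
    lf))) (s2 (sk 0) (s0 lf (s0 lf (sk 0)))))) (s2 (s0 lf lf) lf)))))
    ⟨79228162514264459331471377695, 20406935811523, 79228162514264591096944850372,
    9323858603541, 79228162514264569810399736628, 49258120924366⟩ (by decide +kernel)

theorem R2b_83 : Hd (QR2b coB) 79228162514264500145343000741 20406935811523
    79228162514264591096944850372 9323858603541 79228162514264569810399736628 49258120924366 :=
  okR2b coB (s2 (sk 0) (s0 (s1 (s0 (s2 (s1 (s2 (s2 (sk 0) lf) lf) (s2 (sk 0) (s0 lf lf))) lf)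
    (s2 (s2 (sk 0) (s1 lf (s2 (sk 0) lf))) (s1 lf lf))) (s2 (s1 (s2 (sk 0) (s2 (sk 0) (s0 lf (s0
    (s0 lf (sk 0)) (sk 0))))) (sk 0)) (s2 (s1 (s0 lf lf) (s2 (s0 lf (s2 (sk 0) lf)) lf)) lf)))
    (s1 (s2 (s2 (sk 0) (s2 (sk 0) (s0 (s1 lf (s0 lf (sk 0))) (s1 (s2 (sk 0) lf) (sk 0))))) (s2
    (s0 lf (s0 lf (s1 lf (s2 lf lf)))) lf)) (s2 (sk 0) (s0 (s2 (s0 (s1 lf (s2 (sk 0) lf)) (s2
    (s1 (s2 (sk 0) lf) (sk 0)) lf)) lf) (s2 (s1 (s2 (s1 (s2 (sk 0) lf) (sk 0)) lf) (s2 (sk 0)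
    (s2 (s0 (s1 lf (sk 0)) (sk 0)) lf))) lf))))))
    ⟨79228162514264500145343000741, 20406935811523, 79228162514264591096944850372,
    9323858603541, 79228162514264569810399736628, 49258120924366⟩ (by decide +kernel)

end FX.DB
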